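import Pool.Agent.Lib.MP_86a502_gt.Sti

set_option autoImplicit false
set_option linter.unusedSectionVars false

/-! # JOB Ang. The possible values of `g` (60-120 lines, easy)

`cos (π/2) = 0`, `cos (π/3) = 1/2`, `cos (π/4) = √2/2`, `cos (π/5) = (1 + √5)/4 ≥ 0.809`
(`Real.cos_pi_div_five`), `cos (π/m) ≥ cos (π/5)` for `m ≥ 5` (`Real.cos_le_cos_of_nonneg_of_le_pi`). -/

namespace MP86a502

variable {ι : Type} {g : ι → ι → ℝ}

theorem Diag.nonpos (h : Diag g) {i j : ι} (hij : i ≠ j) : g i j ≤ 0 := by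
  rcases h.ang i j hij with h1 | ⟨m, hm, h1⟩
  · linarith
  · rw [h1]
    have hm' : (2 : ℝ) ≤ m := by exact_mod_cast hm
    have hpi := Real.pi_pos
    have h2 : Real.pi / (m : ℝ) ≤ Real.pi / 2 :=
      div_le_div_of_nonneg_left hpi.le (by norm_num) hm'
    have h3 : 0 ≤ Real.pi / (m : ℝ) := by positivity
    have := Real.cos_nonneg_of_neg_pi_div_two_le_of_le (by linarith) h2
    linarith

/-- The trichotomy of values. -/
theorem Diag.vals (h : Diag g) {i j : ι} (hij : i ≠ j) :
    g i j = 0 ∨ g i j = -(1 / 2) ∨ g i j = -(√2 / 2) ∨ g i j ≤ -(809 / 1000) := by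
  rcases h.ang i j hij with h1 | ⟨m, hm, h1⟩
  · right; right; right; linarith
  · rcases Nat.lt_or_ge m 5 with h5 | h5
    · interval_cases m
      · left
        rw [h1]
        push_cast
        rw [Real.cos_pi_div_two, neg_zero]
      · right; left
        rw [h1]
        push_cast
        rw [Real.cos_pi_div_three]
      · right; right; left
        rw [h1]
        push_cast
        rw [Real.cos_pi_div_four]
    · right; right; right
      rw [h1]
      have hm' : (5 : ℝ) ≤ m := by exact_mod_cast h5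
      have hpi := Real.pi_pos
      have h2 : Real.pi / (m : ℝ) ≤ Real.pi / 5 :=
        div_le_div_of_nonneg_left hpi.le (by norm_num) hm'
      have h3 : 0 ≤ Real.pi / (m : ℝ) := by positivity
      have h4 := Real.cos_le_cos_of_nonneg_of_le_pi h3 (by linarith) h2
      rw [Real.cos_pi_div_five] at h4
      have h6 : (2236 / 1000 : ℝ) ≤ √5 := by
        apply Real.le_sqrt_of_sq_le
        norm_num
      linarith

theorem Diag.half (h : Diag g) {i j : ι} (hij : i ≠ j) (h0 : g i j ≠ 0) : g i j ≤ -(1 / 2) := by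
  have hs : (1 : ℝ) ≤ √2 := by
    apply Real.le_sqrt_of_sq_le
    norm_num
  rcases h.vals hij with h1 | h1 | h1 | h1
  · exact absurd h1 h0
  · linarith
  · linarith
  · linarith

theorem Diag.big_le (h : Diag g) {i j : ι} (hb : big g i j) : g i j ≤ -(809 / 1000) := by
  have hs : √2 < 3 / 2 := by
    rw [Real.sqrt_lt' (by norm_num)]
    norm_num
  obtain ⟨hij, hb⟩ := hb
  rcases h.vals hij with h1 | h1 | h1 | h1
  · linarith
  · linarith
  · linarith
  · exact h1

/-- A pair that is not `big` has one of three values. -/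
theorem Diag.not_big (h : Diag g) {i j : ι} (hij : i ≠ j) (hb : ¬ big g i j) :
    g i j = 0 ∨ g i j = -(1 / 2) ∨ g i j = -(√2 / 2) := by
  rcases h.vals hij with h1 | h1 | h1 | h1
  · exact Or.inl h1
  · exact Or.inr (Or.inl h1)
  · exact Or.inr (Or.inr h1)
  · exact absurd ⟨hij, by linarith⟩ hb

theorem Diag.adj_comm (h : Diag g) {i j : ι} : adj g i j ↔ adj g j i := by
  unfold adj
  rw [h.symm i j, ne_comm]

theorem Diag.big_comm (h : Diag g) {i j : ι} : big g i j ↔ big g j i := by
  unfold big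
  rw [h.symm i j, ne_comm]

theorem big_adj {i j : ι} (hb : big g i j) : adj g i j := by
  refine ⟨hb.1, fun h0 => ?_⟩
  have := hb.2
  rw [h0] at this
  norm_num at this

theorem Diag.near_comm (h : Diag g) {S : Finset ι} {i j : ι} : near g S i j ↔ near g S j i := by
  have key : ∀ a b : ι, near g S a b → near g S b a := by
    rintro a b ⟨hab, h1 | ⟨z, hz, h1, h2⟩⟩
    · exact ⟨hab.symm, Or.inl (by rw [h.symm b a]; exact h1)⟩
    · exact ⟨hab.symm, Or.inr ⟨z, hz, h.adj_comm.mp h2, h.adj_comm.mp h1⟩⟩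
  exact ⟨key i j, key j i⟩

end MP86a502
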