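import Pool.Agent.Lib.MP_86a502_gt.Mor

set_option autoImplicit false
set_option linter.unusedSectionVars false

/-! # JOB Mob. `lm_count` (120-200 lines). The proof is in the header of `Mor.lean` (you may use its theorems). -/

namespace MP86a502

variable {ι : Type} [Fintype ι] [DecidableEq ι] {n : ℕ} {g : ι → ι → ℝ}

open scoped Classical in
private noncomputable def Mob_D (n : ℕ) (g : ι → ι → ℝ) (h : Finset ι → ℝ) (S : Finset ι) :
    Finset ι :=
  S.filter (fun i => ∀ S' ∈ verts n g, S' ≠ S → S.erase i ⊆ S' → h S' < h S)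

private theorem Mob_mem {h : Finset ι → ℝ} {S : Finset ι} {i : ι} : i ∈ Mob_D n g h S ↔
    i ∈ S ∧ ∀ S' ∈ verts n g, S' ≠ S → S.erase i ⊆ S' → h S' < h S := by
  simp only [Mob_D, Finset.mem_filter]

private theorem Mob_max {h : Finset ι → ℝ} (hlm : LM n g h) {S P : Finset ι}
    (hS : S ∈ verts n g) (hP : P ⊆ Mob_D n g h S) (hf : S \ P ∈ faces2 n g) :
    ∀ S' ∈ ov n g (S \ P), S' ≠ S → h S' < h S := by
  apply hlm _ hf S
  · rw [mem_ov]
    exact ⟨mem_verts.1 hS, Finset.sdiff_subset⟩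
  · intro S' hS' hc
    rw [mem_ov] at hS'
    have hSc := (mem_verts.1 hS).1
    have h1 : (S \ S').card = 1 := by
      have h2 := Finset.card_sdiff_add_card_inter S S'
      omega
    obtain ⟨i, hi⟩ := Finset.card_eq_one.1 h1
    have hi1 : i ∈ S \ S' := by
      rw [hi]
      exact Finset.mem_singleton_self i
    rw [Finset.mem_sdiff] at hi1
    have hiP : i ∈ P := by
      by_contra hn
      exact hi1.2 (hS'.2 (Finset.mem_sdiff.2 ⟨hi1.1, hn⟩))
    apply (Mob_mem.1 (hP hiP)).2 S' (mem_verts.2 hS'.1)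
    · rintro rfl
      exact hi1.2 hi1.1
    · intro x hx
      rw [Finset.mem_erase] at hx
      by_contra hn
      have h3 : x ∈ S \ S' := Finset.mem_sdiff.2 ⟨hx.2, hn⟩
      rw [hi, Finset.mem_singleton] at h3
      exact hx.1 h3

private theorem Mob_face {h : Finset ι → ℝ} {S P : Finset ι} (hS : S ∈ verts n g)
    (hP : P ∈ (Mob_D n g h S).powersetCard 2) : P ⊆ S ∧ S \ P ∈ faces2 n g := by
  rw [Finset.mem_powersetCard] at hP
  have h1 : P ⊆ S := fun x hx => (Mob_mem.1 (hP.1 hx)).1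
  have h2 := Finset.card_sdiff_add_card_inter S P
  have h3 : S ∩ P = P := Finset.inter_eq_right.2 h1
  rw [h3, hP.2, (mem_verts.1 hS).1] at h2
  exact ⟨h1, mem_faces2.2 ⟨h2, pd_subset (mem_verts.1 hS).2 Finset.sdiff_subset⟩⟩

private theorem Mob_sum {h : Finset ι → ℝ} (hlm : LM n g h) :
    ∑ S ∈ verts n g, (Mob_D n g h S).card.choose 2 ≤ (faces2 n g).card := by
  have h1 : ∑ S ∈ verts n g, (Mob_D n g h S).card.choose 2 =
      ((verts n g).sigma (fun S => (Mob_D n g h S).powersetCard 2)).card := by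
    rw [Finset.card_sigma]
    apply Finset.sum_congr rfl
    intro S _
    rw [Finset.card_powersetCard]
  rw [h1]
  apply Finset.card_le_card_of_injOn (fun p => p.1 \ p.2)
  · rintro ⟨S, P⟩ hp
    rw [Finset.mem_coe, Finset.mem_sigma] at hp
    exact (Mob_face hp.1 hp.2).2
  · rintro ⟨S, P⟩ hp ⟨S', P'⟩ hp' heq
    rw [Finset.mem_coe, Finset.mem_sigma] at hp hp'
    obtain ⟨hS, hP⟩ := hp
    obtain ⟨hS', hP'⟩ := hp'
    change S ∈ verts n g at hS
    change S' ∈ verts n g at hS'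
    change P ∈ (Mob_D n g h S).powersetCard 2 at hP
    change P' ∈ (Mob_D n g h S').powersetCard 2 at hP'
    change S \ P = S' \ P' at heq
    have hf := Mob_face hS hP
    have hf' := Mob_face hS' hP'
    have hm := Mob_max hlm hS (Finset.mem_powersetCard.1 hP).1 hf.2
    have hm' := Mob_max hlm hS' (Finset.mem_powersetCard.1 hP').1 hf'.2
    by_cases hSS : S = S'
    · subst hSS
      have h2 : P = P' := by
        rw [← Finset.sdiff_sdiff_eq_self hf.1, heq, Finset.sdiff_sdiff_eq_self hf'.1]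
      rw [h2]
    · exfalso
      have h3 : S' ∈ ov n g (S \ P) := by
        rw [mem_ov, heq]
        exact ⟨mem_verts.1 hS', Finset.sdiff_subset⟩
      have h4 : S ∈ ov n g (S' \ P') := by
        rw [mem_ov, ← heq]
        exact ⟨mem_verts.1 hS, Finset.sdiff_subset⟩
      have h5 := hm S' h3 (Ne.symm hSS)
      have h6 := hm' S h4 hSS
      linarith

private theorem Mob_compl (he : Edge n g) {h : Finset ι → ℝ}
    (hinj : ∀ S ∈ verts n g, ∀ S' ∈ verts n g, h S = h S' → S = S') {S : Finset ι}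
    (hS : S ∈ verts n g) : S \ Mob_D n g h S ⊆ Mob_D n g (fun S => -h S) S := by
  intro i hi
  rw [Finset.mem_sdiff] at hi
  obtain ⟨hiS, hiD⟩ := hi
  rw [Mob_mem]
  refine ⟨hiS, ?_⟩
  intro S' hS' hne hsub
  show -h S' < -h S
  obtain ⟨u, _, _, hu⟩ := nbr_exists he hS hiS
  by_contra hcon
  apply hiD
  rw [Mob_mem]
  refine ⟨hiS, ?_⟩
  intro S2 hS2 hne2 hsub2
  have h1 : S2 = S' := by rw [hu S2 hS2 hne2 hsub2, hu S' hS' hne hsub]
  rw [h1]
  have h2 : h S' ≠ h S := fun h3 => hne (hinj S' hS' S hS h3)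
  rcases lt_or_gt_of_ne h2 with h3 | h3
  · exact h3
  · exfalso
    apply hcon
    linarith

theorem lm_count (hn : 2 ≤ n) (he : Edge n g) (hne : (verts n g).Nonempty) {h : Finset ι → ℝ}
    (hlm : LM n g h) (hlm' : LM n g (fun S => -h S))
    (hinj : ∀ S ∈ verts n g, ∀ S' ∈ verts n g, h S = h S' → S = S') :
    ((verts n g).card : ℝ) * Bn n < ∑ T ∈ faces2 n g, (5 - ((ov n g T).card : ℝ)) := by
  set A : ℝ := if Even n then (n : ℝ) * (n - 2) / 4 else ((n : ℝ) - 1) ^ 2 / 4 with hA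
  have hn' : (2 : ℝ) ≤ (n : ℝ) := by exact_mod_cast hn
  -- the two sums
  have h1 : ∑ S ∈ verts n g, ((Mob_D n g h S).card.choose 2 : ℝ) ≤ ((faces2 n g).card : ℝ) := by
    exact_mod_cast Mob_sum hlm
  have h2 : ∑ S ∈ verts n g, ((n - (Mob_D n g h S).card).choose 2 : ℝ) ≤
      ((faces2 n g).card : ℝ) := by
    have h3 : ∑ S ∈ verts n g, (n - (Mob_D n g h S).card).choose 2 ≤ (faces2 n g).card := by
      refine le_trans (Finset.sum_le_sum ?_) (Mob_sum hlm')
      intro S hS
      apply Nat.choose_le_choose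
      have h4 := Finset.card_le_card (Mob_compl he hinj hS)
      have h5 : (Mob_D n g h S) ⊆ S := fun x hx => (Mob_mem.1 hx).1
      rw [Finset.card_sdiff_of_subset h5, (mem_verts.1 hS).1] at h4
      exact h4
    exact_mod_cast h3
  have hcard : ∀ S ∈ verts n g, (Mob_D n g h S).card ≤ n := by
    intro S hS
    have h5 : (Mob_D n g h S) ⊆ S := fun x hx => (Mob_mem.1 hx).1
    have h6 := Finset.card_le_card h5
    rw [(mem_verts.1 hS).1] at h6
    exact h6
  -- the maximum
  obtain ⟨S0, hS0, hmax⟩ := Finset.exists_max_image (verts n g) h hne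
  have hD0 : Mob_D n g h S0 = S0 := by
    apply Finset.Subset.antisymm (fun x hx => (Mob_mem.1 hx).1)
    intro i hi
    rw [Mob_mem]
    refine ⟨hi, ?_⟩
    intro S' hS' hne' _
    exact lt_of_le_of_ne (hmax S' hS') (fun h3 => hne' (hinj S' hS' S0 hS0 h3))
  have hlt : ((verts n g).card : ℝ) * A < ∑ S ∈ verts n g,
      (((Mob_D n g h S).card.choose 2 : ℝ) + ((n - (Mob_D n g h S).card).choose 2 : ℝ)) := by
    rw [← nsmul_eq_mul, ← Finset.sum_const]
    apply Finset.sum_lt_sum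
    · intro S hS
      exact choose_bound n _ (hcard S hS)
    · refine ⟨S0, hS0, ?_⟩
      rw [hD0, (mem_verts.1 hS0).1, Nat.sub_self, Nat.cast_choose_two]
      have h7 : ((Nat.choose 0 2 : ℕ) : ℝ) = 0 := by simp
      rw [h7, hA]
      split_ifs
      · nlinarith
      · nlinarith
  rw [Finset.sum_add_distrib] at hlt
  have hov : (∑ T ∈ faces2 n g, ((ov n g T).card : ℝ)) =
      ((verts n g).card : ℝ) * ((n : ℝ) * (n - 1) / 2) := by
    have h8 := sum_ov_card (g := g) hn
    rw [← Nat.cast_choose_two]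
    exact_mod_cast h8
  rw [Finset.sum_sub_distrib, Finset.sum_const, nsmul_eq_mul, hov]
  have hB : Bn n = 5 / 2 * A - (n : ℝ) * (n - 1) / 2 := by
    unfold Bn
    rw [hA]
    split_ifs <;> ring
  rw [hB]
  linarith

end MP86a502
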