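import Pool.Agent.Lib.MP_86a502_gt.Vpt

set_option autoImplicit false
set_option linter.unusedSectionVars false

/-! # JOB Vpb. `generic`, `local_max` (130-200 lines). The proofs are in the header of `Vpt.lean` (you may use its theorems). -/

namespace MP86a502

variable {n N : ℕ} {e : Fin N → Fin (n + 1) → ℝ}

/-- The linear functional `w ↦ ∑ w k * v k`. -/
noncomputable def vpb_L (v : Fin (n + 1) → ℝ) : (Fin (n + 1) → ℝ) →ₗ[ℝ] ℝ where
  toFun := fun w => ∑ k, w k * v k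
  map_add' := by
    intro a b
    simp only [Pi.add_apply, add_mul, Finset.sum_add_distrib]
  map_smul' := by
    intro c a
    simp only [Pi.smul_apply, smul_eq_mul, Finset.mul_sum, RingHom.id_apply, mul_assoc]

theorem vpb_L_apply (v w : Fin (n + 1) → ℝ) : vpb_L v w = ∑ k, w k * v k := rfl

theorem vpb_L_eq_zero {v : Fin (n + 1) → ℝ} (h : vpb_L v = 0) : v = 0 := by
  have h1 : vpb_L v v = 0 := by rw [h]; rfl
  rw [vpb_L_apply] at h1
  have h2 := (Finset.sum_eq_zero_iff_of_nonneg (fun k _ => mul_self_nonneg (v k))).1 h1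
  funext k
  have := h2 k (Finset.mem_univ k)
  simpa using this

theorem generic (h : CCP n N e) : ∃ w : Fin (n + 1) → ℝ,
    ∀ S ∈ verts n (gram e), ∀ S' ∈ verts n (gram e),
      ∑ k, w k * vpt e S k = ∑ k, w k * vpt e S' k → S = S' := by
  classical
  let P : Finset (Finset (Fin N) × Finset (Fin N)) :=
    ((verts n (gram e)) ×ˢ (verts n (gram e))).filter (fun p => p.1 ≠ p.2)
  let s : Finset (Subspace ℝ (Fin (n + 1) → ℝ)) :=
    P.image (fun p => LinearMap.ker (vpb_L (vpt e p.1 - vpt e p.2)))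
  have hs : (⊤ : Subspace ℝ (Fin (n + 1) → ℝ)) ∉ s := by
    intro ht
    obtain ⟨p, hp, hpe⟩ := Finset.mem_image.1 ht
    obtain ⟨hp1, hp2⟩ := Finset.mem_filter.1 hp
    obtain ⟨hp3, hp4⟩ := Finset.mem_product.1 hp1
    have hker : vpb_L (vpt e p.1 - vpt e p.2) = 0 := LinearMap.ker_eq_top.1 hpe
    have h0 := vpb_L_eq_zero hker
    exact hp2 (vpt_inj h hp3 hp4 (sub_eq_zero.1 h0))
  have hne := Subspace.biUnion_ne_univ_of_top_notMem hs
  obtain ⟨w, hw⟩ := (Set.ne_univ_iff_exists_notMem _).1 hne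
  refine ⟨w, fun S hS S' hS' heq => ?_⟩
  by_contra hSS
  apply hw
  refine Set.mem_biUnion (x := LinearMap.ker (vpb_L (vpt e S - vpt e S'))) ?_ ?_
  · exact Finset.mem_image.2 ⟨(S, S'), Finset.mem_filter.2
      ⟨Finset.mem_product.2 ⟨hS, hS'⟩, hSS⟩, rfl⟩
  · show w ∈ LinearMap.ker (vpb_L (vpt e S - vpt e S'))
    rw [LinearMap.mem_ker, vpb_L_apply]
    simp only [Pi.sub_apply, mul_sub, Finset.sum_sub_distrib]
    linarith

/-- The neighbour of `S` at `i`. -/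
theorem vpb_nbr
    (hedge : ∀ T : Finset (Fin N), PD (gram e) T → T.card + 1 = n →
      ∃ u v : Fin N, u ≠ v ∧ ∀ w : Fin N, (w ∉ T ∧ PD (gram e) (insert w T)) ↔ (w = u ∨ w = v))
    {S : Finset (Fin N)} (hS : S ∈ verts n (gram e)) {i : Fin N} (hi : i ∈ S) :
    ∃ i', i' ∉ S ∧ insert i' (S.erase i) ∈ verts n (gram e) := by
  obtain ⟨hc, hpd⟩ := mem_verts.1 hS
  have hcard : (S.erase i).card + 1 = n := by
    rw [Finset.card_erase_add_one hi]; exact hc
  have hpd' : PD (gram e) (S.erase i) := pd_subset hpd (Finset.erase_subset _ _)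
  obtain ⟨u, v, huv, hw⟩ := hedge _ hpd' hcard
  have hii : i = u ∨ i = v := (hw i).1 ⟨Finset.notMem_erase i S, by
    rw [Finset.insert_erase hi]; exact hpd⟩
  have key : ∀ i', i' ≠ i → (i' = u ∨ i' = v) →
      i' ∉ S ∧ insert i' (S.erase i) ∈ verts n (gram e) := by
    intro i' hne hiu
    obtain ⟨h1, h2⟩ := (hw i').2 hiu
    refine ⟨fun hmem => h1 (Finset.mem_erase.2 ⟨hne, hmem⟩), mem_verts.2 ⟨?_, h2⟩⟩
    rw [Finset.card_insert_of_notMem h1]
    exact hcard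
  rcases hii with hii | hii
  · refine ⟨v, key v ?_ (Or.inr rfl)⟩
    rw [hii]; exact huv.symm
  · refine ⟨u, key u ?_ (Or.inl rfl)⟩
    rw [hii]; exact huv

theorem vpb_ov {S T : Finset (Fin N)} {i i' : Fin N} (hST : T ⊆ S) (hSn : S.card = n)
    (hi : i ∈ S) (hiT : i ∉ T) (hi' : i' ∉ S) (hv : insert i' (S.erase i) ∈ verts n (gram e)) :
    insert i' (S.erase i) ∈ ov n (gram e) T ∧ (S ∩ insert i' (S.erase i)).card + 1 = n := by
  constructor
  · refine mem_ov.2 ⟨mem_verts.1 hv, ?_⟩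
    intro x hx
    refine Finset.mem_insert_of_mem (Finset.mem_erase.2 ⟨?_, hST hx⟩)
    rintro rfl
    exact hiT hx
  · have h1 : S ∩ insert i' (S.erase i) = S.erase i := by
      ext x
      simp only [Finset.mem_inter, Finset.mem_insert, Finset.mem_erase]
      constructor
      · rintro ⟨hx, rfl | hx2⟩
        · exact absurd hx hi'
        · exact hx2
      · intro hx
        exact ⟨hx.2, Or.inr hx⟩
    rw [h1, Finset.card_erase_add_one hi]
    exact hSn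

theorem local_max (h : CCP n N e)
    (hedge : ∀ T : Finset (Fin N), PD (gram e) T → T.card + 1 = n →
      ∃ u v : Fin N, u ≠ v ∧ ∀ w : Fin N, (w ∉ T ∧ PD (gram e) (insert w T)) ↔ (w = u ∨ w = v))
    (w : Fin (n + 1) → ℝ) {T : Finset (Fin N)} (hT : T ∈ faces2 n (gram e))
    {S : Finset (Fin N)} (hS : S ∈ ov n (gram e) T)
    (hloc : ∀ S' ∈ ov n (gram e) T, (S ∩ S').card + 1 = n →
      ∑ k, w k * vpt e S' k < ∑ k, w k * vpt e S k) :
    ∀ S' ∈ ov n (gram e) T, S' ≠ S → ∑ k, w k * vpt e S' k < ∑ k, w k * vpt e S k := by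
  intro S' hS' hne
  obtain ⟨hTc, _⟩ := mem_faces2.1 hT
  obtain ⟨⟨hSc, hSpd⟩, hTS⟩ := mem_ov.1 hS
  obtain ⟨⟨hSc', hSpd'⟩, hTS'⟩ := mem_ov.1 hS'
  have hSv : S ∈ verts n (gram e) := mem_verts.2 ⟨hSc, hSpd⟩
  have hSv' : S' ∈ verts n (gram e) := mem_verts.2 ⟨hSc', hSpd'⟩
  have hcard : (S \ T).card = 2 := by
    rw [Finset.card_sdiff_of_subset hTS]
    omega
  obtain ⟨i, j, hij, hST⟩ := Finset.card_eq_two.1 hcard
  have hi : i ∈ S ∧ i ∉ T := by
    have : i ∈ S \ T := by rw [hST]; simp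
    exact Finset.mem_sdiff.1 this
  have hj : j ∈ S ∧ j ∉ T := by
    have : j ∈ S \ T := by rw [hST]; simp
    exact Finset.mem_sdiff.1 this
  have hcase : ∀ k ∈ S, k = i ∨ k = j ∨ k ∈ T := by
    intro k hk
    by_cases hkT : k ∈ T
    · exact Or.inr (Or.inr hkT)
    · have : k ∈ S \ T := Finset.mem_sdiff.2 ⟨hk, hkT⟩
      rw [hST] at this
      simp only [Finset.mem_insert, Finset.mem_singleton] at this
      rcases this with h1 | h1
      · exact Or.inl h1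
      · exact Or.inr (Or.inl h1)
  obtain ⟨i', hi', hv1⟩ := vpb_nbr hedge hSv hi.1
  obtain ⟨j', hj', hv2⟩ := vpb_nbr hedge hSv hj.1
  obtain ⟨ho1, hc1⟩ := vpb_ov hTS hSc hi.1 hi.2 hi' hv1
  obtain ⟨ho2, hc2⟩ := vpb_ov hTS hSc hj.1 hj.2 hj' hv2
  have hl1 := hloc _ ho1 hc1
  have hl2 := hloc _ ho2 hc2
  set S₁ := insert i' (S.erase i) with hS₁
  set S₂ := insert j' (S.erase j) with hS₂
  have hiS₁ : i ∉ S₁ := by
    rw [hS₁, Finset.mem_insert]
    rintro (h1 | h1)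
    · exact hi' (h1 ▸ hi.1)
    · exact Finset.notMem_erase i S h1
  have hjS₂ : j ∉ S₂ := by
    rw [hS₂, Finset.mem_insert]
    rintro (h1 | h1)
    · exact hj' (h1 ▸ hj.1)
    · exact Finset.notMem_erase j S h1
  have hjS₁ : j ∈ S₁ := by
    rw [hS₁]
    exact Finset.mem_insert_of_mem (Finset.mem_erase.2 ⟨hij.symm, hj.1⟩)
  have hiS₂ : i ∈ S₂ := by
    rw [hS₂]
    exact Finset.mem_insert_of_mem (Finset.mem_erase.2 ⟨hij, hi.1⟩)
  have hTS₁ : T ⊆ S₁ := (mem_ov.1 ho1).2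
  have hTS₂ : T ⊆ S₂ := (mem_ov.1 ho2).2
  obtain ⟨a0, _, aeq, alt⟩ := vpt_spec h hv1
  obtain ⟨b0, _, beq, blt⟩ := vpt_spec h hv2
  obtain ⟨x0, _, xeq, xlt⟩ := vpt_spec h hSv'
  have a1 := alt i hiS₁
  have b1 := blt j hjS₂
  have hxle : ∀ k, lor (vpt e S') (e k) ≤ 0 := by
    intro k
    by_cases hk : k ∈ S'
    · exact (xeq k hk).le
    · exact (xlt k hk).le
  have hβ0 : 0 ≤ lor (vpt e S') (e i) / lor (vpt e S₁) (e i) :=
    div_nonneg_of_nonpos (hxle i) a1.le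
  have hγ0 : 0 ≤ lor (vpt e S') (e j) / lor (vpt e S₂) (e j) :=
    div_nonneg_of_nonpos (hxle j) b1.le
  obtain ⟨β, hβ⟩ : ∃ β, β = lor (vpt e S') (e i) / lor (vpt e S₁) (e i) := ⟨_, rfl⟩
  obtain ⟨γ, hγ⟩ : ∃ γ, γ = lor (vpt e S') (e j) / lor (vpt e S₂) (e j) := ⟨_, rfl⟩
  rw [← hβ] at hβ0
  rw [← hγ] at hγ0
  have hβ' : β * lor (vpt e S₁) (e i) = lor (vpt e S') (e i) := by
    rw [hβ]; exact div_mul_cancel₀ _ a1.ne
  have hγ' : γ * lor (vpt e S₂) (e j) = lor (vpt e S') (e j) := by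
    rw [hγ]; exact div_mul_cancel₀ _ b1.ne
  have hy : ∀ k ∈ S, lor (vpt e S' - β • vpt e S₁ - γ • vpt e S₂) (e k) = 0 := by
    intro k hk
    rw [lor_sub_left, lor_sub_left, lor_smul_left, lor_smul_left]
    rcases hcase k hk with rfl | rfl | hkT
    · rw [beq k hiS₂, hβ']; ring
    · rw [aeq k hjS₁, hγ']; ring
    · rw [xeq k (hTS' hkT), aeq k (hTS₁ hkT), beq k (hTS₂ hkT)]; ring
  have hyv := vpt_unique h hSv hy
  have hy0 : (vpt e S' - β • vpt e S₁ - γ • vpt e S₂) 0 = 1 - β - γ := by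
    simp only [Pi.sub_apply, Pi.smul_apply, smul_eq_mul, a0, b0, x0, mul_one]
  rw [hy0] at hyv
  have hx : ∀ k, vpt e S' k = (1 - β - γ) * vpt e S k + β * vpt e S₁ k + γ * vpt e S₂ k := by
    intro k
    have := congrFun hyv k
    simp only [Pi.sub_apply, Pi.smul_apply, smul_eq_mul] at this
    linarith
  have hsum : ∑ k, w k * vpt e S' k = (1 - β - γ) * ∑ k, w k * vpt e S k +
      β * ∑ k, w k * vpt e S₁ k + γ * ∑ k, w k * vpt e S₂ k := by
    rw [Finset.mul_sum, Finset.mul_sum, Finset.mul_sum, ← Finset.sum_add_distrib,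
      ← Finset.sum_add_distrib]
    refine Finset.sum_congr rfl fun k _ => ?_
    rw [hx k]; ring
  rcases hβ0.eq_or_lt with hb | hb
  · rcases hγ0.eq_or_lt with hg | hg
    · exfalso
      apply hne
      refine vpt_inj h hSv' hSv ?_
      funext k
      rw [hx k, ← hb, ← hg]; ring
    · rw [hsum, ← hb]
      nlinarith
  · rw [hsum]
    have h1 := mul_pos hb (sub_pos.2 hl1)
    have h2 := mul_nonneg hγ0 (sub_pos.2 hl2).le
    nlinarith

end MP86a502
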