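import Pool.Agent.Lib.MP_86a502_gt.Wal

set_option autoImplicit false
set_option linter.unusedSectionVars false

/-! # JOB Wab. `cox_ext`, `cox_edge` (130-200 lines). The proofs are in the header of `Wal.lean` (you may use its theorems). -/

namespace MP86a502

variable {n N : ℕ} {e : Fin N → Fin (n + 1) → ℝ}

theorem cox_ext (h : CCP n N e) (hn : 1 ≤ n) (S : Finset (Fin N)) (hS : PD (gram e) S) :
    ∃ S' : Finset (Fin N), S ⊆ S' ∧ PD (gram e) S' ∧ S'.card = n := by
  have key : ∀ k : ℕ, ∀ S : Finset (Fin N), PD (gram e) S → n - S.card = k →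
      ∃ S' : Finset (Fin N), S ⊆ S' ∧ PD (gram e) S' ∧ S'.card = n := by
    intro k
    induction k with
    | zero =>
      intro S hS hk
      have := cox_card_le h S hS
      exact ⟨S, Finset.Subset.refl S, hS, by omega⟩
    | succ k ih =>
      intro S hS hk
      obtain ⟨x, hx, hx0, hxS, hxS'⟩ := face_point h hS
      obtain ⟨y, hy, hxy, hyS⟩ := orth_exists e (T := S) (by omega) x
      obtain ⟨t, ht, u, hu, -, hu0, -, hlast⟩ := wall h hn hx hx0 hxS hxS' hy hxy hyS
      have hP := hlast u hu0
      rw [Finset.insert_idem] at hP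
      have hcard : (insert u S).card = S.card + 1 := Finset.card_insert_of_notMem hu
      obtain ⟨S', h1, h2, h3⟩ := ih (insert u S) hP (by omega)
      exact ⟨S', (Finset.subset_insert u S).trans h1, h2, h3⟩
  exact key _ S hS rfl

/-- in the plane spanned by `x`, `y` -/
private theorem wab_side (h : CCP n N e) {T : Finset (Fin N)} (hc : T.card + 1 = n)
    {x y z : Fin (n + 1) → ℝ} {α β t : ℝ} (hz : z = α • x + β • y) (hα : 0 < α) (hβ : 0 < β)
    {w u : Fin N} (hw : w ∉ T) (hu : u ∉ T) (hxw : lor x (e w) < 0) (hzw : lor z (e w) = 0)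
    (hzi : ∀ i, lor z (e i) ≤ 0) (hyu : 0 < lor y (e u)) (hu0 : lor (x + t • y) (e u) = 0)
    (hall : ∀ i, lor (x + t • y) (e i) ≤ 0)
    (hlast : ∀ v, lor (x + t • y) (e v) = 0 → PD (gram e) (insert v (insert u T))) : w = u := by
  have hlz : ∀ i, lor z (e i) = α * lor x (e i) + β * lor y (e i) := by
    intro i
    rw [hz, lor_add_left, lor_smul_left, lor_smul_left]
  have hlt : ∀ i, lor (x + t • y) (e i) = lor x (e i) + t * lor y (e i) := by
    intro i
    rw [lor_add_left, lor_smul_left]
  rw [hlz] at hzw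
  have hyw : 0 < lor y (e w) := by
    by_contra hcon
    push Not at hcon
    nlinarith
  have h1 := hall w
  rw [hlt] at h1
  have h2 := hzi u
  rw [hlz] at h2
  have h3 := hu0
  rw [hlt] at h3
  have h4 : β ≤ α * t := by
    have : (β - α * t) * lor y (e u) ≤ 0 := by nlinarith
    by_contra hcon
    push Not at hcon
    nlinarith [mul_pos (sub_pos.2 hcon) hyu]
  have h5 : α * t ≤ β := by
    have : (α * t - β) * lor y (e w) ≤ 0 := by nlinarith
    by_contra hcon
    push Not at hcon
    nlinarith [mul_pos (sub_pos.2 hcon) hyw]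
  have h6 : β = α * t := le_antisymm h4 h5
  have h7 : lor (x + t • y) (e w) = 0 := by
    rw [hlt]
    have : α * (lor x (e w) + t * lor y (e w)) = 0 := by
      rw [h6] at hzw
      linarith
    rcases mul_eq_zero.1 this with h | h
    · exact absurd h hα.ne'
    · exact h
  have h8 := hlast w h7
  by_contra hne
  have h9 := cox_card_le h _ h8
  rw [Finset.card_insert_of_notMem, Finset.card_insert_of_notMem hu] at h9
  · omega
  · rw [Finset.mem_insert]
    push Not
    exact ⟨hne, hw⟩

/-- the space orthogonal to `T` has dimension two -/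
private theorem wab_plane {T : Finset (Fin N)} (hT : PD (gram e) T)
    (hc : T.card + 1 = n) {x y z : Fin (n + 1) → ℝ} (hx : lor x x < 0)
    (hxT : ∀ i ∈ T, lor x (e i) = 0) (hy : y ≠ 0) (hxy : lor x y = 0)
    (hyT : ∀ i ∈ T, lor y (e i) = 0) (hxz : lor x z = 0) (hyz : lor y z = 0)
    (hzT : ∀ i ∈ T, lor z (e i) = 0) : z = 0 := by
  by_contra hz
  have hyy : 0 < lor y y := lor_pos hx hxy hy
  have hzz : 0 < lor z z := lor_pos hx hxz hz
  have hli : LinearIndependent ℝ (Sum.elim ![x, y, z] (fun i : T => e i) :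
      Fin 3 ⊕ T → (Fin (n + 1) → ℝ)) := by
    rw [Fintype.linearIndependent_iff]
    intro c hsum
    rw [Fintype.sum_sum_type, Fin.sum_univ_three] at hsum
    simp only [Sum.elim_inl, Sum.elim_inr] at hsum
    have hpair : ∀ v : Fin (n + 1) → ℝ, (∀ i ∈ T, lor v (e i) = 0) →
        c (Sum.inl 0) * lor v x + c (Sum.inl 1) * lor v y + c (Sum.inl 2) * lor v z = 0 := by
      intro v hv
      have h1 := congrArg (fun r => lor v r) hsum
      simp only [lor_add_right, lor_smul_right, lor_zero_right, lor_sum_right] at h1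
      have h2 : ∑ i : T, c (Sum.inr i) * lor v (e i) = 0 :=
        Finset.sum_eq_zero fun i _ => by rw [hv i i.2, mul_zero]
      rw [h2] at h1
      simpa using h1
    have e0 := hpair x hxT
    have e1 := hpair y hyT
    have e2 := hpair z hzT
    rw [hxy, hxz] at e0
    rw [lor_comm y x, hxy, hyz] at e1
    rw [lor_comm z x, hxz, lor_comm z y, hyz] at e2
    have c0 : c (Sum.inl 0) = 0 := by
      rcases mul_eq_zero.1 (show c (Sum.inl 0) * lor x x = 0 by linarith) with h | h
      · exact h
      · exact absurd h hx.ne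
    have c1 : c (Sum.inl 1) = 0 := by
      rcases mul_eq_zero.1 (show c (Sum.inl 1) * lor y y = 0 by linarith) with h | h
      · exact h
      · exact absurd h hyy.ne'
    have c2 : c (Sum.inl 2) = 0 := by
      rcases mul_eq_zero.1 (show c (Sum.inl 2) * lor z z = 0 by linarith) with h | h
      · exact h
      · exact absurd h hzz.ne'
    rw [c0, c1, c2] at hsum
    simp only [zero_smul, zero_add] at hsum
    classical
    set d : Fin N → ℝ := fun j => if hj : j ∈ T then c (Sum.inr ⟨j, hj⟩) else 0 with hd
    have hd1 : ∀ i : T, d i = c (Sum.inr i) := by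
      intro i
      rw [hd]
      simp
    have hd2 : ∑ i ∈ T, d i • e i = 0 := by
      rw [← Finset.sum_coe_sort]
      rw [← hsum]
      exact Finset.sum_congr rfl fun i _ => by rw [hd1]
    have hd3 : ∑ i ∈ T, ∑ j ∈ T, d i * d j * gram e i j = 0 := by
      have h1 := lor_sum_sum T d d e
      rw [hd2, lor_zero_left] at h1
      exact h1.symm
    have hd4 : ∀ i : T, c (Sum.inr i) = 0 := by
      intro i
      by_contra hci
      have := hT d ⟨i, i.2, by rw [hd1]; exact hci⟩
      linarith
    rintro (i | i)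
    · fin_cases i
      · exact c0
      · exact c1
      · exact c2
    · exact hd4 i
  have h1 := hli.fintype_card_le_finrank
  rw [Fintype.card_sum, Fintype.card_fin, Fintype.card_coe, Module.finrank_fin_fun] at h1
  omega

theorem cox_edge (h : CCP n N e) (hn : 1 ≤ n) (T : Finset (Fin N)) (hT : PD (gram e) T)
    (hc : T.card + 1 = n) :
    ∃ u v : Fin N, u ≠ v ∧ ∀ w : Fin N, (w ∉ T ∧ PD (gram e) (insert w T)) ↔ (w = u ∨ w = v) := by
  obtain ⟨x, hx, hx0, hxT, hxT'⟩ := face_point h hT
  obtain ⟨y, hy, hxy, hyT⟩ := orth_exists e (T := T) (by omega) x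
  have hyy : 0 < lor y y := lor_pos hx hxy hy
  obtain ⟨t, ht, u, hu, hyu, hu0, hall, hlast⟩ := wall h hn hx hx0 hxT hxT' hy hxy hyT
  obtain ⟨t', ht', u', hu', hyu', hu0', hall', hlast'⟩ := wall h hn hx hx0 hxT hxT'
    (neg_ne_zero.2 hy) (show lor x (-y) = 0 by rw [lor_neg_right, hxy, neg_zero])
    (fun i hi => by rw [lor_neg_left, hyT i hi, neg_zero])
  refine ⟨u, u', ?_, fun w => ⟨?_, ?_⟩⟩
  · intro huu
    rw [← huu, lor_neg_left] at hyu'
    linarith
  · rintro ⟨hw, hP⟩
    obtain ⟨z, hz, hz0, hzT, hzT'⟩ := face_point h hP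
    have hzi : ∀ i, lor z (e i) ≤ 0 := by
      intro i
      by_cases hi : i ∈ insert w T
      · exact (hzT i hi).le
      · exact (hzT' i hi).le
    have hzw : lor z (e w) = 0 := hzT w (Finset.mem_insert_self w T)
    set α := lor z x / lor x x with hα
    set β := lor z y / lor y y with hβ
    have hzab : z = α • x + β • y := by
      have h1 : z - (α • x + β • y) = 0 := by
        refine wab_plane hT hc hx hxT hy hxy hyT ?_ ?_ ?_
        · rw [lor_sub_right, lor_add_right, lor_smul_right, lor_smul_right, hxy, lor_comm x z, hα,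
            div_mul_cancel₀ _ hx.ne]
          ring
        · rw [lor_sub_right, lor_add_right, lor_smul_right, lor_smul_right, lor_comm y x, hxy,
            lor_comm y z, hβ, div_mul_cancel₀ _ hyy.ne']
          ring
        · intro i hi
          rw [lor_sub_left, lor_add_left, lor_smul_left, lor_smul_left, hxT i hi, hyT i hi,
            hzT i (Finset.mem_insert_of_mem hi)]
          ring
      exact sub_eq_zero.1 h1
    have hα0 : 0 < α := by
      have h1 := lor_neg hx hx0 hz.le hz0
      rw [lor_comm] at h1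
      rw [hα]
      exact div_pos_of_neg_of_neg h1 hx
    have hxw := hxT' w hw
    rcases lt_trichotomy β 0 with hb | hb | hb
    · right
      exact wab_side h hc (x := x) (y := -y) (β := -β) (t := t') (by rw [hzab]; simp) hα0
        (by linarith) hw hu' hxw hzw hzi hyu' hu0' hall' hlast'
    · exfalso
      rw [hzab, hb, zero_smul, add_zero, lor_smul_left] at hzw
      rcases mul_eq_zero.1 hzw with h1 | h1
      · exact hα0.ne' h1
      · exact hxw.ne h1
    · left
      exact wab_side h hc hzab hα0 hb hw hu hxw hzw hzi hyu hu0 hall hlast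
  · rintro (rfl | rfl)
    · refine ⟨hu, ?_⟩
      have hP := hlast w hu0
      rwa [Finset.insert_idem] at hP
    · refine ⟨hu', ?_⟩
      have hP := hlast' w hu0'
      rwa [Finset.insert_idem] at hP

end MP86a502
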