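import Pool.Agent.Lib.MP_86a502_gt.Joi
import Pool.Agent.Lib.MP_86a502_gt.Wab
import Pool.Agent.Lib.MP_86a502_gt.Vpb
import Pool.Agent.Lib.MP_86a502_gt.Mob

set_option autoImplicit false
set_option linter.unusedSectionVars false

/-! # The Gram matrix of a compact Coxeter polytope satisfies `Cox` (assembly, done by helper71) -/

namespace MP86a502

variable {n N : ℕ} {e : Fin N → Fin (n + 1) → ℝ}

theorem diag_of_ccp (h : CCP n N e) : Diag (gram e) where
  symm := gram_comm
  diag := h.unit
  ang := h.ang

theorem lm_of_ccp (h : CCP n N e) (hn : 1 ≤ n) (w : Fin (n + 1) → ℝ) :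
    LM n (gram e) (fun S => ∑ k, w k * vpt e S k) := by
  intro T hT S hS hloc S' hS' hne
  exact local_max h (fun T hT hc => cox_edge h hn T hT hc) w hT hS hloc S' hS' hne

theorem cox_of_ccp (h : CCP n N e) (hn : 2 ≤ n) : Cox n (gram e) := by
  have hn1 : 1 ≤ n := by omega
  obtain ⟨w, hw⟩ := generic h
  have hinj : ∀ S ∈ verts n (gram e), ∀ S' ∈ verts n (gram e),
      (fun S => ∑ k, w k * vpt e S k) S = (fun S => ∑ k, w k * vpt e S k) S' → S = S' :=
    fun S hS S' hS' he => hw S hS S' hS' he
  have hlm := lm_of_ccp h hn1 w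
  have hlm' : LM n (gram e) (fun S => -(∑ k, w k * vpt e S k)) := by
    have := lm_of_ccp h hn1 (-w)
    have e1 : (fun S => ∑ k, (-w) k * vpt e S k) = (fun S => -(∑ k, w k * vpt e S k)) := by
      funext S
      rw [← Finset.sum_neg_distrib]
      refine Finset.sum_congr rfl fun k _ => ?_
      simp only [Pi.neg_apply]
      ring
    rw [e1] at this
    exact this
  have hne : (verts n (gram e)).Nonempty := by
    obtain ⟨S', _, hp, hc⟩ := cox_ext h hn1 ∅ pd_empty
    exact ⟨S', mem_verts.2 ⟨hc, hp⟩⟩
  exact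
    { toDiag := diag_of_ccp h
      card_le := cox_card_le h
      ext := cox_ext h hn1
      edge := cox_edge h hn1
      conn := fun T hT C hC hCn hcl => lm_conn hlm hinj T hT C hC hCn hcl
      count := lm_count hn (cox_edge h hn1) hne hlm hlm' hinj
      joined := cox_joined h hn1
      cpt := cox_cpt h hn1 }

end MP86a502
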