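import Pool.Agent.Lib.MP_86a502_gt.Str

set_option autoImplicit false
set_option linter.unusedSectionVars false

/-! # JOB Cas. The two kinds of `Star` (120-200 lines)

Let `A = {a ∈ T | ¬ PD {a, i, i'}}`, `B = {b ∈ T | ¬ PD {b, j, j'}}`: nonempty, every `a ∈ A`, `b ∈ B` are different and
adjacent (`star_struct`). For `a ∈ A` at least two of `a ~ i`, `a ~ i'`, `i ~ i'` hold (`s_conn3`; the pairs are `PD` as subsets of
vertices resp. by `star_struct`). `|A| = 1` or `|B| = 1` (otherwise `s_cyc4` with `a₁, b₁, a₂, b₂` contradicts `PD g T`). By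
`Star.swap` assume `A = {a}`.
If some `b ∈ B` is adjacent to `j` and some `b' ∈ B` is adjacent to `j'`: `Case1 n g T i i' j j' a`.
Otherwise (by `Star.flip'` if necessary) no `b ∈ B` is adjacent to `j'`; then every `b ∈ B` is adjacent to `j`, and `j ~ j'`. Then
`|B| = 1`: two elements `b₁, b₂` would form with `a` and `j` a 4-cycle `a, b₁, j, b₂` inside the positive definite
`insert i (insert j T)` (`s_cyc4`; `a ≠ j` as `a ∈ T`). So `B = {b}`.
If `a ~ i` and `a ~ i'`: `Case1 n g T j j' i i' b` (with `Star.swap`). Otherwise by `Star.flip` assume `a` is not adjacent to `i'`;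
then `a ~ i`, `i ~ i'`: `Case2 n g T i i' j j' a b`. -/

namespace MP86a502

variable {ι : Type} [Fintype ι] [DecidableEq ι] {n : ℕ} {g : ι → ι → ℝ} {T : Finset ι}
  {i i' j j' : ι}

private theorem Cas_conn (h : Cox n g) (hs : Small3 g) (q : Star n g T i i' j j') {a : ι}
    (ha : a ∈ T) (hn : ¬ PD g {a, i, i'}) :
    (g a i ≠ 0 ∧ g a i' ≠ 0) ∨ (g a i ≠ 0 ∧ g i i' ≠ 0) ∨ (g a i' ≠ 0 ∧ g i i' ≠ 0) := by
  have hst := star_struct h hs q
  have hai : a ≠ i := by
    rintro rfl
    exact q.hi ha
  have hai' : a ≠ i' := by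
    rintro rfl
    exact q.hi' ha
  have h1 : PD g {a, i} := by
    apply pd_subset q.v1
    intro x hx
    rw [Finset.mem_insert, Finset.mem_singleton] at hx
    rw [Finset.mem_insert, Finset.mem_insert]
    rcases hx with rfl | rfl
    · exact Or.inr (Or.inr ha)
    · exact Or.inl rfl
  have h2 : PD g {a, i'} := by
    apply pd_subset q.v3
    intro x hx
    rw [Finset.mem_insert, Finset.mem_singleton] at hx
    rw [Finset.mem_insert, Finset.mem_insert]
    rcases hx with rfl | rfl
    · exact Or.inr (Or.inr ha)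
    · exact Or.inl rfl
  exact s_conn3 h.toDiag hai hai' q.ii' h1 h2 hst.1 hn

/-- one of the two sets has exactly one element -/
private theorem Cas_one (h : Cox n g) (hs : Small3 g) (q : Star n g T i i' j j') :
    (∀ t ∈ T, ∀ t' ∈ T, ¬ PD g {t, i, i'} → ¬ PD g {t', i, i'} → t = t') ∨
    (∀ t ∈ T, ∀ t' ∈ T, ¬ PD g {t, j, j'} → ¬ PD g {t', j, j'} → t = t') := by
  by_contra hcon
  push Not at hcon
  obtain ⟨⟨a1, ha1, a2, ha2, na1, na2, hane⟩, ⟨b1, hb1, b2, hb2, nb1, nb2, hbne⟩⟩ := hcon
  obtain ⟨_, _, _, _, hst⟩ := star_struct h hs q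
  have h11 := hst a1 ha1 b1 hb1 na1 nb1
  have h12 := hst a1 ha1 b2 hb2 na1 nb2
  have h21 := hst a2 ha2 b1 hb1 na2 nb1
  have h22 := hst a2 ha2 b2 hb2 na2 nb2
  apply s_cyc4 h.toDiag (p := a1) (q := b1) (r := a2) (s := b2) h11
    ⟨h21.1.symm, by rw [h.symm]; exact h21.2⟩ h22 ⟨h12.1.symm, by rw [h.symm]; exact h12.2⟩
    hane hbne
  apply pd_subset q.pd
  intro x hx
  simp only [Finset.mem_insert, Finset.mem_singleton] at hx
  rcases hx with rfl | rfl | rfl | rfl <;> assumption

private theorem Cas_two (h : Cox n g) (hs : Small3 g) (q : Star n g T i i' j j') {a : ι}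
    (ha : a ∈ T) (na : ¬ PD g {a, i, i'}) (uA : ∀ t ∈ T, ¬ PD g {t, i, i'} → t = a)
    (hno : ∀ b ∈ T, ¬ PD g {b, j, j'} → g b j' = 0) :
    (∃ i i' j j' a, Case1 n g T i i' j j' a) ∨ (∃ i i' j j' a b, Case2 n g T i i' j j' a b) := by
  obtain ⟨pr, pc, _, ⟨b, hb, nb⟩, hst⟩ := star_struct h hs q
  have hB : ∀ b ∈ T, ¬ PD g {b, j, j'} → g b j ≠ 0 ∧ g j j' ≠ 0 := by
    intro b hb nb
    have h0 := hno b hb nb
    rcases Cas_conn h hs (q.swap h.toDiag) hb nb with h1 | h1 | h1
    · exact absurd h0 h1.2
    · exact h1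
    · exact absurd h0 h1.1
  have hTj : ∀ t ∈ T, t ≠ j := by
    rintro t ht rfl
    exact q.hj ht
  have uB : ∀ t ∈ T, ¬ PD g {t, j, j'} → t = b := by
    intro t ht nt
    by_contra hne
    have h1 := hst a ha t ht na nt
    have h2 := hst a ha b hb na nb
    apply s_cyc4 h.toDiag (p := a) (q := t) (r := j) (s := b) h1
      ⟨hTj t ht, (hB t ht nt).1⟩ ⟨(hTj b hb).symm, by rw [h.symm]; exact (hB b hb nb).1⟩
      ⟨h2.1.symm, by rw [h.symm]; exact h2.2⟩ (hTj a ha) hne
    apply pd_subset q.v1
    intro x hx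
    simp only [Finset.mem_insert, Finset.mem_singleton] at hx
    rw [Finset.mem_insert, Finset.mem_insert]
    rcases hx with rfl | rfl | rfl | rfl
    · exact Or.inr (Or.inr ha)
    · exact Or.inr (Or.inr ht)
    · exact Or.inr (Or.inl rfl)
    · exact Or.inr (Or.inr hb)
  have hab := hst a ha b hb na nb
  have hai : a ≠ i := by
    rintro rfl
    exact q.hi ha
  have hai' : a ≠ i' := by
    rintro rfl
    exact q.hi' ha
  by_cases h1 : g a i = 0
  · -- `a` is adjacent to `i'`
    right
    have h2 : g a i' ≠ 0 ∧ g i i' ≠ 0 := by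
      rcases Cas_conn h hs q ha na with h3 | h3 | h3
      · exact absurd h1 h3.1
      · exact absurd h1 h3.1
      · exact h3
    refine ⟨i', i, j, j', a, b, ?_⟩
    exact
      { toStar := q.flip
        ha := ha
        hb := hb
        hab := hab.1
        nA := by rw [Finset.pair_comm]; exact na
        nB := nb
        uA := by
          intro t ht hn
          apply uA t ht
          rw [Finset.pair_comm] at hn
          exact hn
        uB := uB
        pr := by rw [Finset.pair_comm]; exact pr
        pc := pc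
        ai := h2.1
        ai' := h1
        rr := by rw [h.symm]; exact h2.2
        bj := (hB b hb nb).1
        bj' := hno b hb nb
        cc := (hB b hb nb).2
        ab := hab.2 }
  · by_cases h2 : g a i' = 0
    · right
      have h3 : g a i ≠ 0 ∧ g i i' ≠ 0 := by
        rcases Cas_conn h hs q ha na with h3 | h3 | h3
        · exact absurd h2 h3.2
        · exact h3
        · exact absurd h2 h3.1
      refine ⟨i, i', j, j', a, b, ?_⟩
      exact
        { toStar := q
          ha := ha
          hb := hb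
          hab := hab.1
          nA := na
          nB := nb
          uA := uA
          uB := uB
          pr := pr
          pc := pc
          ai := h3.1
          ai' := h2
          rr := h3.2
          bj := (hB b hb nb).1
          bj' := hno b hb nb
          cc := (hB b hb nb).2
          ab := hab.2 }
    · left
      refine ⟨j, j', i, i', b, ?_⟩
      exact
        { toStar := q.swap h.toDiag
          ha := hb
          nA := nb
          uA := uB
          pr := pc
          pc := pr
          bj := ⟨a, ha, na, hai, h1⟩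
          bj' := ⟨a, ha, na, hai', h2⟩ }

private theorem Cas_uniq (h : Cox n g) (hs : Small3 g) (q : Star n g T i i' j j')
    (hu : ∀ t ∈ T, ∀ t' ∈ T, ¬ PD g {t, i, i'} → ¬ PD g {t', i, i'} → t = t') :
    (∃ i i' j j' a, Case1 n g T i i' j j' a) ∨ (∃ i i' j j' a b, Case2 n g T i i' j j' a b) := by
  obtain ⟨pr, pc, ⟨a, ha, na⟩, _, _⟩ := star_struct h hs q
  have uA : ∀ t ∈ T, ¬ PD g {t, i, i'} → t = a := fun t ht nt => hu t ht a ha nt na
  by_cases h1 : ∃ b ∈ T, ¬ PD g {b, j, j'} ∧ adj g b j
  · by_cases h2 : ∃ b ∈ T, ¬ PD g {b, j, j'} ∧ adj g b j'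
    · left
      refine ⟨i, i', j, j', a, ?_⟩
      exact
        { toStar := q
          ha := ha
          nA := na
          uA := uA
          pr := pr
          pc := pc
          bj := h1
          bj' := h2 }
    · apply Cas_two h hs q ha na uA
      intro b hb nb
      by_contra h3
      apply h2
      refine ⟨b, hb, nb, ?_, h3⟩
      rintro rfl
      exact q.hj' hb
  · apply Cas_two h hs q.flip' ha na uA
    intro b hb nb
    by_contra h3
    apply h1
    refine ⟨b, hb, ?_, ?_, h3⟩
    · rw [Finset.pair_comm]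
      exact nb
    · rintro rfl
      exact q.hj hb

theorem star_cases (h : Cox n g) (hs : Small3 g) (q : Star n g T i i' j j') :
    (∃ i i' j j' a, Case1 n g T i i' j j' a) ∨ (∃ i i' j j' a b, Case2 n g T i i' j j' a b) := by
  rcases Cas_one h hs q with h1 | h1
  · exact Cas_uniq h hs q h1
  · exact Cas_uniq h hs (q.swap h.toDiag) h1

end MP86a502
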