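import Pool.Agent.Lib.MP_86a502_gt.Pol

set_option autoImplicit false
set_option linter.unusedSectionVars false

/-! # JOB Nuf. `near_iff`, `nu_tri`, `nu_quad2`, `star_of_nu`, `nu_sets` (120-180 lines; `sum_nu` is in `Nub.lean`)

`nu n g T` counts the `S ∈ ov T` such that the two elements of `S \ T` are near in `S`. For `S = insert x (insert y T)` with
`x ≠ y` not in `T` the condition is `near g S x y` (`near_iff`; use `Diag.near_comm`).

* `nu_tri`, `nu_quad2`, `star_of_nu`, `nu_sets`: from `tri_ov`, `quad_ov` and `near_iff` (adjacent elements are near).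
* `sum_nu`: the pairs `(T, S)` counted by `∑_T nu T` are, for each `S ∈ verts`, sets `T = S \ {x, y}` with `(x, y)` and `(y, x)` in the
  set of ordered near pairs of `S`. So for each `S` twice the number of such `T` is at most `nearP g S`
  (e.g. `Finset.card_nsmul_le_card...`, or: the map `(x, y) ↦ S \ {x, y}` has fibres with at least two elements:
  `Finset.mul_card_image_le_card_of_...`). -/

namespace MP86a502

variable {ι : Type} [Fintype ι] [DecidableEq ι] {n : ℕ} {g : ι → ι → ℝ}

theorem near_iff (h : Diag g) {T : Finset ι} {x y : ι} (hx : x ∉ T) (hy : y ∉ T) (hxy : x ≠ y) :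
    (∀ u ∈ insert x (insert y T), ∀ v ∈ insert x (insert y T), u ∉ T → v ∉ T → u ≠ v →
      near g (insert x (insert y T)) u v) ↔ near g (insert x (insert y T)) x y := by
  constructor
  · intro hh
    exact hh x (Finset.mem_insert_self _ _) y
      (Finset.mem_insert_of_mem (Finset.mem_insert_self _ _)) hx hy hxy
  · intro hn u hu v hv huT hvT huv
    simp only [Finset.mem_insert] at hu hv
    rcases hu with rfl | rfl | hu
    · rcases hv with rfl | rfl | hv
      · exact absurd rfl huv
      · exact hn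
      · exact absurd hv hvT
    · rcases hv with rfl | rfl | hv
      · exact h.near_comm.1 hn
      · exact absurd rfl huv
      · exact absurd hv hvT
    · exact absurd hu huT

private def NufP (g : ι → ι → ℝ) (T S : Finset ι) : Prop :=
  ∀ x ∈ S, ∀ y ∈ S, x ∉ T → y ∉ T → x ≠ y → near g S x y

open scoped Classical in
private theorem Nuf_nu (T : Finset ι) :
    nu n g T = ((ov n g T).filter (fun S => NufP g T S)).card := by
  unfold nu
  refine congrArg Finset.card ?_
  ext S
  simp only [Finset.mem_filter]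
  exact Iff.rfl

open scoped Classical in
private theorem Nuf_mem (h : Diag g) {T : Finset ι} {x y : ι} (hx : x ∉ T) (hy : y ∉ T)
    (hxy : x ≠ y) (hov : insert x (insert y T) ∈ ov n g T) :
    insert x (insert y T) ∈ (ov n g T).filter (fun S => NufP g T S) ↔
      near g (insert x (insert y T)) x y := by
  rw [Finset.mem_filter]
  exact ⟨fun hm => (near_iff h hx hy hxy).1 hm.2, fun hn => ⟨hov, (near_iff h hx hy hxy).2 hn⟩⟩

private theorem Nuf_adj {x y : ι} {S : Finset ι} (hxy : x ≠ y) (h0 : g x y ≠ 0) :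
    near g S x y := ⟨hxy, Or.inl h0⟩

private theorem Nuf_ne {T : Finset ι} {x y z w : ι} (hx : x ∉ T) (hxz : x ≠ z) (hxw : x ≠ w) :
    insert x (insert y T) ≠ insert z (insert w T) := by
  intro he
  have : x ∈ insert z (insert w T) := by
    rw [← he]
    exact Finset.mem_insert_self _ _
  simp only [Finset.mem_insert] at this
  rcases this with e | e | e
  · exact hxz e
  · exact hxw e
  · exact hx e

private theorem Nuf_ne' {T : Finset ι} {x y z w : ι} (hy : y ∉ T) (hyz : y ≠ z) (hyw : y ≠ w) :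
    insert x (insert y T) ≠ insert z (insert w T) := by
  rw [Finset.insert_comm x y T]
  exact Nuf_ne hy hyz hyw

private theorem Nuf_two (h : Diag g) {T : Finset ι} {x y z w : ι} (hx : x ∉ T) (hy : y ∉ T)
    (hz : z ∉ T) (hw : w ∉ T) (hxy : x ≠ y) (hzw : z ≠ w)
    (hne : insert x (insert y T) ≠ insert z (insert w T))
    (h1 : insert x (insert y T) ∈ ov n g T) (h2 : insert z (insert w T) ∈ ov n g T)
    (n1 : near g (insert x (insert y T)) x y) (n2 : near g (insert z (insert w T)) z w) :
    2 ≤ nu n g T := by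
  classical
  rw [Nuf_nu]
  have m1 := (Nuf_mem h hx hy hxy h1).2 n1
  have m2 := (Nuf_mem h hz hw hzw h2).2 n2
  rw [← Finset.card_pair hne]
  refine Finset.card_le_card ?_
  intro S hS
  simp only [Finset.mem_insert, Finset.mem_singleton] at hS
  rcases hS with rfl | rfl
  · exact m1
  · exact m2

theorem nu_tri (h : Cox n g) {T : Finset ι} {a b c : ι} (q : Tri n g T a b c)
    (hh : (g a b ≠ 0 ∧ g a c ≠ 0) ∨ (g a b ≠ 0 ∧ g b c ≠ 0) ∨ (g a c ≠ 0 ∧ g b c ≠ 0)) :
    2 ≤ nu n g T := by
  have hd := h.toDiag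
  have hov := tri_ov h q
  have o1 : insert a (insert b T) ∈ ov n g T := by rw [hov]; simp
  have o2 : insert b (insert c T) ∈ ov n g T := by rw [hov]; simp
  have o3 : insert a (insert c T) ∈ ov n g T := by rw [hov]; simp
  rcases hh with ⟨e1, e2⟩ | ⟨e1, e2⟩ | ⟨e1, e2⟩
  · exact Nuf_two hd q.ha q.hb q.ha q.hc q.ab q.ac (Nuf_ne' q.hb q.ab.symm q.bc) o1 o3
      (Nuf_adj q.ab e1) (Nuf_adj q.ac e2)
  · exact Nuf_two hd q.ha q.hb q.hb q.hc q.ab q.bc (Nuf_ne q.ha q.ab q.ac) o1 o2
      (Nuf_adj q.ab e1) (Nuf_adj q.bc e2)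
  · exact Nuf_two hd q.ha q.hc q.hb q.hc q.ac q.bc (Nuf_ne q.ha q.ab q.ac) o3 o2
      (Nuf_adj q.ac e1) (Nuf_adj q.bc e2)

theorem nu_quad2 (h : Cox n g) {T : Finset ι} {i i' j j' : ι} (q : Quad n g T i i' j j')
    (h1 : near g (insert i (insert j T)) i j) (h2 : near g (insert i (insert j' T)) i j') :
    2 ≤ nu n g T := by
  have hov := quad_ov h q
  have o1 : insert i (insert j T) ∈ ov n g T := by rw [hov]; simp
  have o2 : insert i (insert j' T) ∈ ov n g T := by rw [hov]; simp
  exact Nuf_two h.toDiag q.hi q.hj q.hi q.hj' q.ij q.ij' (Nuf_ne' q.hj q.ij.symm q.jj') o1 o2 h1 h2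

theorem star_of_nu (h : Cox n g) {T : Finset ι} {i i' j j' : ι} (q : Quad n g T i i' j j')
    (h0 : nu n g T = 0) : Star n g T i i' j j' := by
  classical
  have hov := quad_ov h q
  have o1 : insert i (insert j T) ∈ ov n g T := by rw [hov]; simp
  have o2 : insert i (insert j' T) ∈ ov n g T := by rw [hov]; simp
  have o3 : insert i' (insert j T) ∈ ov n g T := by rw [hov]; simp
  have o4 : insert i' (insert j' T) ∈ ov n g T := by rw [hov]; simp
  rw [Nuf_nu, Finset.card_eq_zero] at h0
  have key : ∀ x y : ι, x ∉ T → y ∉ T → x ≠ y → insert x (insert y T) ∈ ov n g T →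
      ¬ near g (insert x (insert y T)) x y := by
    intro x y hx hy hxy ho hn
    have hm := (Nuf_mem h.toDiag hx hy hxy ho).2 hn
    have : insert x (insert y T) ∈ (∅ : Finset (Finset ι)) := by
      rw [← h0]
      exact hm
    exact absurd this (Finset.notMem_empty _)
  exact { q with
    n1 := key i j q.hi q.hj q.ij o1
    n2 := key i j' q.hi q.hj' q.ij' o2
    n3 := key i' j q.hi' q.hj q.i'j o3
    n4 := key i' j' q.hi' q.hj' q.i'j' o4 }

/-- If exactly the two angles at the side `i` are near, these two vertices are determined by `T`. -/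
theorem nu_sets (h : Cox n g) {T : Finset ι} {i i' j j' : ι} (q : Quad n g T i i' j j')
    (h1 : near g (insert i (insert j T)) i j) (h2 : near g (insert i (insert j' T)) i j')
    (h3 : ¬ near g (insert i' (insert j T)) i' j) (h4 : ¬ near g (insert i' (insert j' T)) i' j')
    (S : Finset ι) (hS : S ∈ ov n g T) :
    (∀ x ∈ S, ∀ y ∈ S, x ∉ T → y ∉ T → x ≠ y → near g S x y) ↔
      (S = insert i (insert j T) ∨ S = insert i (insert j' T)) := by
  have hd := h.toDiag
  rw [quad_ov h q] at hS
  simp only [Finset.mem_insert, Finset.mem_singleton] at hS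
  rcases hS with rfl | rfl | rfl | rfl
  · rw [near_iff hd q.hi q.hj q.ij]
    exact ⟨fun _ => Or.inl rfl, fun _ => h1⟩
  · rw [near_iff hd q.hi q.hj' q.ij']
    exact ⟨fun _ => Or.inr rfl, fun _ => h2⟩
  · rw [near_iff hd q.hi' q.hj q.i'j]
    refine ⟨fun hn => absurd hn h3, ?_⟩
    rintro (e | e)
    · exact absurd e (Nuf_ne q.hi' q.ii'.symm q.i'j)
    · exact absurd e (Nuf_ne q.hi' q.ii'.symm q.i'j')
  · rw [near_iff hd q.hi' q.hj' q.i'j']
    refine ⟨fun hn => absurd hn h4, ?_⟩
    rintro (e | e)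
    · exact absurd e (Nuf_ne q.hi' q.ii'.symm q.i'j)
    · exact absurd e (Nuf_ne q.hi' q.ii'.symm q.i'j')

end MP86a502
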