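import Pool.Agent.Lib.MP_86a502_gt.Str
import Pool.Agent.Lib.MP_86a502_gt.Nuf

set_option autoImplicit false
set_option linter.unusedSectionVars false

/-! # JOB Coa. `Star` of the first kind: the neighbouring quadrangle with two near angles (180-260 lines)

Let `c : Case1 n g T i i' j j' a`, `G = insert i' (T.erase a)`.

* `case1_quad : Quad n g G a i j j'`. The cardinality and the memberships are clear (`i' ∉ T`, `a ∈ T`). `insert a (insert j G)` is
  `insert i' (insert j T)` (as a set), so `PD` by `v3`; with `j'`: `v4`. `insert i (insert j G)` is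
  `insert i (insert i' (insert j (T.erase a)))`, `PD` by `star_pd3`; with `j'`: `star_pd3` for `Star.flip'`.
* `case1_near`: near at `a, j` in `insert a (insert j G)`: take `b` from `c.bj`; `a ≠ b`, `g a b ≠ 0` by `star_struct`, `adj g b j`;
  `b ∈ T.erase a ⊆ G`. Same for `j'`. Not near at `i, j` in `insert i (insert j G)`: `g i j = 0` (`Star.orth`); a common neighbour
  `z`: `z = i` or `z = j` is impossible; `z = i'`: `g i' j = 0`; `z ∈ T.erase a`: then `i, j` would be near in
  `insert i (insert j T)`, contradicting `n1`. Same for `j'`.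
* `case1_inj`: let `G = insert i'₁ (T₁.erase a₁) = insert i'₂ (T₂.erase a₂)`. By `nu_sets` for the two quads over `G` the set of near
  vertices of `G` is `{G ∪ {a₁, j₁}, G ∪ {a₁, j₁'}} = {G ∪ {a₂, j₂}, G ∪ {a₂, j₂'}}`; intersecting: `insert a₁ G = insert a₂ G`, so
  `a₁ = a₂ = a`. The other two vertices: `{G ∪ {i₁, j₁}, G ∪ {i₁, j₁'}} = {G ∪ {i₂, j₂}, G ∪ {i₂, j₂'}}`, so `i₁ = i₂ = i`. If
  `i'₁ = i'₂` then `T₁ = insert a (G.erase i'₁) = T₂`. Otherwise `i'₁ ∈ G`, `i'₁ ≠ i'₂`, so `i'₁ ∈ T₂.erase a`, and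
  `{a, i, i'₁} ⊆ insert i (insert j₂ T₂)`, which is `PD`, contradicting `nA`. -/

namespace MP86a502

variable {ι : Type} [Fintype ι] [DecidableEq ι] {n : ℕ} {g : ι → ι → ℝ} {T : Finset ι}
  {i i' j j' a : ι}

theorem case1_quad (h : Cox n g) (hs : Small3 g) (c : Case1 n g T i i' j j' a) :
    Quad n g (insert i' (T.erase a)) a i j j' := by
  have hai : a ≠ i := fun e => c.hi (e ▸ c.ha)
  have hai' : a ≠ i' := fun e => c.hi' (e ▸ c.ha)
  have haj : a ≠ j := fun e => c.hj (e ▸ c.ha)
  have haj' : a ≠ j' := fun e => c.hj' (e ▸ c.ha)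
  have hsub3 : PD g (insert i (insert i' (insert j (T.erase a)))) :=
    star_pd3 h hs c.toStar c.ha c.uA c.pr
  have hsub4 : PD g (insert i (insert i' (insert j' (T.erase a)))) :=
    star_pd3 h hs c.toStar.flip' c.ha c.uA c.pr
  refine
    { face := ?_
      pd := ?_
      hi := ?_
      hi' := ?_
      hj := ?_
      hj' := ?_
      ii' := hai
      jj' := c.jj'
      ij := haj
      ij' := haj'
      i'j := c.ij
      i'j' := c.ij'
      v1 := ?_
      v2 := ?_
      v3 := ?_
      v4 := ?_ }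
  · have h1 : i' ∉ T.erase a := fun e => c.hi' (Finset.mem_of_mem_erase e)
    have h2 : 0 < T.card := Finset.card_pos.2 ⟨a, c.ha⟩
    rw [Finset.card_insert_of_notMem h1, Finset.card_erase_of_mem c.ha]
    have := c.face
    omega
  · refine pd_subset c.v3 ?_
    intro x hx
    simp only [Finset.mem_insert, Finset.mem_erase] at hx ⊢
    tauto
  · simp only [Finset.mem_insert, Finset.mem_erase]
    rintro (e | ⟨e, -⟩)
    · exact hai' e
    · exact e rfl
  · simp only [Finset.mem_insert, Finset.mem_erase]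
    rintro (e | ⟨-, e⟩)
    · exact c.ii' e
    · exact c.hi e
  · simp only [Finset.mem_insert, Finset.mem_erase]
    rintro (e | ⟨-, e⟩)
    · exact c.i'j e.symm
    · exact c.hj e
  · simp only [Finset.mem_insert, Finset.mem_erase]
    rintro (e | ⟨-, e⟩)
    · exact c.i'j' e.symm
    · exact c.hj' e
  · refine pd_subset c.v3 ?_
    intro x hx
    simp only [Finset.mem_insert, Finset.mem_erase] at hx ⊢
    rcases hx with rfl | hx | hx | hx
    · exact Or.inr (Or.inr c.ha)
    · tauto
    · tauto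
    · tauto
  · refine pd_subset c.v4 ?_
    intro x hx
    simp only [Finset.mem_insert, Finset.mem_erase] at hx ⊢
    rcases hx with rfl | hx | hx | hx
    · exact Or.inr (Or.inr c.ha)
    · tauto
    · tauto
    · tauto
  · refine pd_subset hsub3 ?_
    intro x hx
    simp only [Finset.mem_insert, Finset.mem_erase] at hx ⊢
    tauto
  · refine pd_subset hsub4 ?_
    intro x hx
    simp only [Finset.mem_insert, Finset.mem_erase] at hx ⊢
    tauto

theorem case1_near (h : Cox n g) (hs : Small3 g) (c : Case1 n g T i i' j j' a) :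
    near g (insert a (insert j (insert i' (T.erase a)))) a j ∧
    near g (insert a (insert j' (insert i' (T.erase a)))) a j' ∧
    ¬ near g (insert i (insert j (insert i' (T.erase a)))) i j ∧
    ¬ near g (insert i (insert j' (insert i' (T.erase a)))) i j' := by
  obtain ⟨o1, o2, o3, o4⟩ := c.toStar.orth
  obtain ⟨-, -, -, -, hst⟩ := star_struct h hs c.toStar
  have haj : a ≠ j := fun e => c.hj (e ▸ c.ha)
  have haj' : a ≠ j' := fun e => c.hj' (e ▸ c.ha)
  refine ⟨?_, ?_, ?_, ?_⟩
  · obtain ⟨b, hbT, hnb, hbj⟩ := c.bj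
    obtain ⟨hab, hgab⟩ := hst a c.ha b hbT c.nA hnb
    refine ⟨haj, Or.inr ⟨b, ?_, ⟨hab, hgab⟩, hbj⟩⟩
    simp only [Finset.mem_insert, Finset.mem_erase]
    exact Or.inr (Or.inr (Or.inr ⟨hab.symm, hbT⟩))
  · obtain ⟨b, hbT, hnb, hbj⟩ := c.bj'
    obtain ⟨hab, hgab⟩ := hst a c.ha b hbT c.nA hnb
    refine ⟨haj', Or.inr ⟨b, ?_, ⟨hab, hgab⟩, hbj⟩⟩
    simp only [Finset.mem_insert, Finset.mem_erase]
    exact Or.inr (Or.inr (Or.inr ⟨hab.symm, hbT⟩))
  · rintro ⟨hij, hg | ⟨z, hz, hz1, hz2⟩⟩
    · exact hg o1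
    · simp only [Finset.mem_insert, Finset.mem_erase] at hz
      rcases hz with rfl | rfl | rfl | ⟨-, hzT⟩
      · exact hz1.1 rfl
      · exact hz2.1 rfl
      · exact hz2.2 o3
      · exact c.n1 ⟨hij, Or.inr ⟨z, by
          simp only [Finset.mem_insert]
          exact Or.inr (Or.inr hzT), hz1, hz2⟩⟩
  · rintro ⟨hij, hg | ⟨z, hz, hz1, hz2⟩⟩
    · exact hg o2
    · simp only [Finset.mem_insert, Finset.mem_erase] at hz
      rcases hz with rfl | rfl | rfl | ⟨-, hzT⟩
      · exact hz1.1 rfl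
      · exact hz2.1 rfl
      · exact hz2.2 o4
      · exact c.n2 ⟨hij, Or.inr ⟨z, by
          simp only [Finset.mem_insert]
          exact Or.inr (Or.inr hzT), hz1, hz2⟩⟩

theorem case1_inj (h : Cox n g) (hs : Small3 g) {T₁ T₂ : Finset ι} {i₁ i₁' j₁ j₁' a₁ : ι}
    {i₂ i₂' j₂ j₂' a₂ : ι} (c₁ : Case1 n g T₁ i₁ i₁' j₁ j₁' a₁)
    (c₂ : Case1 n g T₂ i₂ i₂' j₂ j₂' a₂)
    (hG : insert i₁' (T₁.erase a₁) = insert i₂' (T₂.erase a₂)) : T₁ = T₂ := by
  have q₁ := case1_quad h hs c₁
  have q₂ := case1_quad h hs c₂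
  obtain ⟨m1, m2, m3, m4⟩ := case1_near h hs c₁
  obtain ⟨r1, r2, r3, r4⟩ := case1_near h hs c₂
  rw [← hG] at q₂ r1 r2 r3 r4
  have hG' : i₁' ∈ insert i₁' (T₁.erase a₁) := Finset.mem_insert_self _ _
  obtain ⟨G, hGd⟩ : ∃ G : Finset ι, G = insert i₁' (T₁.erase a₁) := ⟨_, rfl⟩
  rw [← hGd] at q₁ q₂ m1 m2 m3 m4 r1 r2 r3 r4 hG'
  have key1 := nu_sets h q₁ m1 m2 m3 m4
  have key2 := nu_sets h q₂ r1 r2 r3 r4
  have hmem : ∀ {x y : ι}, x ∉ G → y ∉ G → x ≠ y → PD g (insert x (insert y G)) →
      insert x (insert y G) ∈ ov n g G := by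
    intro x y hx hy hxy hpd
    rw [mem_ov]
    refine ⟨⟨?_, hpd⟩, ?_⟩
    · rw [Finset.card_insert_of_notMem, Finset.card_insert_of_notMem hy]
      · have := q₁.face
        omega
      · rw [Finset.mem_insert]
        rintro (e | e)
        · exact hxy e
        · exact hx e
    · intro z hz
      exact Finset.mem_insert_of_mem (Finset.mem_insert_of_mem hz)
  -- the near vertices determine `a`
  have near_a : ∀ y : ι, (insert a₁ (insert y G) ∈ ov n g G) →
      (insert a₁ (insert y G) = insert a₁ (insert j₁ G) ∨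
        insert a₁ (insert y G) = insert a₁ (insert j₁' G)) → a₂ = a₁ ∨ a₂ = y := by
    intro y hy hyy
    have h1 := (key2 _ hy).1 ((key1 _ hy).2 hyy)
    have h2 : a₂ ∈ insert a₁ (insert y G) := by
      rcases h1 with e | e
      · rw [e]
        exact Finset.mem_insert_self _ _
      · rw [e]
        exact Finset.mem_insert_self _ _
    simp only [Finset.mem_insert] at h2
    rcases h2 with e | e | e
    · exact Or.inl e
    · exact Or.inr e
    · exact absurd e q₂.hi
  have ha12 : a₂ = a₁ := by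
    rcases near_a j₁ (hmem q₁.hi q₁.hj q₁.ij q₁.v1) (Or.inl rfl) with e | e
    · exact e
    · rcases near_a j₁' (hmem q₁.hi q₁.hj' q₁.ij' q₁.v2) (Or.inr rfl) with e' | e'
      · exact e'
      · exact absurd (e.symm.trans e') q₁.jj'
  have hi_aux : ∀ y : ι, y ∉ G → a₁ ≠ y → insert i₁ (insert y G) ∈ ov n g G →
      i₂ = i₁ ∨ i₂ = y := by
    intro y hy hay hmy
    have hna : a₂ ∉ insert i₁ (insert y G) := by
      rw [ha12]
      simp only [Finset.mem_insert]
      rintro (e | e | e)
      · exact q₁.ii' e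
      · exact hay e
      · exact q₁.hi e
    rw [quad_ov h q₂] at hmy
    simp only [Finset.mem_insert, Finset.mem_singleton] at hmy
    have h2 : i₂ ∈ insert i₁ (insert y G) := by
      rcases hmy with e | e | e | e
      · exact absurd (by rw [e]; exact Finset.mem_insert_self _ _) hna
      · exact absurd (by rw [e]; exact Finset.mem_insert_self _ _) hna
      · rw [e]
        exact Finset.mem_insert_self _ _
      · rw [e]
        exact Finset.mem_insert_self _ _
    simp only [Finset.mem_insert] at h2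
    rcases h2 with e | e | e
    · exact Or.inl e
    · exact Or.inr e
    · exact absurd e q₂.hi'
  have hi12 : i₂ = i₁ := by
    rcases hi_aux j₁ q₁.hj q₁.ij (hmem q₁.hi' q₁.hj q₁.i'j q₁.v3) with e | e
    · exact e
    · rcases hi_aux j₁' q₁.hj' q₁.ij' (hmem q₁.hi' q₁.hj' q₁.i'j' q₁.v4) with e' | e'
      · exact e'
      · exact absurd (e.symm.trans e') q₁.jj'
  subst ha12 hi12
  by_cases hii : i₁' = i₂'
  · subst hii
    have e1 : (insert i₁' (T₁.erase a₂)).erase i₁' = T₁.erase a₂ :=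
      Finset.erase_insert fun e => c₁.hi' (Finset.mem_of_mem_erase e)
    have e2 : (insert i₁' (T₂.erase a₂)).erase i₁' = T₂.erase a₂ :=
      Finset.erase_insert fun e => c₂.hi' (Finset.mem_of_mem_erase e)
    have e3 : T₁.erase a₂ = T₂.erase a₂ := by rw [← e1, ← e2, hG]
    rw [← Finset.insert_erase c₁.ha, ← Finset.insert_erase c₂.ha, e3]
  · exfalso
    rw [hGd, hG, Finset.mem_insert] at hG'
    have hT : i₁' ∈ T₂ := by
      rcases hG' with e | e
      · exact absurd e hii
      · exact Finset.mem_of_mem_erase e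
    refine c₁.nA (pd_subset c₂.v1 ?_)
    intro x hx
    simp only [Finset.mem_insert, Finset.mem_singleton] at hx ⊢
    rcases hx with rfl | rfl | rfl
    · exact Or.inr (Or.inr c₂.ha)
    · exact Or.inl rfl
    · exact Or.inr (Or.inr hT)

end MP86a502
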