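import Pool.Agent.Lib.MP_86a502_gt.Pol

set_option autoImplicit false
set_option linter.unusedSectionVars false

/-! # JOB Pob. `ov_card_ge`, `tri_of_card`, `quad_of_card` (130-200 lines). The proofs are in the header of `Pol.lean` (you may use its
theorems). -/

namespace MP86a502

variable {ι : Type} [Fintype ι] [DecidableEq ι] {n : ℕ} {g : ι → ι → ℝ}

/-- three vertices of a 2-face -/
theorem Pob_start (h : Cox n g) {T : Finset ι} (hT : T ∈ faces2 n g) :
    ∃ x x' y y', x ∉ T ∧ x' ∉ T ∧ y ∉ T ∧ y' ∉ T ∧ x ≠ y ∧ x ≠ y' ∧ y ≠ y' ∧ y ≠ x' ∧ x ≠ x' ∧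
      PD g (insert x (insert y T)) ∧ PD g (insert x (insert y' T)) ∧
      PD g (insert x' (insert y T)) := by
  obtain ⟨hc, hp⟩ := mem_faces2.1 hT
  obtain ⟨S, hTS, hS, hSc⟩ := h.ext T hp
  obtain ⟨x, y, hx, hy, hxy, rfl⟩ := Pol_exists hc (mem_ov.2 ⟨⟨hSc, hS⟩, hTS⟩)
  obtain ⟨y', h1, h2, h3, h4⟩ := Pol_other h hc hx hy hxy hS
  have hS' : PD g (insert y (insert x T)) := by
    rw [Finset.insert_comm]
    exact hS
  obtain ⟨x', k1, k2, k3, k4⟩ := Pol_other h hc hy hx hxy.symm hS'
  refine ⟨x, x', y, y', hx, k1, hy, h1, hxy, h2, h3, k2, k3, hS, h4, ?_⟩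
  rw [Finset.insert_comm]
  exact k4

theorem Pob_three {T : Finset ι} {x x' y y' : ι} (hx : x ∉ T) (hy : y ∉ T)
    (xy : x ≠ y) (yy' : y ≠ y') (xx' : x ≠ x') :
    ({insert x (insert y T), insert x (insert y' T), insert x' (insert y T)} :
      Finset (Finset ι)).card = 3 := by
  have d12 : insert x (insert y T) ≠ insert x (insert y' T) := Pol_ne' hy xy.symm yy'
  have d13 : insert x (insert y T) ≠ insert x' (insert y T) := Pol_ne hx xx' xy
  have d23 : insert x (insert y' T) ≠ insert x' (insert y T) := Pol_ne hx xx' xy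
  rw [Finset.card_insert_of_notMem, Finset.card_insert_of_notMem, Finset.card_singleton]
  · rw [Finset.mem_singleton]
    exact d23
  · rw [Finset.mem_insert, Finset.mem_singleton, not_or]
    exact ⟨d12, d13⟩

theorem Pob_sub {T : Finset ι} {x x' y y' : ι} (hc : T.card + 2 = n) (hx : x ∉ T) (hx' : x' ∉ T)
    (hy : y ∉ T) (hy' : y' ∉ T) (xy : x ≠ y) (xy' : x ≠ y') (yx' : y ≠ x')
    (p1 : PD g (insert x (insert y T))) (p2 : PD g (insert x (insert y' T)))
    (p3 : PD g (insert x' (insert y T))) :
    ({insert x (insert y T), insert x (insert y' T), insert x' (insert y T)} :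
      Finset (Finset ι)) ⊆ ov n g T := by
  intro S hS
  simp only [Finset.mem_insert, Finset.mem_singleton] at hS
  rcases hS with rfl | rfl | rfl
  · exact Pol_mem hc hx hy xy p1
  · exact Pol_mem hc hx hy' xy' p2
  · exact Pol_mem hc hx' hy yx'.symm p3

theorem ov_card_ge (h : Cox n g) {T : Finset ι} (hT : T ∈ faces2 n g) : 3 ≤ (ov n g T).card := by
  obtain ⟨hc, _⟩ := mem_faces2.1 hT
  obtain ⟨x, x', y, y', hx, hx', hy, hy', xy, xy', yy', yx', xx', p1, p2, p3⟩ := Pob_start h hT
  rw [← Pob_three hx hy xy yy' xx']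
  exact Finset.card_le_card (Pob_sub hc hx hx' hy hy' xy xy' yx' p1 p2 p3)

theorem tri_of_card (h : Cox n g) {T : Finset ι} (hT : T ∈ faces2 n g)
    (hc : (ov n g T).card = 3) : ∃ a b c, Tri n g T a b c := by
  obtain ⟨hn, hp⟩ := mem_faces2.1 hT
  obtain ⟨x, x', y, y', hx, hx', hy, hy', xy, xy', yy', yx', xx', p1, p2, p3⟩ := Pob_start h hT
  have hsub := Pob_sub hn hx hx' hy hy' xy xy' yx' p1 p2 p3
  have heq := Finset.eq_of_subset_of_card_le hsub (by rw [hc, Pob_three hx hy xy yy' xx'])
  by_cases e : x' = y'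
  · subst e
    exact ⟨x, y, x', hn, hp, hx, hy, hx', xy, yx', xx', p1, by
      rw [Finset.insert_comm]
      exact p3, p2⟩
  · exfalso
    obtain ⟨w, hw, xw, yw, pw⟩ := Pol_other h hn hx' hy yx'.symm p3
    have hm := Pol_mem hn hx' hw xw pw
    rw [← heq] at hm
    simp only [Finset.mem_insert, Finset.mem_singleton] at hm
    rcases hm with hm | hm | hm
    · exact Pol_ne hx' xx'.symm yx'.symm hm
    · exact Pol_ne hx' xx'.symm e hm
    · exact Pol_ne (i := x') (j := w) hy yx' yw (by
        rw [Finset.insert_comm]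
        exact hm.symm)

theorem quad_of_card (h : Cox n g) {T : Finset ι} (hT : T ∈ faces2 n g)
    (hc : (ov n g T).card = 4) : ∃ i i' j j', Quad n g T i i' j j' := by
  obtain ⟨hn, hp⟩ := mem_faces2.1 hT
  obtain ⟨x, x', y, y', hx, hx', hy, hy', xy, xy', yy', yx', xx', p1, p2, p3⟩ := Pob_start h hT
  have hsub := Pob_sub hn hx hx' hy hy' xy xy' yx' p1 p2 p3
  have hthree := Pob_three hx hy xy yy' xx'
  by_cases e : x' = y'
  · exfalso
    subst e
    have q : Tri n g T x y x' := ⟨hn, hp, hx, hy, hx', xy, yx', xx', p1, by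
      rw [Finset.insert_comm]
      exact p3, p2⟩
    have h1 := tri_ov h q
    have h2 : (ov n g T).card ≤ 3 := by
      rw [h1]
      exact Finset.card_le_three
    omega
  · obtain ⟨w, hw, xw, yw, pw⟩ := Pol_other h hn hx' hy yx'.symm p3
    have p2' : PD g (insert y' (insert x T)) := by
      rw [Finset.insert_comm]
      exact p2
    obtain ⟨w', hw', yw', xw', pw'⟩ := Pol_other h hn hy' hx xy'.symm p2'
    have m1 := Pol_mem hn hx' hw xw pw
    have m2 := Pol_mem hn hy' hw' yw' pw'
    have n1 : insert x' (insert w T) ∉ ({insert x (insert y T), insert x (insert y' T),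
        insert x' (insert y T)} : Finset (Finset ι)) := by
      intro hm
      simp only [Finset.mem_insert, Finset.mem_singleton] at hm
      rcases hm with hm | hm | hm
      · exact Pol_ne hx' xx'.symm yx'.symm hm
      · exact Pol_ne hx' xx'.symm e hm
      · exact Pol_ne (i := x') (j := w) hy yx' yw (by
          rw [Finset.insert_comm]
          exact hm.symm)
    have n2 : insert y' (insert w' T) ∉ ({insert x (insert y T), insert x (insert y' T),
        insert x' (insert y T)} : Finset (Finset ι)) := by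
      intro hm
      simp only [Finset.mem_insert, Finset.mem_singleton] at hm
      rcases hm with hm | hm | hm
      · exact Pol_ne hy' xy'.symm yy'.symm hm
      · exact Pol_ne (i := y') (j := w') hx xy' xw' hm.symm
      · exact Pol_ne hy' (Ne.symm e) yy'.symm hm
    have heq : insert (insert x' (insert w T)) ({insert x (insert y T), insert x (insert y' T),
        insert x' (insert y T)} : Finset (Finset ι)) = ov n g T := by
      apply Finset.eq_of_subset_of_card_le
      · rw [Finset.insert_subset_iff]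
        exact ⟨m1, hsub⟩
      · rw [hc, Finset.card_insert_of_notMem n1, hthree]
    rw [← heq, Finset.mem_insert] at m2
    have h3 := m2.resolve_right n2
    have h4 : y' = w := by
      rcases Pol_eq hy' h3 with h5 | h5
      · exact absurd h5.symm e
      · exact h5
    subst h4
    exact ⟨x, x', y, y', hn, hp, hx, hx', hy, hy', xx', yy', xy, xy', yx'.symm, e, p1, p2, p3,
      pw⟩

end MP86a502
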