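import Pool.Agent.Lib.MP_86a502_gt.Coa
import Pool.Agent.Lib.MP_86a502_gt.Cas
import Pool.Agent.Lib.MP_86a502_gt.Pob

set_option autoImplicit false
set_option linter.unusedSectionVars false

/-! # JOB Cob. The number of triangles and quadrangles (120-200 lines, finite combinatorics)

`St2` is the set of 2-faces with a `Case2`. Claim: `∑_T (5 - k_T) ≤ ∑_T nu T + |St2|`.

Let `Tr`, `Qd` be the sets of `T ∈ faces2` with `k_T = 3`, `4` (`k_T = (ov n g T).card ≥ 3`, `ov_card_ge`). Then
`∑ (5 - k_T) ≤ 2 |Tr| + |Qd|` (real numbers; terms with `k_T ≥ 5` are `≤ 0`).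
`nu T ≥ 2` on `Tr` (`tri_of_card`, `tri_two`, `nu_tri`). `Qd = Qd0 ∪ Qd1` (`nu = 0`, `nu ≥ 1`). By `quad_of_card`, `star_of_nu` and
`star_cases` every `T ∈ Qd0` has a `Case1` (call the set of these `St1`) or a `Case2` (in `St2`). Choose for `T ∈ St1` data
`i i' j j' a` and put `Φ T = insert i' (T.erase a)`; `Φ` is injective on `St1` (`case1_inj`), `Φ T ∈ Qd` (`case1_quad`, `quad_card`)
and `nu (Φ T) ≥ 2` (`case1_near`, `nu_quad2`). So
`∑_T nu T ≥ 2 |Tr| + |Qd1| + |Φ(St1)| = 2 |Tr| + |Qd1| + |St1|` (on `Qd1` `nu ≥ 1`, on `Φ(St1) ⊆ Qd1` `nu ≥ 2`) and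
`2 |Tr| + |Qd| = 2|Tr| + |Qd1| + |Qd0| ≤ 2|Tr| + |Qd1| + |St1| + |St2|`. -/

namespace MP86a502

variable {ι : Type} [Fintype ι] [DecidableEq ι] {n : ℕ} {g : ι → ι → ℝ}

open scoped Classical in
/-- The 2-faces with a `Case2`. -/
noncomputable def St2 (n : ℕ) (g : ι → ι → ℝ) : Finset (Finset ι) :=
  (faces2 n g).filter (fun T => ∃ i i' j j' a b, Case2 n g T i i' j j' a b)

theorem count_le (h : Cox n g) (hs : Small3 g) :
    ∑ T ∈ faces2 n g, (5 - ((ov n g T).card : ℝ)) ≤
      ((∑ T ∈ faces2 n g, nu n g T + (St2 n g).card : ℕ) : ℝ) := by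
  classical
  -- the 2-faces of the first kind
  let S1 : Finset (Finset ι) := (faces2 n g).filter (fun T => (ov n g T).card = 4 ∧ nu n g T = 0 ∧
    ∃ i i' j j' a, Case1 n g T i i' j j' a)
  have hex : ∀ T, ∃ G : Finset ι, T ∈ S1 → ∃ i i' j j' a, Case1 n g T i i' j j' a ∧
      G = insert i' (T.erase a) := by
    intro T
    by_cases hT : T ∈ S1
    · have hT' := hT
      simp only [S1, Finset.mem_filter] at hT'
      obtain ⟨_, _, _, i, i', j, j', a, hc⟩ := hT'
      exact ⟨insert i' (T.erase a), fun _ => ⟨i, i', j, j', a, hc, rfl⟩⟩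
    · exact ⟨∅, fun h => absurd h hT⟩
  choose Φ hΦ using hex
  have hinj : Set.InjOn Φ (S1 : Set (Finset ι)) := by
    intro T₁ h₁ T₂ h₂ he
    obtain ⟨i₁, i₁', j₁, j₁', a₁, c₁, e₁⟩ := hΦ T₁ h₁
    obtain ⟨i₂, i₂', j₂, j₂', a₂, c₂, e₂⟩ := hΦ T₂ h₂
    exact case1_inj h hs c₁ c₂ (by rw [← e₁, ← e₂]; exact he)
  have hprop : ∀ G ∈ S1.image Φ, G ∈ faces2 n g ∧ (ov n g G).card = 4 ∧ 2 ≤ nu n g G := by
    intro G hG
    obtain ⟨T, hT, rfl⟩ := Finset.mem_image.mp hG
    obtain ⟨i, i', j, j', a, c, e⟩ := hΦ T hT
    have q := case1_quad h hs c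
    have hn := case1_near h hs c
    rw [e]
    exact ⟨mem_faces2.mpr ⟨q.face, q.pd⟩, quad_card h q, nu_quad2 h q hn.1 hn.2.1⟩
  have hsub : S1.image Φ ⊆ faces2 n g := fun G hG => (hprop G hG).1
  -- pointwise inequality
  let w : Finset ι → ℕ := fun T => if (ov n g T).card = 3 then 2 else
    if (ov n g T).card = 4 then 1 else 0
  have hpt : ∀ T ∈ faces2 n g, w T + (if T ∈ S1.image Φ then 1 else 0) ≤
      nu n g T + (if T ∈ S1 then 1 else 0) + (if T ∈ St2 n g then 1 else 0) := by
    intro T hT
    by_cases h3 : (ov n g T).card = 3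
    · have hw : w T = 2 := by simp only [w, h3, if_true]
      have hnot : T ∉ S1.image Φ := by
        intro hmem
        have := (hprop T hmem).2.1
        omega
      obtain ⟨a, b, c, q⟩ := tri_of_card h hT h3
      have hnu := nu_tri h q (tri_two h hs q)
      rw [hw, if_neg hnot]
      omega
    · by_cases h4 : (ov n g T).card = 4
      · have hw : w T = 1 := by
          simp only [w]
          rw [if_neg h3, if_pos h4]
        rw [hw]
        by_cases hmem : T ∈ S1.image Φ
        · have := (hprop T hmem).2.2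
          rw [if_pos hmem]
          omega
        · rw [if_neg hmem]
          by_cases h0 : nu n g T = 0
          · obtain ⟨i, i', j, j', q⟩ := quad_of_card h hT h4
            have hst := star_of_nu h q h0
            rcases star_cases h hs hst with hc | hc
            · have hm1 : T ∈ S1 := by
                simp only [S1, Finset.mem_filter]
                exact ⟨hT, h4, h0, hc⟩
              rw [if_pos hm1]
              omega
            · have hm2 : T ∈ St2 n g := by
                unfold St2
                rw [Finset.mem_filter]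
                exact ⟨hT, hc⟩
              rw [if_pos hm2]
              omega
          · omega
      · have hw : w T = 0 := by
          simp only [w]
          rw [if_neg h3, if_neg h4]
        have hnot : T ∉ S1.image Φ := by
          intro hmem
          exact h4 (hprop T hmem).2.1
        rw [hw, if_neg hnot]
        omega
  have hsum := Finset.sum_le_sum hpt
  rw [Finset.sum_add_distrib, Finset.sum_add_distrib, Finset.sum_add_distrib] at hsum
  have hc1 : ∑ T ∈ faces2 n g, (if T ∈ S1.image Φ then 1 else 0) = (S1.image Φ).card := by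
    rw [← Finset.card_filter]
    congr 1
    rw [Finset.filter_mem_eq_inter]
    exact Finset.inter_eq_right.mpr hsub
  have hc2 : ∑ T ∈ faces2 n g, (if T ∈ S1 then 1 else 0) = S1.card := by
    rw [← Finset.card_filter]
    congr 1
    rw [Finset.filter_mem_eq_inter]
    exact Finset.inter_eq_right.mpr (Finset.filter_subset _ _)
  have hc3 : ∑ T ∈ faces2 n g, (if T ∈ St2 n g then 1 else 0) = (St2 n g).card := by
    rw [← Finset.card_filter]
    congr 1
    rw [Finset.filter_mem_eq_inter]
    exact Finset.inter_eq_right.mpr (Finset.filter_subset _ _)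
  rw [hc1, hc2, hc3, Finset.card_image_of_injOn hinj] at hsum
  have hnat : ∑ T ∈ faces2 n g, w T ≤ ∑ T ∈ faces2 n g, nu n g T + (St2 n g).card := by
    omega
  calc ∑ T ∈ faces2 n g, (5 - ((ov n g T).card : ℝ)) ≤ ∑ T ∈ faces2 n g, (w T : ℝ) := by
        apply Finset.sum_le_sum
        intro T hT
        have hge := ov_card_ge h hT
        by_cases h3 : (ov n g T).card = 3
        · have hw : w T = 2 := by simp only [w, h3, if_true]
          rw [hw, h3]
          norm_num
        · by_cases h4 : (ov n g T).card = 4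
          · have hw : w T = 1 := by
              simp only [w]
              rw [if_neg h3, if_pos h4]
            rw [hw, h4]
            norm_num
          · have hw : w T = 0 := by
              simp only [w]
              rw [if_neg h3, if_neg h4]
            have h5 : 5 ≤ (ov n g T).card := by omega
            have h5' : (5 : ℝ) ≤ ((ov n g T).card : ℝ) := by exact_mod_cast h5
            rw [hw]
            simp only [Nat.cast_zero]
            linarith
    _ = ((∑ T ∈ faces2 n g, w T : ℕ) : ℝ) := by push_cast; rfl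
    _ ≤ ((∑ T ∈ faces2 n g, nu n g T + (St2 n g).card : ℕ) : ℝ) := by exact_mod_cast hnat

end MP86a502
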