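import Pool.Agent.Lib.MP_86a502_gt.Str

set_option autoImplicit false
set_option linter.unusedSectionVars false

/-! # JOB Cta. `Case2`: inequality, and large labels (120-180 lines)

`c : Case2 n g T i i' j j' a b`, the diagram is `i' - i - a - b - j - j'`.

* `case2_orth`: `g b i = 0`, `g a j = 0`: if `g b i ≠ 0` then `i`, `j` have the common neighbour `b` (`c.bj`), contradicting
  `n1`. Similarly for `g a j`. Together with `Star.orth`.
* `case2_det`: let `x = -g a i`, `y = -g b j`, `z = -g a b ≥ 1/2`; `0 ≤ x, y < 1` (pairs are `PD` as subsets of `c.v1`). Apply `PD`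
  of `{i, a, b, j} ⊆ insert i (insert j T)` to `c_i = x α`, `c_a = α`, `c_b = β`, `c_j = y β` (all other products are zero:
  `g i b = g i j = g a j = 0`) with `α = √(1-y²)`, `β = √(1-x²)`:
  `Q = α²(1-x²) + β²(1-y²) - 2 z α β = 2 (1-x²)(1-y²) - 2 z √((1-x²)(1-y²)) > 0`. So `√((1-x²)(1-y²)) > z ≥ 1/2`.
* `case2_not_both`: `big g a i` and `big g b j` are impossible: `(1 - 0.809²)² < 1/4`.
* `case2_big`: if `¬ big g a i` then `big g i i'`. Let `x = -g a i ∈ {1/2, √2/2}` (`Diag.not_big`, `c.ai`), `μ = -g i i' > 0`,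
  `g a i' = 0`. Suppose `¬ big g i i'`, so `μ ∈ {1/2, √2/2}` and `x² + μ² ≤ 1`. If `x² + μ² < 1`, `{a, i, i'}` is `PD`:
  `Q(c) = (c_a - x c_i)² + (c_{i'} - μ c_i)² + (1 - x² - μ²) c_i²`. Contradiction to `nA`. If `x² + μ² = 1`
  (both `√2/2`): `h.cpt {a, i, i'}` with `c_a = x, c_i = 1, c_{i'} = μ`: all three sums `∑_j c_j g i j` are zero, so the double sum is
  zero, contradiction. -/

namespace MP86a502

variable {ι : Type} [Fintype ι] [DecidableEq ι] {n : ℕ} {g : ι → ι → ℝ} {T : Finset ι}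
  {i i' j j' a b : ι}

theorem case2_orth (h : Cox n g) (c : Case2 n g T i i' j j' a b) :
    g i b = 0 ∧ g a j = 0 ∧ g i' b = 0 ∧ g a j' = 0 ∧ g i j = 0 := by
  have hne : ∀ {x y : ι}, x ∈ T → y ∉ T → x ≠ y := fun hx hy hxy => hy (hxy ▸ hx)
  have hia : g i a ≠ 0 := by
    rw [h.symm]
    exact c.ai
  refine ⟨?_, ?_, ?_, ?_, c.toStar.orth.1⟩
  · by_contra h0
    exact c.n1 ⟨c.ij, Or.inr ⟨b, Finset.mem_insert_of_mem (Finset.mem_insert_of_mem c.hb),
      ⟨(hne c.hb c.hi).symm, h0⟩, ⟨hne c.hb c.hj, c.bj⟩⟩⟩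
  · by_contra h0
    exact c.n1 ⟨c.ij, Or.inr ⟨a, Finset.mem_insert_of_mem (Finset.mem_insert_of_mem c.ha),
      ⟨(hne c.ha c.hi).symm, hia⟩, ⟨hne c.ha c.hj, h0⟩⟩⟩
  · by_contra h0
    exact c.n3 ⟨c.i'j, Or.inr ⟨b, Finset.mem_insert_of_mem (Finset.mem_insert_of_mem c.hb),
      ⟨(hne c.hb c.hi').symm, h0⟩, ⟨hne c.hb c.hj, c.bj⟩⟩⟩
  · by_contra h0
    exact c.n2 ⟨c.ij', Or.inr ⟨a, Finset.mem_insert_of_mem (Finset.mem_insert_of_mem c.ha),
      ⟨(hne c.ha c.hi).symm, hia⟩, ⟨hne c.ha c.hj', h0⟩⟩⟩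

theorem Cta_lt (h : Cox n g) (c : Case2 n g T i i' j j' a b) :
    -1 < g a i ∧ -1 < g b j ∧ g a i ≤ 0 ∧ g b j ≤ 0 := by
  have hne : ∀ {x y : ι}, x ∈ T → y ∉ T → x ≠ y := fun hx hy hxy => hy (hxy ▸ hx)
  have ho : ∀ x y, x ≠ y → g x y ≤ 0 := fun x y hxy => h.toDiag.nonpos hxy
  have hai : a ≠ i := hne c.ha c.hi
  have hbj : b ≠ j := hne c.hb c.hj
  refine ⟨?_, ?_, ho _ _ hai, ho _ _ hbj⟩
  · rw [← pd_pair h.symm h.diag ho hai]
    refine pd_subset c.v1 ?_
    intro x hx
    rw [Finset.mem_insert, Finset.mem_singleton] at hx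
    rcases hx with rfl | rfl
    · exact Finset.mem_insert_of_mem (Finset.mem_insert_of_mem c.ha)
    · exact Finset.mem_insert_self _ _
  · rw [← pd_pair h.symm h.diag ho hbj]
    refine pd_subset c.v1 ?_
    intro x hx
    rw [Finset.mem_insert, Finset.mem_singleton] at hx
    rcases hx with rfl | rfl
    · exact Finset.mem_insert_of_mem (Finset.mem_insert_of_mem c.hb)
    · exact Finset.mem_insert_of_mem (Finset.mem_insert_self _ _)

theorem case2_det (h : Cox n g) (c : Case2 n g T i i' j j' a b) :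
    1 / 4 < (1 - (g a i) ^ 2) * (1 - (g b j) ^ 2) := by
  have hne : ∀ {x y : ι}, x ∈ T → y ∉ T → x ≠ y := fun hx hy hxy => hy (hxy ▸ hx)
  obtain ⟨oib, oaj, _, _, oij⟩ := case2_orth h c
  obtain ⟨lx, ly, nx, ny⟩ := Cta_lt h c
  have hia : i ≠ a := (hne c.ha c.hi).symm
  have hib : i ≠ b := (hne c.hb c.hi).symm
  have hij : i ≠ j := c.ij
  have hab : a ≠ b := c.hab
  have haj : a ≠ j := hne c.ha c.hj
  have hbj : b ≠ j := hne c.hb c.hj
  have hz : g a b ≤ -(1 / 2) := h.toDiag.half hab c.ab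
  have hx2 : 0 < 1 - (g a i) ^ 2 := by nlinarith
  have hpd : PD g {i, a, b, j} := by
    refine pd_subset c.v1 ?_
    intro x hx
    simp only [Finset.mem_insert, Finset.mem_singleton] at hx ⊢
    rcases hx with rfl | rfl | rfl | rfl
    · exact Or.inl rfl
    · exact Or.inr (Or.inr c.ha)
    · exact Or.inr (Or.inr c.hb)
    · exact Or.inr (Or.inl rfl)
  have hQ := hpd (fun k => if k = i then g a i * g a b else if k = a then - g a b else
    if k = b then 1 - (g a i) ^ 2 else if k = j then - g b j * (1 - (g a i) ^ 2) else 0)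
    ⟨a, by simp, by simp [hia.symm]; intro h0; exact c.ab h0⟩
  have n1 : i ∉ ({a, b, j} : Finset ι) := by simp [hia, hib, hij]
  have n2 : a ∉ ({b, j} : Finset ι) := by simp [hab, haj]
  have n3 : b ∉ ({j} : Finset ι) := by simp [hbj]
  simp only [Finset.sum_insert n1, Finset.sum_insert n2, Finset.sum_insert n3,
    Finset.sum_singleton, if_true, hia, hia.symm, hib, hib.symm, hij, hij.symm, hab, hab.symm,
    haj, haj.symm, hbj, hbj.symm, if_false, h.diag] at hQ
  rw [h.symm i a, h.symm b i, h.symm j i, h.symm j a, h.symm b a, h.symm j b, oib, oij, oaj] at hQ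
  have hQ2 : 0 < (1 - (g a i) ^ 2) * ((1 - (g a i) ^ 2) * (1 - (g b j) ^ 2) - (g a b) ^ 2) := by
    nlinarith [hQ]
  have hQ3 : 0 < (1 - (g a i) ^ 2) * (1 - (g b j) ^ 2) - (g a b) ^ 2 :=
    (mul_pos_iff_of_pos_left hx2).1 hQ2
  nlinarith

theorem case2_not_both (h : Cox n g) (c : Case2 n g T i i' j j' a b) :
    ¬ (big g a i ∧ big g b j) := by
  rintro ⟨h1, h2⟩
  have hd := case2_det h c
  obtain ⟨lx, ly, _, _⟩ := Cta_lt h c
  have b1 := h.toDiag.big_le h1
  have b2 := h.toDiag.big_le h2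
  have e1 : 1 - (g a i) ^ 2 ≤ 2 / 5 := by nlinarith
  have e2 : 1 - (g b j) ^ 2 ≤ 2 / 5 := by nlinarith
  have e3 : 0 < 1 - (g a i) ^ 2 := by nlinarith
  have e4 : 0 < 1 - (g b j) ^ 2 := by nlinarith
  nlinarith

theorem case2_big (h : Cox n g) (c : Case2 n g T i i' j j' a b) (hb : ¬ big g a i) :
    big g i i' := by
  by_contra hb'
  have hne : ∀ {x y : ι}, x ∈ T → y ∉ T → x ≠ y := fun hx hy hxy => hy (hxy ▸ hx)
  have hai : a ≠ i := hne c.ha c.hi
  have hai' : a ≠ i' := hne c.ha c.hi'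
  have hii' : i ≠ i' := c.ii'
  have hs2 : (√2) ^ 2 = 2 := Real.sq_sqrt (by norm_num)
  have hx : g a i ^ 2 = 1 / 4 ∨ g a i ^ 2 = 1 / 2 := by
    rcases h.toDiag.not_big hai hb with h0 | h0 | h0
    · exact absurd h0 c.ai
    · left
      rw [h0]
      norm_num
    · right
      rw [h0]
      nlinarith
  have hm : g i i' ^ 2 = 1 / 4 ∨ g i i' ^ 2 = 1 / 2 := by
    rcases h.toDiag.not_big hii' hb' with h0 | h0 | h0
    · exact absurd h0 c.rr
    · left
      rw [h0]
      norm_num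
    · right
      rw [h0]
      nlinarith
  have hsum : g a i ^ 2 + g i i' ^ 2 ≤ 1 := by
    rcases hx with hx | hx <;> rcases hm with hm | hm <;> rw [hx, hm] <;> norm_num
  have n1 : a ∉ ({i, i'} : Finset ι) := by simp [hai, hai']
  have n2 : i ∉ ({i'} : Finset ι) := by simp [hii']
  have o1 : g a i' = 0 := c.ai'
  have o2 : g i' a = 0 := by rw [h.symm]; exact c.ai'
  rcases hsum.lt_or_eq with hlt | heq
  · refine c.nA fun d hd => ?_
    simp only [Finset.sum_insert n1, Finset.sum_insert n2, Finset.sum_singleton, h.diag]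
    rw [h.symm i a, h.symm i' i, o1, o2]
    have e : d a * d a * 1 + (d a * d i * g a i + d a * d i' * 0) +
        (d i * d a * g a i + (d i * d i * 1 + d i * d i' * g i i') +
          (d i' * d a * 0 + (d i' * d i * g i i' + d i' * d i' * 1))) =
        (d a + g a i * d i) ^ 2 + (d i' + g i i' * d i) ^ 2 +
          (1 - (g a i ^ 2 + g i i' ^ 2)) * d i ^ 2 := by ring
    rw [e]
    by_cases h0 : d i = 0
    · rw [h0]
      obtain ⟨k, hk, hk0⟩ := hd
      simp only [Finset.mem_insert, Finset.mem_singleton] at hk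
      rcases hk with rfl | rfl | rfl
      · have := pow_pos (abs_pos.2 hk0) 2
        rw [sq_abs] at this
        nlinarith [sq_nonneg (d i')]
      · exact absurd h0 hk0
      · have := pow_pos (abs_pos.2 hk0) 2
        rw [sq_abs] at this
        nlinarith [sq_nonneg (d a)]
    · have h1 := pow_pos (abs_pos.2 h0) 2
      rw [sq_abs] at h1
      have h2 : 0 < (1 - (g a i ^ 2 + g i i' ^ 2)) * d i ^ 2 := mul_pos (by linarith) h1
      nlinarith [sq_nonneg (d a + g a i * d i), sq_nonneg (d i' + g i i' * d i)]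
  · have ho : ∀ x y, x ≠ y → g x y ≤ 0 := fun x y hxy => h.toDiag.nonpos hxy
    have hc := h.cpt {a, i, i'} (fun k => if k = a then - g a i else if k = i then 1 else
      if k = i' then - g i i' else 0) ?_ ⟨i, by simp, by simp [hai.symm]⟩ ?_
    · simp only [Finset.sum_insert n1, Finset.sum_insert n2, Finset.sum_singleton, if_true,
        hai, hai.symm, hai', hai'.symm, hii', hii'.symm, if_false, h.diag] at hc
      rw [h.symm i a, h.symm i' i, o1, o2] at hc
      nlinarith [hc]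
    · intro k _
      have := ho _ _ hai
      have := ho _ _ hii'
      split_ifs <;> linarith
    · intro k hk
      simp only [Finset.mem_insert, Finset.mem_singleton] at hk
      simp only [Finset.sum_insert n1, Finset.sum_insert n2, Finset.sum_singleton, if_true,
        hai, hai.symm, hai', hai'.symm, hii', hii'.symm, if_false]
      rcases hk with rfl | rfl | rfl
      · rw [h.diag, o1]
        linarith
      · rw [h.symm k a, h.diag]
        nlinarith
      · rw [h.symm k i, h.diag, o2]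
        linarith

end MP86a502
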