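import Pool.Agent.Lib.MP_86a502_gt.Cta

set_option autoImplicit false
set_option linter.unusedSectionVars false

/-! # JOB Ctb. Number of `Case2` faces of type I (`big g a i`) (120-200 lines)

For `c : Case2 n g T i i' j j' a b` with `big g a i` put `S = insert i (insert j T) ∈ verts`, which contains the `big` ordered pairs
`(i, a)` and `(a, i)`, and the path `i - a - b - j` (`g a i, g a b, g b j ≠ 0`). Both `(S, i, a)`, `(S, a, i)` determine `T`:

Let `c₁`, `c₂` be two such configurations with the same `S` and `{i₁, a₁} = {i₂, a₂}`.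
(A) `i₁ = i₂ = i`, `a₁ = a₂ = a`. If `b₁ ≠ b₂` then `s_bb1` (`big i a`, `a ~ b₁`, `a ~ b₂`) contradicts `PD g S`. So `b₁ = b₂ = b`.
If `j₁ ≠ j₂` then `s_bb2` (`big i a`, `a ~ b`, `b ~ j₁`, `b ~ j₂`) contradicts `PD g S`. So `T₁ = S \ {i, j} = T₂`.
(B) `i₁ = a₂`, `a₁ = i₂`: then `a₁ ~ b₁` and `i₁ = a₂ ~ b₂`, `b₁ ≠ b₂` (`s_cyc3`), and `s_353` (`b₂ ~ i₁`, `big i₁ a₁`, `a₁ ~ b₁`) contradicts
`PD g S`.
Hence the sets of ordered big pairs `{(S, i, a), (S, a, i)}` attached to different `T` are disjoint, and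
`2 |{T}| ≤ ∑_{S ∈ verts} bigP g S`. (E.g. an injective map from `{T} × Bool` to the sigma type / the finset
`(verts n g).sigma (big pairs)`; choose the data of each `T`.) -/

namespace MP86a502

variable {ι : Type} [Fintype ι] [DecidableEq ι] {n : ℕ} {g : ι → ι → ℝ}

theorem typeI_inj (h : Cox n g) {T₁ T₂ : Finset ι} {i₁ i₁' j₁ j₁' a₁ b₁ : ι}
    {i₂ i₂' j₂ j₂' a₂ b₂ : ι} (c₁ : Case2 n g T₁ i₁ i₁' j₁ j₁' a₁ b₁)
    (c₂ : Case2 n g T₂ i₂ i₂' j₂ j₂' a₂ b₂) (hb₁ : big g a₁ i₁) (hb₂ : big g a₂ i₂)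
    (hS : insert i₁ (insert j₁ T₁) = insert i₂ (insert j₂ T₂))
    (he : (i₁ = i₂ ∧ a₁ = a₂) ∨ (i₁ = a₂ ∧ a₁ = i₂)) : T₁ = T₂ := by
  have hd := h.toDiag
  have hpd : PD g (insert i₁ (insert j₁ T₁)) := c₁.v1
  have mem1 : ∀ x ∈ T₁, x ∈ insert i₁ (insert j₁ T₁) := fun x hx =>
    Finset.mem_insert_of_mem (Finset.mem_insert_of_mem hx)
  have mem2 : ∀ x ∈ T₂, x ∈ insert i₁ (insert j₁ T₁) := fun x hx => by
    rw [hS]
    exact Finset.mem_insert_of_mem (Finset.mem_insert_of_mem hx)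
  have memi : i₁ ∈ insert i₁ (insert j₁ T₁) := Finset.mem_insert_self _ _
  have memj : j₁ ∈ insert i₁ (insert j₁ T₁) :=
    Finset.mem_insert_of_mem (Finset.mem_insert_self _ _)
  have memj2 : j₂ ∈ insert i₁ (insert j₁ T₁) := by
    rw [hS]
    exact Finset.mem_insert_of_mem (Finset.mem_insert_self _ _)
  have hia : i₁ ≠ a₁ := fun e => c₁.hi (e ▸ c₁.ha)
  have hib : i₁ ≠ b₁ := fun e => c₁.hi (e ▸ c₁.hb)
  have hja : j₁ ≠ a₁ := fun e => c₁.hj (e ▸ c₁.ha)
  have hjb : j₁ ≠ b₁ := fun e => c₁.hj (e ▸ c₁.hb)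
  have hia2 : i₂ ≠ a₂ := fun e => c₂.hi (e ▸ c₂.ha)
  have hib2 : i₂ ≠ b₂ := fun e => c₂.hi (e ▸ c₂.hb)
  have hja2 : j₂ ≠ a₂ := fun e => c₂.hj (e ▸ c₂.ha)
  have hjb2 : j₂ ≠ b₂ := fun e => c₂.hj (e ▸ c₂.hb)
  have hbig : big g i₁ a₁ := hd.big_comm.1 hb₁
  have hab1 : adj g a₁ b₁ := ⟨c₁.hab, c₁.ab⟩
  have hab2 : adj g a₂ b₂ := ⟨c₂.hab, c₂.ab⟩
  have hbj1 : adj g b₁ j₁ := ⟨hjb.symm, c₁.bj⟩
  have hbj2 : adj g b₂ j₂ := ⟨hjb2.symm, c₂.bj⟩
  rcases he with ⟨e1, e2⟩ | ⟨e1, e2⟩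
  · subst e1
    subst e2
    have hbb : b₁ = b₂ := by
      by_contra hne
      refine s_bb1 hd hbig hab1 hab2 ?_ (pd_subset hpd ?_)
      · simp [hia, hib, hib2, hab1.1, hab2.1, hne]
      · intro x hx
        simp only [Finset.mem_insert, Finset.mem_singleton] at hx
        rcases hx with rfl | rfl | rfl | rfl
        · exact memi
        · exact mem1 _ c₁.ha
        · exact mem1 _ c₁.hb
        · exact mem2 _ c₂.hb
    subst hbb
    have hjj : j₁ = j₂ := by
      by_contra hne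
      refine s_bb2 hd hbig hab1 hbj1 hbj2 ?_ (pd_subset hpd ?_)
      · simp [hia, hib, hab1.1, hne, c₁.ij, c₂.ij, hja.symm, hja2.symm, hjb.symm, hjb2.symm]
      · intro x hx
        simp only [Finset.mem_insert, Finset.mem_singleton] at hx
        rcases hx with rfl | rfl | rfl | rfl | rfl
        · exact memi
        · exact mem1 _ c₁.ha
        · exact mem1 _ c₁.hb
        · exact memj
        · exact memj2
    subst hjj
    have hi1 : i₁ ∉ insert j₁ T₁ := by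
      simp [c₁.ij, c₁.hi]
    have hi2 : i₁ ∉ insert j₁ T₂ := by
      simp [c₁.ij, c₂.hi]
    have h1 : insert j₁ T₁ = insert j₁ T₂ := by
      rw [← Finset.erase_insert hi1, hS, Finset.erase_insert hi2]
    rw [← Finset.erase_insert c₁.hj, h1, Finset.erase_insert c₂.hj]
  · exfalso
    subst e1
    subst e2
    have hib' : adj g i₁ b₂ := hab2
    have hbb : b₁ ≠ b₂ := by
      intro e
      subst e
      refine s_cyc3 hd (big_adj hbig) hab1 hib' (pd_subset hpd ?_)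
      intro x hx
      simp only [Finset.mem_insert, Finset.mem_singleton] at hx
      rcases hx with rfl | rfl | rfl
      · exact memi
      · exact mem1 _ c₁.ha
      · exact mem1 _ c₁.hb
    refine s_353 hd (hd.adj_comm.1 hib') hbig hab1 ?_ (pd_subset hpd ?_)
    · simp [hab2.1.symm, hib2.symm, hbb.symm, hia, hib, hab1.1]
    · intro x hx
      simp only [Finset.mem_insert, Finset.mem_singleton] at hx
      rcases hx with rfl | rfl | rfl | rfl
      · exact mem2 _ c₂.hb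
      · exact memi
      · exact mem1 _ c₁.ha
      · exact mem1 _ c₁.hb

open scoped Classical in
theorem typeI_cnt (h : Cox n g) :
    2 * ((faces2 n g).filter
      (fun T => ∃ i i' j j' a b, Case2 n g T i i' j j' a b ∧ big g a i)).card ≤
      ∑ S ∈ verts n g, bigP g S := by
  set E : Finset (Σ _ : Finset ι, ι × ι) :=
    (verts n g).sigma fun S => (S ×ˢ S).filter (fun p => big g p.1 p.2) with hE
  have hEcard : E.card = ∑ S ∈ verts n g, bigP g S := by
    rw [hE, Finset.card_sigma]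
    rfl
  let R : Finset ι → (Σ _ : Finset ι, ι × ι) → Prop := fun T e =>
    ∃ i i' j j' a b, Case2 n g T i i' j j' a b ∧ big g a i ∧ e.1 = insert i (insert j T) ∧
      ((e.2.1 = i ∧ e.2.2 = a) ∨ (e.2.1 = a ∧ e.2.2 = i))
  have hmain := Finset.card_mul_le_card_mul (s := (faces2 n g).filter
      (fun T => ∃ i i' j j' a b, Case2 n g T i i' j j' a b ∧ big g a i)) (t := E) R
      (m := 2) (n := 1) ?_ ?_
  · rw [← hEcard]
    linarith
  · intro T hT
    rw [Finset.mem_filter] at hT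
    obtain ⟨_, i, i', j, j', a, b, c, hb⟩ := hT
    have hia : i ≠ a := fun e => c.hi (e ▸ c.ha)
    have hbig : big g i a := h.toDiag.big_comm.1 hb
    have hij : i ∉ insert j T := by simp [c.ij, c.hi]
    have hv : insert i (insert j T) ∈ verts n g := by
      rw [mem_verts]
      refine ⟨?_, c.v1⟩
      rw [Finset.card_insert_of_notMem hij, Finset.card_insert_of_notMem c.hj]
      have := c.face
      omega
    have mi : i ∈ insert i (insert j T) := Finset.mem_insert_self _ _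
    have ma : a ∈ insert i (insert j T) :=
      Finset.mem_insert_of_mem (Finset.mem_insert_of_mem c.ha)
    set e1 : (Σ _ : Finset ι, ι × ι) := ⟨insert i (insert j T), (i, a)⟩ with he1
    set e2 : (Σ _ : Finset ι, ι × ι) := ⟨insert i (insert j T), (a, i)⟩ with he2
    have hne : e1 ≠ e2 := by
      intro he
      rw [he1, he2] at he
      simp only [Sigma.mk.injEq, heq_eq_eq, Prod.mk.injEq, true_and] at he
      exact hia he.1
    have hsub : ({e1, e2} : Finset (Σ _ : Finset ι, ι × ι)) ⊆ E.bipartiteAbove R T := by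
      intro e he
      rw [Finset.mem_bipartiteAbove]
      simp only [Finset.mem_insert, Finset.mem_singleton] at he
      rcases he with rfl | rfl
      · refine ⟨?_, i, i', j, j', a, b, c, hb, rfl, Or.inl ⟨rfl, rfl⟩⟩
        rw [hE, Finset.mem_sigma]
        refine ⟨hv, ?_⟩
        rw [Finset.mem_filter, Finset.mem_product]
        exact ⟨⟨mi, ma⟩, hbig⟩
      · refine ⟨?_, i, i', j, j', a, b, c, hb, rfl, Or.inr ⟨rfl, rfl⟩⟩
        rw [hE, Finset.mem_sigma]
        refine ⟨hv, ?_⟩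
        rw [Finset.mem_filter, Finset.mem_product]
        exact ⟨⟨ma, mi⟩, hb⟩
    calc 2 = ({e1, e2} : Finset (Σ _ : Finset ι, ι × ι)).card := (Finset.card_pair hne).symm
      _ ≤ _ := Finset.card_le_card hsub
  · intro e _
    rw [Finset.card_le_one]
    intro T₁ h₁ T₂ h₂
    rw [Finset.mem_bipartiteBelow] at h₁ h₂
    obtain ⟨_, i₁, i₁', j₁, j₁', a₁, b₁, c₁, hb₁, hS₁, hp₁⟩ := h₁
    obtain ⟨_, i₂, i₂', j₂, j₂', a₂, b₂, c₂, hb₂, hS₂, hp₂⟩ := h₂
    refine typeI_inj h c₁ c₂ hb₁ hb₂ (hS₁.symm.trans hS₂) ?_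
    rcases hp₁ with ⟨x1, y1⟩ | ⟨x1, y1⟩ <;> rcases hp₂ with ⟨x2, y2⟩ | ⟨x2, y2⟩
    · exact Or.inl ⟨x1.symm.trans x2, y1.symm.trans y2⟩
    · exact Or.inr ⟨x1.symm.trans x2, y1.symm.trans y2⟩
    · exact Or.inr ⟨y1.symm.trans y2, x1.symm.trans x2⟩
    · exact Or.inl ⟨y1.symm.trans y2, x1.symm.trans x2⟩

end MP86a502
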