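import Pool.Agent.Lib.MP_86a502_gt.Sti

set_option autoImplicit false
set_option linter.unusedSectionVars false

/-! # JOB Lmx. Local maxima: connectedness of 2-faces (120-200 lines, pure finite combinatorics)

`LM n g h` : on every 2-face a local maximum of `h` is a strict global maximum.
`Edge n g`: every edge has exactly two end points.

* `nbr_exists`: for `S ∈ verts`, `i ∈ S` there is exactly one `S' ∈ verts` with `S' ≠ S`, `S.erase i ⊆ S'`
  (by `Edge` for `S.erase i`, which contains one of `u, v` equal to `i`; the other one is not in `S`), and then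
  `(S ∩ S').card + 1 = n` and `i ∉ S'`.
* `lm_conn`: `T ∈ faces2`, `C ⊆ ov T` nonempty and closed under neighbours. Let `M ∈ C` maximise `h` on `C`. All
  neighbours of `M` in `ov T` lie in `C` and are different from `M`, so have smaller `h` (injectivity `hinj`); by `LM`, `M` is the
  strict maximum of `h` on `ov T`. If `C ≠ ov T`, then `D = ov T \ C` is nonempty and closed under neighbours too
  (the neighbour relation is symmetric), so by the same argument its maximum is the strict global maximum. Contradiction. -/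

namespace MP86a502

variable {ι : Type} [Fintype ι] [DecidableEq ι]

/-- A local maximum of `h` on a 2-face is the strict global maximum. -/
def LM (n : ℕ) (g : ι → ι → ℝ) (h : Finset ι → ℝ) : Prop :=
  ∀ T ∈ faces2 n g, ∀ S ∈ ov n g T, (∀ S' ∈ ov n g T, (S ∩ S').card + 1 = n → h S' < h S) →
    ∀ S' ∈ ov n g T, S' ≠ S → h S' < h S

/-- Every edge has exactly two end points. -/
def Edge (n : ℕ) (g : ι → ι → ℝ) : Prop :=
  ∀ T : Finset ι, PD g T → T.card + 1 = n →
    ∃ u v : ι, u ≠ v ∧ ∀ w : ι, (w ∉ T ∧ PD g (insert w T)) ↔ (w = u ∨ w = v)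

variable {n : ℕ} {g : ι → ι → ℝ}

theorem nbr_exists (he : Edge n g) {S : Finset ι} (hS : S ∈ verts n g) {i : ι} (hi : i ∈ S) :
    ∃ u : ι, u ∉ S ∧ insert u (S.erase i) ∈ verts n g ∧
      ∀ S' ∈ verts n g, S' ≠ S → S.erase i ⊆ S' → S' = insert u (S.erase i) := by
  obtain ⟨hcard, hpd⟩ := mem_verts.1 hS
  have hT : PD g (S.erase i) := pd_subset hpd (Finset.erase_subset _ _)
  have hTc : (S.erase i).card + 1 = n := by
    rw [Finset.card_erase_add_one hi, hcard]
  obtain ⟨u, v, huv, hw⟩ := he (S.erase i) hT hTc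
  have key : ∃ x : ι, x ≠ i ∧ (x = u ∨ x = v) ∧ ∀ w, (w = u ∨ w = v) → w ≠ i → w = x := by
    have hi2 : i = u ∨ i = v := by
      rw [← hw i]
      refine ⟨Finset.notMem_erase i S, ?_⟩
      rw [Finset.insert_erase hi]
      exact hpd
    rcases hi2 with h | h
    · refine ⟨v, ?_, Or.inr rfl, ?_⟩
      · rw [h]
        exact huv.symm
      · intro w h1 h2
        rcases h1 with h1 | h1
        · exact absurd (h1.trans h.symm) h2
        · exact h1
    · refine ⟨u, ?_, Or.inl rfl, ?_⟩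
      · rw [h]
        exact huv
      · intro w h1 h2
        rcases h1 with h1 | h1
        · exact h1
        · exact absurd (h1.trans h.symm) h2
  obtain ⟨x, hxi, hx, hx2⟩ := key
  obtain ⟨hx3, hx4⟩ := (hw x).2 hx
  refine ⟨x, ?_, ?_, ?_⟩
  · intro h
    exact hx3 (Finset.mem_erase.2 ⟨hxi, h⟩)
  · rw [mem_verts]
    refine ⟨?_, hx4⟩
    rw [Finset.card_insert_of_notMem hx3]
    exact hTc
  · intro S' hS' hne hsub
    obtain ⟨hcard', hpd'⟩ := mem_verts.1 hS'
    obtain ⟨w, hwT, hwS⟩ := Finset.exists_eq_insert_iff.2 ⟨hsub, hTc.trans hcard'.symm⟩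
    have h1 : w = u ∨ w = v := (hw w).1 ⟨hwT, hwS ▸ hpd'⟩
    have h2 : w ≠ i := by
      intro h
      apply hne
      rw [← hwS, h, Finset.insert_erase hi]
    rw [← hwS, hx2 w h1 h2]

/-- A nonempty set of vertices of a 2-face, closed under neighbours, contains the strict global
maximum. -/
theorem lmx_max {h : Finset ι → ℝ} (hlm : LM n g h)
    (hinj : ∀ S ∈ verts n g, ∀ S' ∈ verts n g, h S = h S' → S = S')
    (T : Finset ι) (hT : T ∈ faces2 n g) (C : Finset (Finset ι)) (hC : C ⊆ ov n g T)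
    (hne : C.Nonempty)
    (hcl : ∀ S ∈ C, ∀ S' ∈ ov n g T, (S ∩ S').card + 1 = n → S' ∈ C) :
    ∃ M ∈ C, ∀ S' ∈ ov n g T, S' ≠ M → h S' < h M := by
  obtain ⟨M, hM, hmax⟩ := C.exists_max_image h hne
  refine ⟨M, hM, hlm T hT M (hC hM) ?_⟩
  intro S' hS' hcard
  have h1 : S' ∈ C := hcl M hM S' hS' hcard
  have hMv := (mem_ov.1 (hC hM)).1
  have h2 : S' ≠ M := by
    rintro rfl
    rw [Finset.inter_self] at hcard
    have := hMv.1
    omega
  refine lt_of_le_of_ne (hmax S' h1) ?_
  intro h3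
  exact h2 (hinj S' (mem_verts.2 (mem_ov.1 hS').1) M (mem_verts.2 hMv) h3)

theorem lm_conn {h : Finset ι → ℝ} (hlm : LM n g h)
    (hinj : ∀ S ∈ verts n g, ∀ S' ∈ verts n g, h S = h S' → S = S')
    (T : Finset ι) (hT : T ∈ faces2 n g) (C : Finset (Finset ι)) (hC : C ⊆ ov n g T)
    (hne : C.Nonempty)
    (hcl : ∀ S ∈ C, ∀ S' ∈ ov n g T, (S ∩ S').card + 1 = n → S' ∈ C) : C = ov n g T := by
  by_contra hCne
  obtain ⟨M, hM, hM2⟩ := lmx_max hlm hinj T hT C hC hne hcl
  have hD : (ov n g T \ C).Nonempty := by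
    rw [Finset.sdiff_nonempty]
    exact fun h => hCne (Finset.Subset.antisymm hC h)
  obtain ⟨M', hM', hM2'⟩ := lmx_max hlm hinj T hT (ov n g T \ C) Finset.sdiff_subset hD (by
    intro S hS S' hS' hcard
    obtain ⟨h1, h2⟩ := Finset.mem_sdiff.1 hS
    refine Finset.mem_sdiff.2 ⟨hS', fun h3 => h2 (hcl S' h3 S h1 ?_)⟩
    rw [Finset.inter_comm]
    exact hcard)
  obtain ⟨h1, h2⟩ := Finset.mem_sdiff.1 hM'
  have h3 : M' ≠ M := by
    rintro rfl
    exact h2 hM
  exact lt_asymm (hM2 M' h1 h3) (hM2' M (hC hM) h3.symm)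

end MP86a502
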