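import Pool.Agent.Lib.MP_86a502_gt.Cta
import Pool.Agent.Lib.MP_86a502_gt.Lmx

set_option autoImplicit false
set_option linter.unusedSectionVars false

/-! # JOB Ctc. Number of `Case2` faces of type II (`¬ big g a i`, `¬ big g b j`) (200-300 lines)

Let `c : Case2 n g T i i' j j' a b`, `¬ big g a i`, `¬ big g b j`. By `case2_big`: `big g i i'` (and by `Case2.swap` `big g j j'`). Put
`u = insert i (insert i' (insert j (T.erase a)))`, which is `PD` (`star_pd3`) with `n` elements, so `u ∈ verts`, and `(i, i')` is an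
ordered big pair of `u`. The code of `c` is `(u, i, i', j)`.

(1) `code_T`: the code determines `T` and `a`: `insert a (u.erase i') = insert i (insert j T) ∈ verts`, `a ∉ u`; by `nbr_exists`
  (`Edge n g` is `h.edge`) for `u`, `i' ∈ u`, there is exactly one vertex `≠ u` containing `u.erase i'`, so `a` is determined by `(u, i')`. And
  `T = insert a (((u.erase i).erase i').erase j)`.
(2) `code_orient`: codes `(u, i, i', j)` and `(u, i', i, j₂)` cannot both occur: `a` is determined by `(u, i')`; it is also determined by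
  `(u, i)`, since `insert a (u.erase i) = insert i' (insert j T) ∈ verts` (`v3`). In the first code `a` is the neighbour of `u` at `i` and at
  `i'`, `g a i ≠ 0`, `g a i' = 0`; in the second code the corresponding `a₂` is the same element, and `g a₂ i' ≠ 0`. Contradiction.
(3) `code_two`: for fixed `(u, i, i')` there are at most two `j`: the element `a` and `S = insert a (u.erase i') ∈ verts` are fixed,
  for every such `j` there is `b` (`∈ S`) with `i - a - b - j` a path in `S` (`g i a, g a b, g b j ≠ 0`, `b ∉ {i, a}`, `j ∉ {i, a, b}`) . Suppose there are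
  three different `j₁, j₂, j₃` with `b₁, b₂, b₃`. If all `b` are equal: `s_d4` (center `b`, leaves `a, j₁, j₂, j₃`). If
  exactly two are equal, say `b₁ = b₂ ≠ b₃`: `s_d5` (`z = a`, `w = b₁`, leaves `i, b₃` and `j₁, j₂`; the six elements are different:
  `b₃ ≠ j₁`: otherwise `a, b₁, b₃` is a triangle (`s_cyc3`); same for `j₂`.) If all are different: `s_d4` (center `a`, leaves `i, b₁, b₂, b₃`).
(4) The set `K` of all codes of all type II configurations has at least `2 |{T}|` elements: each `T` has the code `(u, i, i', j)` of `c` and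
  the code of `Case2.swap c`, `(u₃, j, j', i)`; they are different as `i ≠ j`; codes of different `T` are different by (1).
  The projection of `K` to `(u, i, i')` has fibres with at most two elements by (3), and its image `Im` is disjoint from its mirror
  `{(u, i', i)}` by (2), so `2 |Im| ≤ ∑_u bigP g u`. Hence `2 |{T}| ≤ |K| ≤ 2 |Im| ≤ ∑_u bigP g u`. -/

namespace MP86a502

variable {ι : Type} [Fintype ι] [DecidableEq ι] {n : ℕ} {g : ι → ι → ℝ}

/-- `(u, i, i', j)` is the code of a type II configuration on the face `T`, with middle `a`. -/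
def Code (n : ℕ) (g : ι → ι → ℝ) (T : Finset ι) (u : Finset ι) (i i' j a : ι) : Prop :=
  ∃ j' b, Case2 n g T i i' j j' a b ∧ ¬ big g a i ∧ ¬ big g b j ∧
    u = insert i (insert i' (insert j (T.erase a)))

/-- The basic facts about a code. -/
theorem ctc_basic (h : Cox n g) (hs : Small3 g) {T u : Finset ι} {i i' j j' a b : ι}
    (c : Case2 n g T i i' j j' a b) (hu : u = insert i (insert i' (insert j (T.erase a)))) :
    u ∈ verts n g ∧ a ∉ u ∧ insert a (u.erase i') = insert i (insert j T) ∧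
      insert a (u.erase i) = insert i' (insert j T) ∧
      insert i (insert j T) ∈ verts n g ∧ insert i' (insert j T) ∈ verts n g ∧
      T = insert a (((u.erase i).erase i').erase j) := by
  have hiT := c.hi
  have hiT' := c.hi'
  have hjT := c.hj
  have haT := c.ha
  have hii' := c.ii'
  have hij := c.ij
  have hi'j := c.i'j
  have hcard : T.card + 2 = n := c.face
  have hai : a ≠ i := fun e => hiT (e ▸ haT)
  have hai' : a ≠ i' := fun e => hiT' (e ▸ haT)
  have haj : a ≠ j := fun e => hjT (e ▸ haT)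
  have e1 : j ∉ T.erase a := fun hh => hjT (Finset.mem_of_mem_erase hh)
  have e2 : i' ∉ insert j (T.erase a) := by
    rw [Finset.mem_insert, not_or]
    exact ⟨hi'j, fun hh => hiT' (Finset.mem_of_mem_erase hh)⟩
  have e3 : i ∉ insert i' (insert j (T.erase a)) := by
    rw [Finset.mem_insert, Finset.mem_insert, not_or, not_or]
    exact ⟨hii', hij, fun hh => hiT (Finset.mem_of_mem_erase hh)⟩
  have hTe : (T.erase a).card + 1 = T.card := Finset.card_erase_add_one haT
  have hucard : u.card = n := by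
    rw [hu, Finset.card_insert_of_notMem e3, Finset.card_insert_of_notMem e2,
      Finset.card_insert_of_notMem e1]
    omega
  have hupd : PD g u := by
    rw [hu]
    exact star_pd3 h hs c.toStar haT c.uA c.pr
  have huv : u ∈ verts n g := mem_verts.2 ⟨hucard, hupd⟩
  have hmem : ∀ x, x ∈ u ↔ (x = i ∨ x = i' ∨ x = j ∨ (x ≠ a ∧ x ∈ T)) := by
    intro x
    rw [hu]
    simp only [Finset.mem_insert, Finset.mem_erase]
  have hau : a ∉ u := by
    rw [hmem]
    rintro (e | e | e | e)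
    · exact hai e
    · exact hai' e
    · exact haj e
    · exact e.1 rfl
  refine ⟨huv, hau, ?_, ?_, ?_, ?_, ?_⟩
  · ext x
    simp only [Finset.mem_insert, Finset.mem_erase, hmem]
    constructor
    · rintro (e | ⟨e1, e | e | e | e⟩)
      · right; right; rw [e]; exact haT
      · left; exact e
      · exact absurd e e1
      · right; left; exact e
      · right; right; exact e.2
    · rintro (e | e | e)
      · right; refine ⟨?_, Or.inl e⟩; rw [e]; exact hii'
      · right; refine ⟨?_, Or.inr (Or.inr (Or.inl e))⟩; rw [e]; exact hi'j.symm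
      · by_cases hxa : x = a
        · left; exact hxa
        · right
          refine ⟨?_, Or.inr (Or.inr (Or.inr ⟨hxa, e⟩))⟩
          rintro rfl
          exact hiT' e
  · ext x
    simp only [Finset.mem_insert, Finset.mem_erase, hmem]
    constructor
    · rintro (e | ⟨e1, e | e | e | e⟩)
      · right; right; rw [e]; exact haT
      · exact absurd e e1
      · left; exact e
      · right; left; exact e
      · right; right; exact e.2
    · rintro (e | e | e)
      · right; refine ⟨?_, Or.inr (Or.inl e)⟩; rw [e]; exact hii'.symm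
      · right; refine ⟨?_, Or.inr (Or.inr (Or.inl e))⟩; rw [e]; exact hij.symm
      · by_cases hxa : x = a
        · left; exact hxa
        · right
          refine ⟨?_, Or.inr (Or.inr (Or.inr ⟨hxa, e⟩))⟩
          rintro rfl
          exact hiT e
  · refine mem_verts.2 ⟨?_, c.v1⟩
    rw [Finset.card_insert_of_notMem, Finset.card_insert_of_notMem hjT]
    · omega
    · rw [Finset.mem_insert, not_or]; exact ⟨hij, hiT⟩
  · refine mem_verts.2 ⟨?_, c.v3⟩
    rw [Finset.card_insert_of_notMem, Finset.card_insert_of_notMem hjT]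
    · omega
    · rw [Finset.mem_insert, not_or]; exact ⟨hi'j, hiT'⟩
  · ext x
    simp only [Finset.mem_insert, Finset.mem_erase, hmem]
    constructor
    · intro hx
      by_cases hxa : x = a
      · left; exact hxa
      · right
        refine ⟨?_, ?_, ?_, Or.inr (Or.inr (Or.inr ⟨hxa, hx⟩))⟩
        · rintro rfl; exact hjT hx
        · rintro rfl; exact hiT' hx
        · rintro rfl; exact hiT hx
    · rintro (e | ⟨e1, e2, e3, e | e | e | e⟩)
      · rw [e]; exact haT
      · exact absurd e e3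
      · exact absurd e e2
      · exact absurd e e1
      · exact e.2

/-- Uniqueness of the neighbour. -/
theorem ctc_uniq (h : Cox n g) {u : Finset ι} (hu : u ∈ verts n g) {k : ι} (hk : k ∈ u)
    {a₁ a₂ : ι} (h1 : a₁ ∉ u) (h2 : a₂ ∉ u) (hv1 : insert a₁ (u.erase k) ∈ verts n g)
    (hv2 : insert a₂ (u.erase k) ∈ verts n g) : a₁ = a₂ := by
  obtain ⟨w, _, _, hw⟩ := nbr_exists h.edge hu hk
  have ha : ∀ a, a ∉ u → insert a (u.erase k) ∈ verts n g → a = w := by
    intro a hau hav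
    have hne : insert a (u.erase k) ≠ u := by
      intro e
      exact hau (e ▸ Finset.mem_insert_self a _)
    have e1 := hw _ hav hne (Finset.subset_insert _ _)
    have e2 : a ∈ insert w (u.erase k) := e1 ▸ Finset.mem_insert_self a _
    rcases Finset.mem_insert.1 e2 with e3 | e3
    · exact e3
    · exact absurd (Finset.mem_of_mem_erase e3) hau
  rw [ha a₁ h1 hv1, ha a₂ h2 hv2]

theorem code_mem (h : Cox n g) (hs : Small3 g) {T u : Finset ι} {i i' j a : ι}
    (c : Code n g T u i i' j a) :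
    T ∈ faces2 n g ∧ u ∈ verts n g ∧ i ∈ u ∧ i' ∈ u ∧ j ∈ u ∧ i ≠ j ∧ big g i i' := by
  obtain ⟨j', b, c, hb1, _, hu⟩ := c
  obtain ⟨huv, _⟩ := ctc_basic h hs c hu
  refine ⟨mem_faces2.2 ⟨c.face, c.pd⟩, huv, ?_, ?_, ?_, c.ij, case2_big h c hb1⟩
  · rw [hu]; exact Finset.mem_insert_self _ _
  · rw [hu]; exact Finset.mem_insert_of_mem (Finset.mem_insert_self _ _)
  · rw [hu]
    exact Finset.mem_insert_of_mem (Finset.mem_insert_of_mem (Finset.mem_insert_self _ _))

theorem code_T (h : Cox n g) (hs : Small3 g) {T₁ T₂ u : Finset ι} {i i' j₁ j₂ a₁ a₂ : ι}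
    (c₁ : Code n g T₁ u i i' j₁ a₁) (c₂ : Code n g T₂ u i i' j₂ a₂) :
    a₁ = a₂ ∧ (j₁ = j₂ → T₁ = T₂) := by
  have hi' : i' ∈ u := (code_mem h hs c₁).2.2.2.1
  obtain ⟨j₁', b₁, c₁, _, _, hu₁⟩ := c₁
  obtain ⟨j₂', b₂, c₂, _, _, hu₂⟩ := c₂
  obtain ⟨huv, ha1, e1, _, v1, _, hT1⟩ := ctc_basic h hs c₁ hu₁
  obtain ⟨_, ha2, e2, _, v2, _, hT2⟩ := ctc_basic h hs c₂ hu₂
  have haa : a₁ = a₂ := by
    refine ctc_uniq h huv hi' ha1 ha2 ?_ ?_
    · rw [e1]; exact v1
    · rw [e2]; exact v2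
  refine ⟨haa, fun hj => ?_⟩
  rw [hT1, hT2, haa, hj]

theorem code_orient (h : Cox n g) (hs : Small3 g) {T₁ T₂ u : Finset ι} {i i' j₁ j₂ a₁ a₂ : ι}
    (c₁ : Code n g T₁ u i i' j₁ a₁) (c₂ : Code n g T₂ u i' i j₂ a₂) : False := by
  have hi : i ∈ u := (code_mem h hs c₁).2.2.1
  obtain ⟨j₁', b₁, c₁, _, _, hu₁⟩ := c₁
  obtain ⟨j₂', b₂, c₂, _, _, hu₂⟩ := c₂
  obtain ⟨huv, ha1, _, e1, _, v1, _⟩ := ctc_basic h hs c₁ hu₁
  obtain ⟨_, ha2, e2, _, v2, _, _⟩ := ctc_basic h hs c₂ hu₂
  have haa : a₁ = a₂ := by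
    refine ctc_uniq h huv hi ha1 ha2 ?_ ?_
    · rw [e1]; exact v1
    · rw [e2]; exact v2
  have h1 := c₁.ai'
  have h2 := c₂.ai
  rw [haa] at h1
  exact h2 h1

/-- The path of a code. -/
theorem ctc_path (h : Cox n g) (hs : Small3 g) {T u : Finset ι} {i i' j a : ι}
    (c : Code n g T u i i' j a) :
    PD g (insert a (u.erase i')) ∧ i ∈ insert a (u.erase i') ∧ j ∈ insert a (u.erase i') ∧
      adj g a i ∧ i ≠ j ∧ a ≠ j ∧ g a j = 0 ∧
      ∃ b, b ∈ insert a (u.erase i') ∧ adj g a b ∧ adj g b j ∧ b ≠ i := by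
  obtain ⟨j', b, c, _, _, hu⟩ := c
  obtain ⟨_, _, e, _, v, _, _⟩ := ctc_basic h hs c hu
  rw [e]
  have hai : a ≠ i := fun e => c.hi (e ▸ c.ha)
  have haj : a ≠ j := fun e => c.hj (e ▸ c.ha)
  have hbi : b ≠ i := fun e => c.hi (e ▸ c.hb)
  have hbj : b ≠ j := fun e => c.hj (e ▸ c.hb)
  refine ⟨c.v1, Finset.mem_insert_self _ _,
    Finset.mem_insert_of_mem (Finset.mem_insert_self _ _), ⟨hai, c.ai⟩, c.ij, haj,
    (case2_orth h c).2.1, b, ?_, ⟨c.hab, c.ab⟩, ⟨hbj, c.bj⟩, hbi⟩
  exact Finset.mem_insert_of_mem (Finset.mem_insert_of_mem c.hb)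

/-- Exactly two of the `b` are equal. -/
theorem ctc_d5 (h : Cox n g) {S : Finset ι} (hS : PD g S) {a b i b₃ j₁ j₂ : ι}
    (ha : a ∈ S) (hb : b ∈ S) (hi : i ∈ S) (hb3 : b₃ ∈ S) (hj1 : j₁ ∈ S) (hj2 : j₂ ∈ S)
    (hai : adj g a i) (hab : adj g a b) (hbj1 : adj g b j₁) (hbj2 : adj g b j₂)
    (hab3 : adj g a b₃) (hbi : b ≠ i) (hb3i : b₃ ≠ i) (hbb : b ≠ b₃) (hij1 : i ≠ j₁)
    (hij2 : i ≠ j₂) (haj1 : a ≠ j₁) (haj2 : a ≠ j₂) (h1 : g a j₁ = 0) (h2 : g a j₂ = 0)
    (hj12 : j₁ ≠ j₂) : False := by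
  have hb3j1 : b₃ ≠ j₁ := by
    rintro rfl
    exact hab3.2 h1
  have hb3j2 : b₃ ≠ j₂ := by
    rintro rfl
    exact hab3.2 h2
  have hnd : [a, b, i, b₃, j₁, j₂].Nodup := by
    simp only [List.nodup_cons, List.mem_cons, List.not_mem_nil, or_false, not_or,
      not_false_eq_true, List.nodup_nil, and_true]
    exact ⟨⟨hab.1, hai.1, hab3.1, haj1, haj2⟩, ⟨hbi, hbb, hbj1.1, hbj2.1⟩,
      ⟨hb3i.symm, hij1, hij2⟩, ⟨hb3j1, hb3j2⟩, hj12⟩
  refine s_d5 h.toDiag hab hai hab3 hbj1 hbj2 hnd (pd_subset hS ?_)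
  intro x hx
  simp only [Finset.mem_insert, Finset.mem_singleton] at hx
  rcases hx with rfl | rfl | rfl | rfl | rfl | rfl <;> assumption

theorem code_two (h : Cox n g) (hs : Small3 g) {T₁ T₂ T₃ u : Finset ι}
    {i i' j₁ j₂ j₃ a₁ a₂ a₃ : ι} (c₁ : Code n g T₁ u i i' j₁ a₁)
    (c₂ : Code n g T₂ u i i' j₂ a₂) (c₃ : Code n g T₃ u i i' j₃ a₃) :
    j₁ = j₂ ∨ j₁ = j₃ ∨ j₂ = j₃ := by
  have e12 := (code_T h hs c₁ c₂).1
  have e13 := (code_T h hs c₁ c₃).1
  subst e12
  subst e13
  by_contra hcon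
  rw [not_or, not_or] at hcon
  obtain ⟨hj12, hj13, hj23⟩ := hcon
  obtain ⟨hS, hi, hj1, hai, hij1, haj1, hg1, b₁, hb1, hab1, hbj1, hbi1⟩ := ctc_path h hs c₁
  obtain ⟨-, -, hj2, -, hij2, haj2, hg2, b₂, hb2, hab2, hbj2, hbi2⟩ := ctc_path h hs c₂
  obtain ⟨-, -, hj3, -, hij3, haj3, hg3, b₃, hb3, hab3, hbj3, hbi3⟩ := ctc_path h hs c₃
  have ha : a₁ ∈ insert a₁ (u.erase i') := Finset.mem_insert_self _ _
  by_cases e12 : b₁ = b₂
  · subst e12
    by_cases e13 : b₁ = b₃
    · subst e13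
      refine s_d4 h.toDiag ((h.toDiag.adj_comm).1 hab1) hbj1 hbj2 hbj3 haj1 haj2 haj3 hj12 hj13
        hj23 (pd_subset hS ?_)
      intro x hx
      simp only [Finset.mem_insert, Finset.mem_singleton] at hx
      rcases hx with rfl | rfl | rfl | rfl | rfl <;> assumption
    · exact ctc_d5 h hS ha hb1 hi hb3 hj1 hj2 hai hab1 hbj1 hbj2 hab3 hbi1 hbi3 e13 hij1 hij2
        haj1 haj2 hg1 hg2 hj12
  · by_cases e13 : b₁ = b₃
    · subst e13
      exact ctc_d5 h hS ha hb1 hi hb2 hj1 hj3 hai hab1 hbj1 hbj3 hab2 hbi1 hbi2 e12 hij1 hij3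
        haj1 haj3 hg1 hg3 hj13
    · by_cases e23 : b₂ = b₃
      · subst e23
        exact ctc_d5 h hS ha hb2 hi hb1 hj2 hj3 hai hab2 hbj2 hbj3 hab1 hbi2 hbi1
          (fun e => e12 e.symm) hij2 hij3 haj2 haj3 hg2 hg3 hj23
      · refine s_d4 h.toDiag hai hab1 hab2 hab3 hbi1.symm hbi2.symm hbi3.symm e12 e13
          e23 (pd_subset hS ?_)
        intro x hx
        simp only [Finset.mem_insert, Finset.mem_singleton] at hx
        rcases hx with rfl | rfl | rfl | rfl | rfl <;> assumption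

end MP86a502
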