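import Pool.Agent.Lib.MP_86a502_gt.Ctc

set_option autoImplicit false
set_option linter.unusedSectionVars false

/-! # JOB Ctd. Number of `Case2` faces of type II: the counting, step (4) of the header of `Ctc.lean` (120-200 lines)

You may use everything in `Ctc.lean` (its statements are proved by somebody else), see its header. -/

namespace MP86a502

variable {ι : Type} [Fintype ι] [DecidableEq ι] {n : ℕ} {g : ι → ι → ℝ}

open scoped Classical in
/-- the finite set of all codes -/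
private theorem Ctd_step1 (h : Cox n g) (hs : Small3 g) :
    2 * ((faces2 n g).filter
      (fun T => ∃ i i' j j' a b, Case2 n g T i i' j j' a b ∧ ¬ big g a i ∧ ¬ big g b j)).card ≤
      ((Finset.univ : Finset (Finset ι × (ι × ι) × ι)).filter
        (fun k => ∃ T a, Code n g T k.1 k.2.1.1 k.2.1.2 k.2.2 a)).card := by
  set K := (Finset.univ : Finset (Finset ι × (ι × ι) × ι)).filter
        (fun k => ∃ T a, Code n g T k.1 k.2.1.1 k.2.1.2 k.2.2 a) with hK
  let R : Finset ι → (Finset ι × (ι × ι) × ι) → Prop := fun T k =>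
    ∃ a, Code n g T k.1 k.2.1.1 k.2.1.2 k.2.2 a
  have hmain := Finset.card_mul_le_card_mul (s := (faces2 n g).filter
      (fun T => ∃ i i' j j' a b, Case2 n g T i i' j j' a b ∧ ¬ big g a i ∧ ¬ big g b j))
      (t := K) R (m := 2) (n := 1) ?_ ?_
  · linarith
  · intro T hT
    rw [Finset.mem_filter] at hT
    obtain ⟨_, i, i', j, j', a, b, c, hai, hbj⟩ := hT
    have cs : Case2 n g T j j' i i' b a := Case2.swap h.toDiag c
    set k1 : Finset ι × (ι × ι) × ι :=
      (insert i (insert i' (insert j (T.erase a))), (i, i'), j) with hk1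
    set k2 : Finset ι × (ι × ι) × ι :=
      (insert j (insert j' (insert i (T.erase b))), (j, j'), i) with hk2
    have hc1 : Code n g T k1.1 k1.2.1.1 k1.2.1.2 k1.2.2 a := ⟨j', b, c, hai, hbj, rfl⟩
    have hc2 : Code n g T k2.1 k2.2.1.1 k2.2.1.2 k2.2.2 b := ⟨i', a, cs, hbj, hai, rfl⟩
    have hne : k1 ≠ k2 := by
      intro he
      rw [hk1, hk2] at he
      simp only [Prod.mk.injEq] at he
      exact c.ij he.2.1.1
    have hsub : ({k1, k2} : Finset (Finset ι × (ι × ι) × ι)) ⊆ K.bipartiteAbove R T := by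
      intro k hk
      rw [Finset.mem_bipartiteAbove]
      simp only [Finset.mem_insert, Finset.mem_singleton] at hk
      rcases hk with rfl | rfl
      · refine ⟨?_, a, hc1⟩
        rw [hK, Finset.mem_filter]
        exact ⟨Finset.mem_univ _, T, a, hc1⟩
      · refine ⟨?_, b, hc2⟩
        rw [hK, Finset.mem_filter]
        exact ⟨Finset.mem_univ _, T, b, hc2⟩
    calc 2 = ({k1, k2} : Finset (Finset ι × (ι × ι) × ι)).card := (Finset.card_pair hne).symm
      _ ≤ _ := Finset.card_le_card hsub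
  · intro k _
    rw [Finset.card_le_one]
    intro T₁ h₁ T₂ h₂
    rw [Finset.mem_bipartiteBelow] at h₁ h₂
    obtain ⟨_, a₁, c₁⟩ := h₁
    obtain ⟨_, a₂, c₂⟩ := h₂
    exact (code_T h hs c₁ c₂).2 rfl

open scoped Classical in
private theorem Ctd_step2 (h : Cox n g) (hs : Small3 g)
    (K : Finset (Finset ι × (ι × ι) × ι))
    (hK : ∀ k ∈ K, ∃ T a, Code n g T k.1 k.2.1.1 k.2.1.2 k.2.2 a) :
    K.card ≤ 2 * (K.image fun k => (k.1, k.2.1)).card := by
  refine Finset.card_le_mul_card_image K 2 ?_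
  intro e _
  by_contra hcon
  push Not at hcon
  rw [Finset.two_lt_card] at hcon
  obtain ⟨k₁, h₁, k₂, h₂, k₃, h₃, n12, n13, n23⟩ := hcon
  rw [Finset.mem_filter] at h₁ h₂ h₃
  obtain ⟨u₁, ⟨i₁, i₁'⟩, j₁⟩ := k₁
  obtain ⟨u₂, ⟨i₂, i₂'⟩, j₂⟩ := k₂
  obtain ⟨u₃, ⟨i₃, i₃'⟩, j₃⟩ := k₃
  obtain ⟨T₁, a₁, c₁⟩ := hK _ h₁.1
  obtain ⟨T₂, a₂, c₂⟩ := hK _ h₂.1
  obtain ⟨T₃, a₃, c₃⟩ := hK _ h₃.1
  have e1 := h₁.2
  have e2 := h₂.2
  have e3 := h₃.2
  simp only at e1 e2 e3
  have e12 : (u₁, (i₁, i₁')) = (u₂, (i₂, i₂')) := e1.trans e2.symm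
  have e13 : (u₁, (i₁, i₁')) = (u₃, (i₃, i₃')) := e1.trans e3.symm
  simp only [Prod.mk.injEq] at e12 e13
  obtain ⟨rfl, rfl, rfl⟩ := e12
  obtain ⟨rfl, rfl, rfl⟩ := e13
  rcases code_two h hs c₁ c₂ c₃ with e | e | e
  · exact n12 (congrArg (fun j => (u₁, (i₁, i₁'), j)) e)
  · exact n13 (congrArg (fun j => (u₁, (i₁, i₁'), j)) e)
  · exact n23 (congrArg (fun j => (u₁, (i₁, i₁'), j)) e)

open scoped Classical in
private theorem Ctd_step3 (h : Cox n g) (hs : Small3 g)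
    (M : Finset (Finset ι × (ι × ι)))
    (hM : ∀ m ∈ M, ∃ j T a, Code n g T m.1 m.2.1 m.2.2 j a) :
    2 * M.card ≤ ∑ S ∈ verts n g, bigP g S := by
  set E : Finset (Σ _ : Finset ι, ι × ι) :=
    (verts n g).sigma fun S => (S ×ˢ S).filter (fun p => big g p.1 p.2) with hE
  have hEcard : E.card = ∑ S ∈ verts n g, bigP g S := by
    rw [hE, Finset.card_sigma]
    rfl
  let f : Finset ι × (ι × ι) → (Σ _ : Finset ι, ι × ι) := fun m => ⟨m.1, m.2⟩
  let f' : Finset ι × (ι × ι) → (Σ _ : Finset ι, ι × ι) := fun m => ⟨m.1, (m.2.2, m.2.1)⟩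
  have hf : Function.Injective f := by
    rintro ⟨u, p⟩ ⟨v, q⟩ he
    simp only [f, Sigma.mk.injEq, heq_eq_eq] at he
    rw [Prod.mk.injEq]
    exact he
  have hf' : Function.Injective f' := by
    rintro ⟨u, p, p'⟩ ⟨v, q, q'⟩ he
    simp only [f', Sigma.mk.injEq, heq_eq_eq, Prod.mk.injEq] at he
    simp only [Prod.mk.injEq]
    exact ⟨he.1, he.2.2, he.2.1⟩
  have hdis : Disjoint (M.image f) (M.image f') := by
    rw [Finset.disjoint_left]
    intro e h1 h2
    rw [Finset.mem_image] at h1 h2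
    obtain ⟨m₁, hm₁, rfl⟩ := h1
    obtain ⟨m₂, hm₂, he⟩ := h2
    obtain ⟨u, p, p'⟩ := m₁
    obtain ⟨v, q, q'⟩ := m₂
    simp only [f, f', Sigma.mk.injEq, heq_eq_eq, Prod.mk.injEq] at he
    obtain ⟨rfl, rfl, rfl⟩ := he
    obtain ⟨j₁, T₁, a₁, c₁⟩ := hM _ hm₁
    obtain ⟨j₂, T₂, a₂, c₂⟩ := hM _ hm₂
    exact code_orient h hs c₁ c₂
  have hsub : M.image f ∪ M.image f' ⊆ E := by
    intro e he
    rw [Finset.mem_union, Finset.mem_image, Finset.mem_image] at he
    rw [hE, Finset.mem_sigma, Finset.mem_filter, Finset.mem_product]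
    rcases he with ⟨m, hm, rfl⟩ | ⟨m, hm, rfl⟩
    · obtain ⟨j, T, a, c⟩ := hM _ hm
      obtain ⟨-, hu, hi, hi', -, -, hb⟩ := code_mem h hs c
      exact ⟨hu, ⟨hi, hi'⟩, hb⟩
    · obtain ⟨j, T, a, c⟩ := hM _ hm
      obtain ⟨-, hu, hi, hi', -, -, hb⟩ := code_mem h hs c
      exact ⟨hu, ⟨hi', hi⟩, h.toDiag.big_comm.1 hb⟩
  rw [← hEcard]
  calc 2 * M.card = (M.image f).card + (M.image f').card := by
        rw [Finset.card_image_of_injective _ hf, Finset.card_image_of_injective _ hf']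
        ring
    _ = (M.image f ∪ M.image f').card := (Finset.card_union_of_disjoint hdis).symm
    _ ≤ E.card := Finset.card_le_card hsub

open scoped Classical in
theorem typeII_cnt (h : Cox n g) (hs : Small3 g) :
    2 * ((faces2 n g).filter
      (fun T => ∃ i i' j j' a b, Case2 n g T i i' j j' a b ∧ ¬ big g a i ∧ ¬ big g b j)).card ≤
      ∑ S ∈ verts n g, bigP g S := by
  refine (Ctd_step1 h hs).trans ?_
  set K := (Finset.univ : Finset (Finset ι × (ι × ι) × ι)).filter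
        (fun k => ∃ T a, Code n g T k.1 k.2.1.1 k.2.1.2 k.2.2 a) with hK
  refine (Ctd_step2 h hs K (fun k hk => (Finset.mem_filter.1 hk).2)).trans ?_
  refine Ctd_step3 h hs _ ?_
  intro m hm
  rw [Finset.mem_image] at hm
  obtain ⟨k, hk, rfl⟩ := hm
  obtain ⟨T, a, c⟩ := (Finset.mem_filter.1 hk).2
  exact ⟨k.2.2, T, a, c⟩

end MP86a502
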