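import Mathlib

set_option autoImplicit false
set_option linter.unusedSectionVars false

/-! # Compact Coxeter polytopes: definitions

`lor` is the Lorentz form; `CCP n N e` is exactly the hypothesis of the frozen statement S13491.
`PD g S` : the Gram form of the finite set `S` is positive definite.
`Diag g` : the abstract properties of a Gram matrix of a Coxeter polytope.
`Cox n g` : what the combinatorial part uses about a compact Coxeter polytope of dimension `n`.
-/

namespace MP86a502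

/-- The Lorentz form. -/
def lor {n : ℕ} (x y : Fin (n + 1) → ℝ) : ℝ :=
  -(x 0 * y 0) + ∑ k : Fin n, x k.succ * y k.succ

/-- The data of a compact Coxeter polytope, exactly as in the frozen statement S13491. -/
structure CCP (n N : ℕ) (e : Fin N → Fin (n + 1) → ℝ) : Prop where
  unit : ∀ i, lor (e i) (e i) = 1
  ang : ∀ i j, i ≠ j → (lor (e i) (e j) ≤ -1 ∨
    ∃ m : ℕ, 2 ≤ m ∧ lor (e i) (e j) = -Real.cos (Real.pi / (m : ℝ)))
  cpt : IsCompact {x : Fin (n + 1) → ℝ | lor x x = -1 ∧ 0 < x 0 ∧ ∀ i, lor x (e i) ≤ 0}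
  int : ∃ x : Fin (n + 1) → ℝ, lor x x = -1 ∧ 0 < x 0 ∧ ∀ i, lor x (e i) < 0

/-- The Gram matrix. -/
def gram {n N : ℕ} (e : Fin N → Fin (n + 1) → ℝ) (i j : Fin N) : ℝ := lor (e i) (e j)

section
variable {ι : Type}

/-- The Gram form of `S` is positive definite. -/
def PD (g : ι → ι → ℝ) (S : Finset ι) : Prop :=
  ∀ c : ι → ℝ, (∃ i ∈ S, c i ≠ 0) → 0 < ∑ i ∈ S, ∑ j ∈ S, c i * c j * g i j

/-- The abstract properties of the Gram matrix of a Coxeter polytope. -/
structure Diag (g : ι → ι → ℝ) : Prop where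
  symm : ∀ i j, g i j = g j i
  diag : ∀ i, g i i = 1
  ang : ∀ i j, i ≠ j → (g i j ≤ -1 ∨ ∃ m : ℕ, 2 ≤ m ∧ g i j = -Real.cos (Real.pi / (m : ℝ)))

/-- Two distinct non-orthogonal facets. -/
def adj (g : ι → ι → ℝ) (i j : ι) : Prop := i ≠ j ∧ g i j ≠ 0

/-- For facets that meet: the dihedral angle is at most `π/5`. -/
def big (g : ι → ι → ℝ) (i j : ι) : Prop := i ≠ j ∧ g i j ≤ -(4 / 5)

/-- `x`, `y` are adjacent, or have a common neighbour in `S`. -/
def near (g : ι → ι → ℝ) (S : Finset ι) (x y : ι) : Prop :=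
  x ≠ y ∧ (g x y ≠ 0 ∨ ∃ z ∈ S, adj g x z ∧ adj g z y)

open scoped Classical in
/-- degree of `v` in `S` -/
noncomputable def deg (g : ι → ι → ℝ) (S : Finset ι) (v : ι) : ℕ :=
  (S.filter (fun w => adj g v w)).card

open scoped Classical in
/-- number of ordered `big` pairs in `S` -/
noncomputable def bigP (g : ι → ι → ℝ) (S : Finset ι) : ℕ :=
  ((S ×ˢ S).filter (fun p => big g p.1 p.2)).card

open scoped Classical in
/-- number of ordered `near` pairs in `S` -/
noncomputable def nearP (g : ι → ι → ℝ) (S : Finset ι) : ℕ :=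
  ((S ×ˢ S).filter (fun p => near g S p.1 p.2)).card

/-- Every set of facets that is not positive definite contains one with at most three elements
(all Lannér subdiagrams have order at most three). -/
def Small3 (g : ι → ι → ℝ) : Prop :=
  ∀ S : Finset ι, ¬ PD g S → ∃ S' ⊆ S, S'.card ≤ 3 ∧ ¬ PD g S'

end

section
variable {ι : Type} [Fintype ι] [DecidableEq ι]

open scoped Classical in
/-- The vertices. -/
noncomputable def verts (n : ℕ) (g : ι → ι → ℝ) : Finset (Finset ι) :=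
  Finset.univ.filter (fun S : Finset ι => S.card = n ∧ PD g S)

open scoped Classical in
/-- The two-dimensional faces. -/
noncomputable def faces2 (n : ℕ) (g : ι → ι → ℝ) : Finset (Finset ι) :=
  Finset.univ.filter (fun T : Finset ι => T.card + 2 = n ∧ PD g T)

open scoped Classical in
/-- The vertices of the face `T`. -/
noncomputable def ov (n : ℕ) (g : ι → ι → ℝ) (T : Finset ι) : Finset (Finset ι) :=
  (verts n g).filter (fun S => T ⊆ S)

open scoped Classical in
/-- The number of vertices of the 2-face `T` at which the two sides are near. -/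
noncomputable def nu (n : ℕ) (g : ι → ι → ℝ) (T : Finset ι) : ℕ :=
  ((ov n g T).filter (fun S => ∀ x ∈ S, ∀ y ∈ S, x ∉ T → y ∉ T → x ≠ y → near g S x y)).card

/-- The constant of the average number of sides. -/
noncomputable def Bn (n : ℕ) : ℝ :=
  if Even n then (n : ℝ) * ((n : ℝ) - 6) / 8 else ((n : ℝ) - 1) * ((n : ℝ) - 5) / 8

/-- Everything that the combinatorial part uses. -/
structure Cox (n : ℕ) (g : ι → ι → ℝ) : Prop extends Diag g where
  card_le : ∀ S : Finset ι, PD g S → S.card ≤ n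
  ext : ∀ S : Finset ι, PD g S → ∃ S' : Finset ι, S ⊆ S' ∧ PD g S' ∧ S'.card = n
  edge : ∀ T : Finset ι, PD g T → T.card + 1 = n →
    ∃ u v : ι, u ≠ v ∧ ∀ w : ι, (w ∉ T ∧ PD g (insert w T)) ↔ (w = u ∨ w = v)
  conn : ∀ T ∈ faces2 n g, ∀ C ⊆ ov n g T, C.Nonempty →
    (∀ S ∈ C, ∀ S' ∈ ov n g T, (S ∩ S').card + 1 = n → S' ∈ C) → C = ov n g T
  count : ((verts n g).card : ℝ) * Bn n < ∑ T ∈ faces2 n g, (5 - ((ov n g T).card : ℝ))
  joined : ∀ A B : Finset ι, ¬ PD g A → ¬ PD g B → Disjoint A B → ∃ a ∈ A, ∃ b ∈ B, g a b ≠ 0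
  cpt : ∀ (S : Finset ι) (c : ι → ℝ), (∀ i ∈ S, 0 ≤ c i) → (∃ i ∈ S, c i ≠ 0) →
    (∀ i ∈ S, ∑ j ∈ S, c j * g i j ≤ 0) → ∑ i ∈ S, ∑ j ∈ S, c i * c j * g i j < 0

variable {n : ℕ} {g : ι → ι → ℝ}

theorem mem_verts {S : Finset ι} : S ∈ verts n g ↔ S.card = n ∧ PD g S := by
  unfold verts
  simp only [Finset.mem_filter, Finset.mem_univ, true_and]

theorem mem_faces2 {T : Finset ι} : T ∈ faces2 n g ↔ T.card + 2 = n ∧ PD g T := by
  unfold faces2
  simp only [Finset.mem_filter, Finset.mem_univ, true_and]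

theorem mem_ov {T S : Finset ι} : S ∈ ov n g T ↔ (S.card = n ∧ PD g S) ∧ T ⊆ S := by
  unfold ov
  simp only [Finset.mem_filter, mem_verts]

/-- A quadrangular 2-face `T` with the opposite sides `i, i'` and `j, j'`. -/
structure Quad (n : ℕ) (g : ι → ι → ℝ) (T : Finset ι) (i i' j j' : ι) : Prop where
  face : T.card + 2 = n
  pd : PD g T
  hi : i ∉ T
  hi' : i' ∉ T
  hj : j ∉ T
  hj' : j' ∉ T
  ii' : i ≠ i'
  jj' : j ≠ j'
  ij : i ≠ j
  ij' : i ≠ j'
  i'j : i' ≠ j
  i'j' : i' ≠ j'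
  v1 : PD g (insert i (insert j T))
  v2 : PD g (insert i (insert j' T))
  v3 : PD g (insert i' (insert j T))
  v4 : PD g (insert i' (insert j' T))

/-- A triangular 2-face. -/
structure Tri (n : ℕ) (g : ι → ι → ℝ) (T : Finset ι) (a b c : ι) : Prop where
  face : T.card + 2 = n
  pd : PD g T
  ha : a ∉ T
  hb : b ∉ T
  hc : c ∉ T
  ab : a ≠ b
  bc : b ≠ c
  ac : a ≠ c
  v1 : PD g (insert a (insert b T))
  v2 : PD g (insert b (insert c T))
  v3 : PD g (insert a (insert c T))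

/-- A quadrangular 2-face none of whose four angles is near. -/
structure Star (n : ℕ) (g : ι → ι → ℝ) (T : Finset ι) (i i' j j' : ι) : Prop extends
    Quad n g T i i' j j' where
  n1 : ¬ near g (insert i (insert j T)) i j
  n2 : ¬ near g (insert i (insert j' T)) i j'
  n3 : ¬ near g (insert i' (insert j T)) i' j
  n4 : ¬ near g (insert i' (insert j' T)) i' j'

/-- `Star` of the first kind. -/
structure Case1 (n : ℕ) (g : ι → ι → ℝ) (T : Finset ι) (i i' j j' a : ι) : Prop extends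
    Star n g T i i' j j' where
  ha : a ∈ T
  nA : ¬ PD g {a, i, i'}
  uA : ∀ t ∈ T, ¬ PD g {t, i, i'} → t = a
  pr : PD g {i, i'}
  pc : PD g {j, j'}
  bj : ∃ b ∈ T, ¬ PD g {b, j, j'} ∧ adj g b j
  bj' : ∃ b ∈ T, ¬ PD g {b, j, j'} ∧ adj g b j'

/-- `Star` of the second kind: `i' - i - a - b - j - j'`. -/
structure Case2 (n : ℕ) (g : ι → ι → ℝ) (T : Finset ι) (i i' j j' a b : ι) : Prop extends
    Star n g T i i' j j' where
  ha : a ∈ T
  hb : b ∈ T
  hab : a ≠ b
  nA : ¬ PD g {a, i, i'}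
  nB : ¬ PD g {b, j, j'}
  uA : ∀ t ∈ T, ¬ PD g {t, i, i'} → t = a
  uB : ∀ t ∈ T, ¬ PD g {t, j, j'} → t = b
  pr : PD g {i, i'}
  pc : PD g {j, j'}
  ai : g a i ≠ 0
  ai' : g a i' = 0
  rr : g i i' ≠ 0
  bj : g b j ≠ 0
  bj' : g b j' = 0
  cc : g j j' ≠ 0
  ab : g a b ≠ 0

end

end MP86a502
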