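import Pool.Agent.Lib.MP_86a502_gt.Defs

set_option autoImplicit false
set_option linter.unusedSectionVars false

/-! # JOB Sti. Positive definite matrices with nonpositive off-diagonal entries (150-220 lines)

Here `g` is symmetric with `g i j ≤ 0` for `i ≠ j`.

* `pd_subset`: extend a vector on `S'` by zero.
* `pd_solve`: for `b ≥ 0` on `S` there is `c ≥ 0` with `∑_{j∈S} c j g i j = b i` on `S`.
  Existence: the linear map `(S → ℝ) → (S → ℝ)`, `c ↦ (i ↦ ∑ j, c j * g i j)` is injective by positive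
  definiteness, hence surjective (`LinearMap.injective_iff_surjective`; or use
  `Matrix` with nonzero determinant). `c ≥ 0`: let `m i = max (-(c i)) 0`, `p i = max (c i) 0`, so
  `c = p - m`, `p i * m i = 0`. Then `0 ≤ ∑ m i b i = ∑∑ m i p j g i j - ∑∑ m i m j g i j ≤ - Q(m)`,
  because `m i p j g i j ≤ 0` for `i ≠ j` and `m i p i = 0`. So `Q(m) ≤ 0`, `m = 0` on `S`.
* `npd_nonneg`: if `S` is not positive definite there is `c ≥ 0`, nonzero on `S`, with `Q(c) ≤ 0`:
  replace `c` by `|c|`; the diagonal terms do not change, the others do not increase.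
* `pd_pos`: for `c ≥ 0` (any values off `S'`), the bound used everywhere for showing that a set is
  not positive definite. `npd_of_le`: if `c` is nonzero somewhere on `S` and `Q(c) ≤ 0` then `¬ PD`.
* `pd_insert_orth`: adding a vector (of norm one) orthogonal to all others keeps `PD`. -/

namespace MP86a502

variable {ι : Type} [DecidableEq ι] {g : ι → ι → ℝ}

theorem pd_subset {S S' : Finset ι} (h : PD g S) (hS : S' ⊆ S) : PD g S' := by
  intro c hc
  obtain ⟨i0, hi0, hci0⟩ := hc
  have h1 := h (fun i => if i ∈ S' then c i else 0) ⟨i0, hS hi0, by simpa [hi0] using hci0⟩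
  have e1 : ∑ i ∈ S, ∑ j ∈ S, (if i ∈ S' then c i else 0) * (if j ∈ S' then c j else 0) * g i j
      = ∑ i ∈ S', ∑ j ∈ S', c i * c j * g i j := by
    rw [← Finset.sum_subset hS]
    · refine Finset.sum_congr rfl fun i hi => ?_
      rw [← Finset.sum_subset hS]
      · refine Finset.sum_congr rfl fun j hj => ?_
        simp [hi, hj]
      · intro j _ hj
        simp [hj]
    · intro i _ hi
      refine Finset.sum_eq_zero fun j _ => ?_
      simp [hi]
  have h2 : 0 < ∑ i ∈ S, ∑ j ∈ S,
      (if i ∈ S' then c i else 0) * (if j ∈ S' then c j else 0) * g i j := h1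
  rwa [e1] at h2

theorem pd_empty : PD g ∅ := by
  intro c hc
  obtain ⟨i, hi, _⟩ := hc
  exact absurd hi (Finset.notMem_empty i)

theorem Sti_exists {S : Finset ι} (h : PD g S) (b : ι → ℝ) :
    ∃ c : ι → ℝ, ∀ i ∈ S, ∑ j ∈ S, c j * g i j = b i := by
  let ex : (S → ℝ) → ι → ℝ := fun c i => if hi : i ∈ S then c ⟨i, hi⟩ else 0
  have hex : ∀ (c : S → ℝ) (j : S), ex c j.1 = c j := by
    intro c j
    simp only [ex]
    rw [dif_pos j.2]
  let L : (S → ℝ) →ₗ[ℝ] (S → ℝ) :=
    { toFun := fun c i => ∑ j : S, c j * g i.1 j.1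
      map_add' := by
        intro x y
        funext i
        simp only [Pi.add_apply, add_mul, Finset.sum_add_distrib]
      map_smul' := by
        intro r x
        funext i
        simp only [Pi.smul_apply, smul_eq_mul, RingHom.id_apply, Finset.mul_sum, mul_assoc] }
  have hL : ∀ (c : S → ℝ) (i : S), L c i = ∑ j : S, c j * g i.1 j.1 := fun c i => rfl
  have hinj : Function.Injective L := by
    rw [← LinearMap.ker_eq_bot, LinearMap.ker_eq_bot']
    intro c hc
    by_contra hne
    obtain ⟨i0, hi0⟩ := Function.ne_iff.mp hne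
    have h1 := h (ex c) ⟨i0.1, i0.2, by rw [hex]; exact hi0⟩
    have h2 : ∑ i ∈ S, ∑ j ∈ S, ex c i * ex c j * g i j = 0 := by
      rw [← Finset.sum_coe_sort S]
      refine Finset.sum_eq_zero fun i _ => ?_
      rw [← Finset.sum_coe_sort S]
      have h3 : ∑ j : S, c j * g i.1 j.1 = 0 := by
        rw [← hL, hc]; rfl
      calc ∑ j : S, ex c i.1 * ex c j.1 * g i.1 j.1
          = ex c i.1 * ∑ j : S, c j * g i.1 j.1 := by
            rw [Finset.mul_sum]
            refine Finset.sum_congr rfl fun j _ => ?_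
            rw [hex c j]; ring
        _ = 0 := by rw [h3, mul_zero]
    rw [h2] at h1
    exact lt_irrefl _ h1
  have hsurj : Function.Surjective L := LinearMap.injective_iff_surjective.mp hinj
  obtain ⟨c, hc⟩ := hsurj (fun i => b i.1)
  refine ⟨ex c, fun i hi => ?_⟩
  have h4 := congrFun hc ⟨i, hi⟩
  rw [hL] at h4
  rw [← Finset.sum_coe_sort S]
  simp only at h4
  rw [← h4]
  refine Finset.sum_congr rfl fun j _ => ?_
  rw [hex c j]

theorem pd_solve (hs : ∀ i j, g i j = g j i) (ho : ∀ i j, i ≠ j → g i j ≤ 0) {S : Finset ι}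
    (h : PD g S) (b : ι → ℝ) (hb : ∀ i ∈ S, 0 ≤ b i) :
    ∃ c : ι → ℝ, (∀ i ∈ S, 0 ≤ c i) ∧ ∀ i ∈ S, ∑ j ∈ S, c j * g i j = b i := by
  obtain ⟨c, hc⟩ := Sti_exists h b
  refine ⟨c, ?_, hc⟩
  by_contra hneg
  push Not at hneg
  obtain ⟨i0, hi0, hci0⟩ := hneg
  have h1 := h (fun i => max (-(c i)) 0) ⟨i0, hi0, by
    have : 0 < max (-(c i0)) 0 := lt_max_of_lt_left (by linarith)
    exact ne_of_gt this⟩
  have h1' : 0 < ∑ i ∈ S, ∑ j ∈ S, max (-(c i)) 0 * max (-(c j)) 0 * g i j := h1
  have h2 : 0 ≤ ∑ i ∈ S, max (-(c i)) 0 * b i :=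
    Finset.sum_nonneg fun i hi => mul_nonneg (le_max_right _ _) (hb i hi)
  have h3 : ∑ i ∈ S, max (-(c i)) 0 * b i
      = ∑ i ∈ S, ∑ j ∈ S, max (-(c i)) 0 * c j * g i j := by
    refine Finset.sum_congr rfl fun i hi => ?_
    rw [← hc i hi, Finset.mul_sum]
    refine Finset.sum_congr rfl fun j _ => ?_
    ring
  have h4 : ∑ i ∈ S, ∑ j ∈ S, max (-(c i)) 0 * c j * g i j
      ≤ ∑ i ∈ S, ∑ j ∈ S, -(max (-(c i)) 0 * max (-(c j)) 0 * g i j) := by
    refine Finset.sum_le_sum fun i _ => Finset.sum_le_sum fun j _ => ?_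
    have e : c j = max (c j) 0 - max (-(c j)) 0 := by
      rcases le_total 0 (c j) with h | h
      · rw [max_eq_left h, max_eq_right (by linarith)]; ring
      · rw [max_eq_right h, max_eq_left (by linarith)]; ring
    by_cases hij : i = j
    · subst hij
      rcases le_total 0 (c i) with h | h
      · rw [max_eq_right (by linarith : -(c i) ≤ 0)]; simp
      · rw [max_eq_left (by linarith : 0 ≤ -(c i))]
        apply le_of_eq; ring
    · have h5 : max (-(c i)) 0 * max (c j) 0 * g i j ≤ 0 :=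
        mul_nonpos_of_nonneg_of_nonpos (mul_nonneg (le_max_right _ _) (le_max_right _ _))
          (ho i j hij)
      have h6 : max (-(c i)) 0 * c j * g i j
          = max (-(c i)) 0 * max (c j) 0 * g i j - max (-(c i)) 0 * max (-(c j)) 0 * g i j := by
        conv_lhs => rw [e]
        ring
      linarith
  simp only [Finset.sum_neg_distrib] at h4
  linarith

theorem npd_nonneg (ho : ∀ i j, i ≠ j → g i j ≤ 0) {S : Finset ι}
    (h : ¬ PD g S) : ∃ c : ι → ℝ, (∀ i, 0 ≤ c i) ∧ (∃ i ∈ S, c i ≠ 0) ∧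
      ∑ i ∈ S, ∑ j ∈ S, c i * c j * g i j ≤ 0 := by
  unfold PD at h
  push Not at h
  obtain ⟨c, ⟨i0, hi0, hci0⟩, hc⟩ := h
  refine ⟨fun i => |c i|, fun i => abs_nonneg _, ⟨i0, hi0, by simpa using hci0⟩, ?_⟩
  refine le_trans (Finset.sum_le_sum fun i _ => Finset.sum_le_sum fun j _ => ?_) hc
  by_cases hij : i = j
  · subst hij
    simp only [abs_mul_abs_self]
    exact le_refl _
  · have h1 : c i * c j ≤ |c i| * |c j| := by
      rw [← abs_mul]; exact le_abs_self _
    have h2 := ho i j hij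
    show |c i| * |c j| * g i j ≤ c i * c j * g i j
    nlinarith

theorem npd_of_le {S : Finset ι} (c : ι → ℝ) (hc : ∃ i ∈ S, c i ≠ 0)
    (h : ∑ i ∈ S, ∑ j ∈ S, c i * c j * g i j ≤ 0) : ¬ PD g S := by
  intro hp
  exact absurd (hp c hc) (not_lt.mpr h)

/-- Two disjoint orthogonal positive definite sets have a positive definite union. -/
theorem pd_union {A B : Finset ι} (hs : ∀ i j, g i j = g j i) (hd : Disjoint A B)
    (hA : PD g A) (hB : PD g B) (h0 : ∀ a ∈ A, ∀ b ∈ B, g a b = 0) : PD g (A ∪ B) := by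
  intro c hc
  have e : ∑ i ∈ A ∪ B, ∑ j ∈ A ∪ B, c i * c j * g i j
      = (∑ i ∈ A, ∑ j ∈ A, c i * c j * g i j) + ∑ i ∈ B, ∑ j ∈ B, c i * c j * g i j := by
    rw [Finset.sum_union hd]
    congr 1
    · refine Finset.sum_congr rfl fun i hi => ?_
      rw [Finset.sum_union hd, Finset.sum_eq_zero (s := B), add_zero]
      intro j hj
      rw [h0 i hi j hj, mul_zero]
    · refine Finset.sum_congr rfl fun i hi => ?_
      rw [Finset.sum_union hd, Finset.sum_eq_zero (s := A), zero_add]
      intro j hj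
      rw [hs i j, h0 j hj i hi, mul_zero]
  rw [e]
  have key : ∀ {T : Finset ι}, PD g T → 0 ≤ ∑ i ∈ T, ∑ j ∈ T, c i * c j * g i j := by
    intro T hT
    by_cases h : ∃ i ∈ T, c i ≠ 0
    · exact (hT c h).le
    · push Not at h
      refine le_of_eq (Finset.sum_eq_zero fun i hi => ?_).symm
      refine Finset.sum_eq_zero fun j _ => ?_
      rw [h i hi]; ring
  obtain ⟨i, hi, hci⟩ := hc
  rcases Finset.mem_union.mp hi with h | h
  · have := hA c ⟨i, h, hci⟩
    have := key hB
    linarith
  · have := hB c ⟨i, h, hci⟩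
    have := key hA
    linarith

theorem pd_single {i : ι} (h : g i i = 1) : PD g {i} := by
  intro c hc
  obtain ⟨j, hj, hcj⟩ := hc
  rw [Finset.mem_singleton] at hj
  subst hj
  simp only [Finset.sum_singleton, h, mul_one]
  exact mul_self_pos.mpr hcj

/-- A pair is positive definite iff `-1 < g i j` (for `g i j ≤ 0`, `i ≠ j`). -/
theorem pd_pair (hs : ∀ i j, g i j = g j i) (hd : ∀ i, g i i = 1) (ho : ∀ i j, i ≠ j → g i j ≤ 0)
    {i j : ι} (hij : i ≠ j) : PD g {i, j} ↔ -1 < g i j := by
  have e : ∀ c : ι → ℝ, ∑ a ∈ ({i, j} : Finset ι), ∑ b ∈ ({i, j} : Finset ι), c a * c b * g a b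
      = c i * c i + c j * c j + 2 * (c i * c j * g i j) := by
    intro c
    rw [Finset.sum_pair hij, Finset.sum_pair hij, Finset.sum_pair hij, hd i, hd j, hs j i]
    ring
  constructor
  · intro h
    have h1 := h (fun _ => 1) ⟨i, by simp, one_ne_zero⟩
    rw [e] at h1
    linarith
  · intro h c hc
    rw [e]
    have h0 := ho i j hij
    have hne : c i ≠ 0 ∨ c j ≠ 0 := by
      obtain ⟨k, hk, hck⟩ := hc
      rw [Finset.mem_insert, Finset.mem_singleton] at hk
      rcases hk with rfl | rfl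
      · exact Or.inl hck
      · exact Or.inr hck
    have hsum : 0 < c i * c i + c j * c j := by
      rcases hne with h2 | h2
      · have := mul_self_pos.mpr h2
        have := mul_self_nonneg (c j)
        linarith
      · have := mul_self_pos.mpr h2
        have := mul_self_nonneg (c i)
        linarith
    -- `c i ^ 2 + c j ^ 2 + 2 t x y = (1 + t) (x ^ 2 + y ^ 2) - t (x - y) ^ 2`
    have h3 : c i * c i + c j * c j + 2 * (c i * c j * g i j)
        = (1 + g i j) * (c i * c i + c j * c j) + (-(g i j)) * ((c i - c j) * (c i - c j)) := by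
      ring
    rw [h3]
    have h4 : 0 < (1 + g i j) * (c i * c i + c j * c j) := mul_pos (by linarith) hsum
    have h5 : 0 ≤ (-(g i j)) * ((c i - c j) * (c i - c j)) :=
      mul_nonneg (by linarith) (mul_self_nonneg _)
    linarith

end MP86a502
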