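import Pool.Agent.Lib.MP_86a502_gt.Lor
import Pool.Agent.Lib.MP_86a502_gt.Sti

set_option autoImplicit false
set_option linter.unusedSectionVars false

/-! # JOB Fac. Faces and positive definite sets (150-220 lines)

* `gram_off`: `gram e i j ≤ 0` for `i ≠ j` (`-cos(π/m) ≤ 0` for `m ≥ 2`).
* `face_point`: for `PD (gram e) S` there is a relative interior point of the face:
  `x` timelike, `0 < x 0`, `lor x (e i) = 0` for `i ∈ S`, `lor x (e i) < 0` for `i ∉ S`.
  Proof: let `p` be the interior point; by `pd_solve` with `b i = -lor p (e i) > 0` there is `c ≥ 0` on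
  `S` with `∑_{j∈S} c j gram i j = -lor p (e i)`. Put `x = p + ∑_{j∈S} c j • e j`. Then
  `lor x (e i) = 0` for `i ∈ S`; for `i ∉ S`, `lor x (e i) = lor p (e i) + ∑ c j g j i ≤ lor p (e i) < 0`.
  `lor x x = lor x p = lor p p + ∑ c j lor (e j) p ≤ -1 < 0` (the `e j`, `j ∈ S`, are orthogonal to `x`);
  `lor p x < 0`, so `0 < x 0` by `lor_orient`.
* `pd_of_point`: if `x` is timelike and orthogonal to all `e i`, `i ∈ S`, then `S` is positive definite.
  Proof: let `c` be nonzero on `S`, `v = ∑_{i∈S} c i • e i`; `lor x v = 0`, so by `lor_pos` it is enough to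
  show `v ≠ 0`. If `v = 0`: put `c = c⁺ - c⁻` (`max (c i) 0`, `max (-c i) 0`), `w = ∑ c⁺ i • e i = ∑ c⁻ i • e i`.
  `lor w w = ∑∑ c⁺ i c⁻ j g i j ≤ 0` (for `i = j` the product `c⁺ i c⁻ i = 0`). Since `lor x w = 0`, `w = 0`
  by `lor_pos`. Then `0 = lor p w = ∑ c⁺ i lor p (e i)` with all terms `≤ 0`, so `c⁺ = 0` on `S`, similarly
  `c⁻ = 0` on `S`. Contradiction.
* `comb_ne`: a combination `∑_{i∈S} c i • e i` with `c ≥ 0` on `S`, not all zero on `S`, is nonzero
  (`lor p` of it is negative). -/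

namespace MP86a502

variable {n N : ℕ} {e : Fin N → Fin (n + 1) → ℝ}

theorem gram_comm (i j : Fin N) : gram e i j = gram e j i := lor_comm _ _

theorem gram_off (h : CCP n N e) {i j : Fin N} (hij : i ≠ j) : gram e i j ≤ 0 := by
  rcases h.ang i j hij with h1 | ⟨m, hm, h1⟩
  · show lor (e i) (e j) ≤ 0
    linarith
  · show lor (e i) (e j) ≤ 0
    rw [h1]
    have hm' : (2 : ℝ) ≤ (m : ℝ) := by exact_mod_cast hm
    have h2 : 0 ≤ Real.cos (Real.pi / (m : ℝ)) := by
      apply Real.cos_nonneg_of_neg_pi_div_two_le_of_le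
      · have : 0 ≤ Real.pi / (m : ℝ) := by positivity
        have := Real.pi_pos
        linarith
      · exact div_le_div_of_nonneg_left Real.pi_pos.le (by norm_num) hm'
    linarith

theorem Fac_lor_comb (c : Fin N → ℝ) (S : Finset (Fin N)) (p : Fin (n + 1) → ℝ) :
    lor p (∑ i ∈ S, c i • e i) = ∑ i ∈ S, c i * lor p (e i) := by
  rw [lor_sum_right]
  refine Finset.sum_congr rfl fun i _ => ?_
  rw [lor_smul_right]

/-- a nonnegative combination of the `lor p (e i)`, `p` interior, vanishes only if all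
coefficients vanish -/
theorem Fac_zero {p : Fin (n + 1) → ℝ} (hp : ∀ i, lor p (e i) < 0) {S : Finset (Fin N)}
    {c : Fin N → ℝ} (hc : ∀ i ∈ S, 0 ≤ c i) (h0 : ∑ i ∈ S, c i • e i = 0) :
    ∀ i ∈ S, c i = 0 := by
  have h1 : ∑ i ∈ S, c i * (-(lor p (e i))) = 0 := by
    have h2 := Fac_lor_comb (e := e) c S p
    rw [h0, lor_zero_right] at h2
    simp only [mul_neg, Finset.sum_neg_distrib]
    rw [← h2, neg_zero]
  have h3 := (Finset.sum_eq_zero_iff_of_nonneg (fun i hi =>
    mul_nonneg (hc i hi) (by linarith [hp i]))).mp h1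
  intro i hi
  have h4 := h3 i hi
  rcases mul_eq_zero.mp h4 with h5 | h5
  · exact h5
  · exact absurd h5 (by linarith [hp i])

theorem comb_ne (h : CCP n N e) {S : Finset (Fin N)} {c : Fin N → ℝ} (hc : ∀ i ∈ S, 0 ≤ c i)
    (hc0 : ∃ i ∈ S, c i ≠ 0) : ∑ i ∈ S, c i • e i ≠ 0 := by
  obtain ⟨p, _, _, hp⟩ := h.int
  intro h0
  obtain ⟨i, hi, hci⟩ := hc0
  exact hci (Fac_zero hp hc h0 i hi)

theorem face_point (h : CCP n N e) {S : Finset (Fin N)} (hS : PD (gram e) S) :
    ∃ x : Fin (n + 1) → ℝ, lor x x < 0 ∧ 0 < x 0 ∧ (∀ i ∈ S, lor x (e i) = 0) ∧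
      ∀ i, i ∉ S → lor x (e i) < 0 := by
  obtain ⟨p, hp1, hp0, hp⟩ := h.int
  obtain ⟨c, hc, hsol⟩ := pd_solve (fun i j => gram_comm i j) (fun i j hij => gram_off h hij) hS
    (fun i => -(lor p (e i))) (fun i _ => by linarith [hp i])
  have hx : ∀ i, lor (p + ∑ j ∈ S, c j • e j) (e i)
      = lor p (e i) + ∑ j ∈ S, c j * gram e i j := by
    intro i
    rw [lor_add_left, lor_comm (∑ j ∈ S, c j • e j) (e i), Fac_lor_comb]
    rfl
  have hxS : ∀ i ∈ S, lor (p + ∑ j ∈ S, c j • e j) (e i) = 0 := by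
    intro i hi
    rw [hx i, hsol i hi]; ring
  have hxp : lor (p + ∑ j ∈ S, c j • e j) p = lor p p + ∑ j ∈ S, c j * lor p (e j) := by
    rw [lor_add_left, lor_comm (∑ j ∈ S, c j • e j) p, Fac_lor_comb]
  have hneg : ∑ j ∈ S, c j * lor p (e j) ≤ 0 :=
    Finset.sum_nonpos fun j hj => mul_nonpos_of_nonneg_of_nonpos (hc j hj) (hp j).le
  have hxx : lor (p + ∑ j ∈ S, c j • e j) (p + ∑ j ∈ S, c j • e j)
      = lor (p + ∑ j ∈ S, c j • e j) p := by
    conv_lhs => rw [lor_add_right]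
    have h0 : lor (p + ∑ j ∈ S, c j • e j) (∑ j ∈ S, c j • e j) = 0 := by
      rw [Fac_lor_comb]
      refine Finset.sum_eq_zero fun j hj => ?_
      rw [hxS j hj, mul_zero]
    rw [h0, add_zero]
  have hxx' : lor (p + ∑ j ∈ S, c j • e j) (p + ∑ j ∈ S, c j • e j) < 0 := by
    rw [hxx, hxp, hp1]; linarith
  refine ⟨p + ∑ j ∈ S, c j • e j, hxx', ?_, hxS, ?_⟩
  · apply lor_orient (x := p) (by rw [hp1]; norm_num) hp0 hxx'.le
    rw [lor_comm, hxp, hp1]; linarith
  · intro i hi
    rw [hx i]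
    have : ∑ j ∈ S, c j * gram e i j ≤ 0 := by
      refine Finset.sum_nonpos fun j hj => mul_nonpos_of_nonneg_of_nonpos (hc j hj) ?_
      apply gram_off h
      rintro rfl
      exact hi hj
    linarith [hp i]

theorem pd_of_point (h : CCP n N e) {S : Finset (Fin N)} {x : Fin (n + 1) → ℝ}
    (hx : lor x x < 0) (hS : ∀ i ∈ S, lor x (e i) = 0) : PD (gram e) S := by
  obtain ⟨p, hp1, hp0, hp⟩ := h.int
  intro c hc
  have hcomb0 : ∀ d : Fin N → ℝ, lor x (∑ i ∈ S, d i • e i) = 0 := by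
    intro d
    rw [Fac_lor_comb]
    refine Finset.sum_eq_zero fun i hi => ?_
    rw [hS i hi, mul_zero]
  have hv : ∑ i ∈ S, c i • e i ≠ 0 := by
    intro hv0
    have hsplit : ∀ i, c i = max (c i) 0 - max (-(c i)) 0 := by
      intro i
      rcases le_total 0 (c i) with h | h
      · rw [max_eq_left h, max_eq_right (by linarith)]; ring
      · rw [max_eq_right h, max_eq_left (by linarith)]; ring
    have heq : ∑ i ∈ S, (max (c i) 0) • e i = ∑ i ∈ S, (max (-(c i)) 0) • e i := by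
      have h1 : ∑ i ∈ S, c i • e i
          = ∑ i ∈ S, (max (c i) 0) • e i - ∑ i ∈ S, (max (-(c i)) 0) • e i := by
        rw [← Finset.sum_sub_distrib]
        refine Finset.sum_congr rfl fun i _ => ?_
        conv_lhs => rw [hsplit i]
        rw [sub_smul]
      rw [hv0] at h1
      exact (sub_eq_zero.mp h1.symm)
    have hww : lor (∑ i ∈ S, (max (c i) 0) • e i) (∑ i ∈ S, (max (c i) 0) • e i) ≤ 0 := by
      conv_lhs => arg 2; rw [heq]
      rw [lor_sum_sum]
      refine Finset.sum_nonpos fun i _ => Finset.sum_nonpos fun j _ => ?_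
      by_cases hij : i = j
      · subst hij
        have h0 : max (c i) 0 * max (-(c i)) 0 = 0 := by
          rcases le_total 0 (c i) with h | h
          · rw [max_eq_right (by linarith : -(c i) ≤ 0), mul_zero]
          · rw [max_eq_right h, zero_mul]
        rw [h0, zero_mul]
      · exact mul_nonpos_of_nonneg_of_nonpos
          (mul_nonneg (le_max_right _ _) (le_max_right _ _)) (gram_off h hij)
    have hw0 : ∑ i ∈ S, (max (c i) 0) • e i = 0 := by
      by_contra hne
      have := lor_pos hx (hcomb0 _) hne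
      linarith
    have h1 := Fac_zero (c := fun i => max (c i) 0) hp (fun i _ => le_max_right _ _) hw0
    have h2 := Fac_zero (c := fun i => max (-(c i)) 0) hp (fun i _ => le_max_right _ _)
      (by rw [← heq]; exact hw0)
    obtain ⟨i, hi, hci⟩ := hc
    apply hci
    have h3 : max (c i) 0 = 0 := h1 i hi
    have h4 : max (-(c i)) 0 = 0 := h2 i hi
    rw [hsplit i, h3, h4, sub_zero]
  have h1 := lor_pos hx (hcomb0 c) hv
  rw [lor_sum_sum] at h1
  exact h1

end MP86a502
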