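import Pool.Agent.Lib.MP_86a502_gt.Trb

set_option autoImplicit false
set_option linter.unusedSectionVars false

/-! # JOB Fbd. The bound for all positive definite sets, and the number of near pairs (120-200 lines)

* `fbound1`: strong induction on the cardinality. If `Con g S` use `con_bound`. Otherwise there is `A ⊂ S`,
  nonempty, with no edge to `B = S \ A`: for `v ∈ A` `deg g S v = deg g A v`, similarly `B`; `bigP g S = bigP g A + bigP g B`
  (a big pair is adjacent, `big_adj`). So `∑_S + 2 bigP S ≤ (4|A| - 2) + (4|B| - 2)`.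
* `fbound`: for `5 ≤ |S|`: the same two cases.
* `nearP_le`: an ordered near pair `(x, y)` of `S` is adjacent (there are `∑ d v` of them) or has a common neighbour
  `z ∈ S` (there are at most `∑_z d z * (d z - 1)` of them: ordered pairs of distinct neighbours of `z`);
  `d + d(d-1) = d²`. -/

namespace MP86a502

variable {ι : Type} [DecidableEq ι] {g : ι → ι → ℝ}

/-- the quantity of the bound -/
noncomputable def FbdQ (g : ι → ι → ℝ) (S : Finset ι) : ℕ :=
  ∑ v ∈ S, (deg g S v) ^ 2 + 2 * bigP g S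

open scoped Classical in
theorem Fbd_split (h : Diag g) {S A : Finset ι} (hA : A ⊆ S)
    (hno : ∀ a ∈ A, ∀ b ∈ S, b ∉ A → ¬ adj g a b) :
    FbdQ g S = FbdQ g A + FbdQ g (S \ A) := by
  have hno' : ∀ b ∈ S \ A, ∀ a ∈ A, ¬ adj g b a := by
    intro b hb a ha hba
    rw [Finset.mem_sdiff] at hb
    exact hno a ha b hb.1 hb.2 (h.adj_comm.mp hba)
  have dA : ∀ v ∈ A, deg g S v = deg g A v := by
    intro v hv
    unfold deg
    congr 1
    ext w
    simp only [Finset.mem_filter]
    constructor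
    · rintro ⟨hw, hvw⟩
      refine ⟨?_, hvw⟩
      by_contra hwA
      exact hno v hv w hw hwA hvw
    · rintro ⟨hw, hvw⟩
      exact ⟨hA hw, hvw⟩
  have dB : ∀ v ∈ S \ A, deg g S v = deg g (S \ A) v := by
    intro v hv
    unfold deg
    congr 1
    ext w
    simp only [Finset.mem_filter, Finset.mem_sdiff]
    constructor
    · rintro ⟨hw, hvw⟩
      refine ⟨⟨hw, ?_⟩, hvw⟩
      intro hwA
      exact hno' v hv w hwA hvw
    · rintro ⟨hw, hvw⟩
      exact ⟨hw.1, hvw⟩
  have hb : bigP g S = bigP g A + bigP g (S \ A) := by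
    unfold bigP
    rw [← Finset.card_union_of_disjoint]
    · congr 1
      ext p
      simp only [Finset.mem_filter, Finset.mem_product, Finset.mem_union, Finset.mem_sdiff]
      constructor
      · rintro ⟨⟨h1, h2⟩, h3⟩
        by_cases c1 : p.1 ∈ A
        · by_cases c2 : p.2 ∈ A
          · exact Or.inl ⟨⟨c1, c2⟩, h3⟩
          · exact absurd (big_adj h3) (hno _ c1 _ h2 c2)
        · by_cases c2 : p.2 ∈ A
          · exact absurd (big_adj h3) (hno' _ (Finset.mem_sdiff.mpr ⟨h1, c1⟩) _ c2)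
          · exact Or.inr ⟨⟨⟨h1, c1⟩, ⟨h2, c2⟩⟩, h3⟩
      · rintro (⟨⟨h1, h2⟩, h3⟩ | ⟨⟨h1, h2⟩, h3⟩)
        · exact ⟨⟨hA h1, hA h2⟩, h3⟩
        · exact ⟨⟨h1.1, h2.1⟩, h3⟩
    · rw [Finset.disjoint_left]
      intro p hp hp'
      simp only [Finset.mem_filter, Finset.mem_product, Finset.mem_sdiff] at hp hp'
      exact hp'.1.1.2 hp.1.1
  unfold FbdQ
  rw [hb, ← Finset.sum_sdiff hA]
  have s1 : ∑ v ∈ A, (deg g S v) ^ 2 = ∑ v ∈ A, (deg g A v) ^ 2 :=
    Finset.sum_congr rfl fun v hv => by rw [dA v hv]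
  have s2 : ∑ v ∈ S \ A, (deg g S v) ^ 2 = ∑ v ∈ S \ A, (deg g (S \ A) v) ^ 2 :=
    Finset.sum_congr rfl fun v hv => by rw [dB v hv]
  rw [s1, s2]
  ring

theorem Fbd_cases (h : Diag g) {S : Finset ι} (hnc : ¬ Con g S) :
    ∃ A ⊆ S, A.Nonempty ∧ (S \ A).Nonempty ∧ FbdQ g S = FbdQ g A + FbdQ g (S \ A) := by
  unfold Con at hnc
  push Not at hnc
  obtain ⟨A, hA, hne, hAS, hno⟩ := hnc
  refine ⟨A, hA, hne, ?_, Fbd_split h hA fun a ha b hb hbA hab => hno a ha b hb hbA hab⟩
  rw [Finset.sdiff_nonempty]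
  exact fun hSA => hAS (Finset.Subset.antisymm hA hSA)

theorem Fbd_one (h : Diag g) : ∀ (m : ℕ) (S : Finset ι), S.card ≤ m → PD g S → S.Nonempty →
    FbdQ g S + 2 ≤ 4 * S.card := by
  intro m
  induction m with
  | zero =>
    intro S hS _ hne
    have := hne.card_pos
    omega
  | succ m ih =>
    intro S hS hPD hne
    by_cases hc : Con g S
    · exact (con_bound h hPD hne hc).1
    · obtain ⟨A, hA, hAne, hBne, heq⟩ := Fbd_cases h hc
      have hcard := Finset.card_sdiff_add_card_eq_card hA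
      have hA0 := hAne.card_pos
      have hB0 := hBne.card_pos
      have i1 := ih A (by omega) (pd_subset hPD hA) hAne
      have i2 := ih (S \ A) (by omega) (pd_subset hPD Finset.sdiff_subset) hBne
      rw [heq]
      omega

theorem fbound1 (h : Diag g) {S : Finset ι} (hS : PD g S) (hne : S.Nonempty) :
    ∑ v ∈ S, (deg g S v) ^ 2 + 2 * bigP g S + 2 ≤ 4 * S.card :=
  Fbd_one h S.card S le_rfl hS hne

theorem fbound (h : Diag g) {S : Finset ι} (hS : PD g S) (hc : 5 ≤ S.card) :
    ∑ v ∈ S, (deg g S v) ^ 2 + 2 * bigP g S + 4 ≤ 4 * S.card := by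
  have hne : S.Nonempty := Finset.card_pos.mp (by omega)
  by_cases hcon : Con g S
  · exact (con_bound h hS hne hcon).2 hc
  · obtain ⟨A, hA, hAne, hBne, heq⟩ := Fbd_cases h hcon
    have hcard := Finset.card_sdiff_add_card_eq_card hA
    have i1 := Fbd_one h A.card A le_rfl (pd_subset hS hA) hAne
    have i2 := Fbd_one h (S \ A).card (S \ A) le_rfl (pd_subset hS Finset.sdiff_subset) hBne
    have : FbdQ g S + 4 ≤ 4 * S.card := by rw [heq]; omega
    exact this

open scoped Classical in
theorem nearP_le (h : Diag g) (S : Finset ι) : nearP g S ≤ ∑ v ∈ S, (deg g S v) ^ 2 := by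
  unfold nearP
  -- the pairs are covered by adjacent pairs and by pairs of distinct neighbours
  have hsub : (S ×ˢ S).filter (fun p => near g S p.1 p.2) ⊆
      (S ×ˢ S).filter (fun p => adj g p.1 p.2) ∪
        S.biUnion fun z => (S.filter fun w => adj g z w).offDiag := by
    intro p hp
    simp only [Finset.mem_filter, Finset.mem_product] at hp
    obtain ⟨⟨h1, h2⟩, hne, hcase⟩ := hp
    rw [Finset.mem_union]
    rcases hcase with h0 | ⟨z, hz, hxz, hzy⟩
    · left
      simp only [Finset.mem_filter, Finset.mem_product]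
      exact ⟨⟨h1, h2⟩, hne, h0⟩
    · right
      rw [Finset.mem_biUnion]
      refine ⟨z, hz, ?_⟩
      rw [Finset.mem_offDiag]
      simp only [Finset.mem_filter]
      exact ⟨⟨h1, h.adj_comm.mp hxz⟩, ⟨h2, hzy⟩, hne⟩
  refine (Finset.card_le_card hsub).trans ((Finset.card_union_le _ _).trans ?_)
  have c1 : ((S ×ˢ S).filter (fun p => adj g p.1 p.2)).card = ∑ v ∈ S, deg g S v := by
    unfold deg
    rw [Finset.card_filter, Finset.sum_product]
    refine Finset.sum_congr rfl fun v _ => ?_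
    rw [Finset.card_filter]
  have c2 : (S.biUnion fun z => (S.filter fun w => adj g z w).offDiag).card ≤
      ∑ z ∈ S, (deg g S z * deg g S z - deg g S z) := by
    refine Finset.card_biUnion_le.trans (le_of_eq ?_)
    refine Finset.sum_congr rfl fun z _ => ?_
    rw [Finset.offDiag_card]
    rfl
  rw [c1]
  refine (Nat.add_le_add_left c2 _).trans (le_of_eq ?_)
  rw [← Finset.sum_add_distrib]
  refine Finset.sum_congr rfl fun z _ => ?_
  have : deg g S z ≤ deg g S z * deg g S z := Nat.le_mul_self _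
  rw [pow_two]
  omega

end MP86a502
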