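import Pool.Agent.Lib.MP_86a502_gt.Nuf

set_option autoImplicit false
set_option linter.unusedSectionVars false

/-! # JOB Nub. `sum_nu` (60-120 lines). The proof is in the header of `Nuf.lean` (you may use its theorems). -/

namespace MP86a502

variable {ι : Type} [Fintype ι] [DecidableEq ι] {n : ℕ} {g : ι → ι → ℝ}

open scoped Classical in
/-- The 2-faces of the vertex `S` whose angle at `S` is near. -/
private noncomputable def nubA (n : ℕ) (g : ι → ι → ℝ) (S : Finset ι) : Finset (Finset ι) :=
  (faces2 n g).filter (fun T => T ⊆ S ∧ ∀ x ∈ S, ∀ y ∈ S, x ∉ T → y ∉ T → x ≠ y → near g S x y)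

open scoped Classical in
private theorem nub_local {S : Finset ι} (hS : S.card = n) : 2 * (nubA n g S).card ≤ nearP g S := by
  set B : Finset (ι × ι) := (S ×ˢ S).filter (fun p => near g S p.1 p.2) with hB
  set f : ι × ι → Finset ι := fun p => S \ {p.1, p.2} with hf
  set B' : Finset (ι × ι) := B.filter (fun p => f p ∈ nubA n g S) with hB'
  have h1 : 2 * (nubA n g S).card ≤ B'.card := by
    refine Finset.mul_card_image_le_card_of_maps_to (f := f) (fun p hp => (Finset.mem_filter.1 hp).2) 2 ?_
    intro T hT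
    have hT' := hT
    unfold nubA at hT
    rw [Finset.mem_filter, mem_faces2] at hT
    obtain ⟨⟨hT1, -⟩, hT2, hT3⟩ := hT
    have hc : (S \ T).card = 2 := by
      rw [Finset.card_sdiff_of_subset hT2]
      omega
    obtain ⟨x, y, hxy, hST⟩ := Finset.card_eq_two.1 hc
    have hx : x ∈ S ∧ x ∉ T := by
      rw [← Finset.mem_sdiff, hST]
      simp
    have hy : y ∈ S ∧ y ∉ T := by
      rw [← Finset.mem_sdiff, hST]
      simp
    have hfx : f (x, y) = T := by
      simp only [hf]
      rw [← hST]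
      ext w
      simp only [Finset.mem_sdiff, not_and, not_not]
      exact ⟨fun hw => hw.2 hw.1, fun hw => ⟨hT2 hw, fun _ => hw⟩⟩
    have hfy : f (y, x) = T := by
      rw [← hfx]
      simp only [hf]
      rw [Finset.pair_comm]
    have hn1 := hT3 x hx.1 y hy.1 hx.2 hy.2 hxy
    have hn2 := hT3 y hy.1 x hx.1 hy.2 hx.2 hxy.symm
    have hsub : ({(x, y), (y, x)} : Finset (ι × ι)) ⊆ B'.filter (fun p => f p = T) := by
      intro p hp
      rw [Finset.mem_insert, Finset.mem_singleton] at hp
      rcases hp with rfl | rfl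
      · rw [Finset.mem_filter, hB', Finset.mem_filter, hB, Finset.mem_filter, Finset.mem_product, hfx]
        exact ⟨⟨⟨⟨hx.1, hy.1⟩, hn1⟩, hT'⟩, rfl⟩
      · rw [Finset.mem_filter, hB', Finset.mem_filter, hB, Finset.mem_filter, Finset.mem_product, hfy]
        exact ⟨⟨⟨⟨hy.1, hx.1⟩, hn2⟩, hT'⟩, rfl⟩
    have hne : (x, y) ≠ (y, x) := by
      intro h7
      rw [Prod.mk.injEq] at h7
      exact hxy h7.1
    rw [← Finset.card_pair hne]
    exact Finset.card_le_card hsub
  refine h1.trans ?_
  unfold nearP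
  exact Finset.card_le_card (Finset.filter_subset _ _)

theorem sum_nu (h : Cox n g) :
    2 * ∑ T ∈ faces2 n g, nu n g T ≤ ∑ S ∈ verts n g, nearP g S := by
  classical
  have h1 : ∑ T ∈ faces2 n g, nu n g T = ∑ S ∈ verts n g, (nubA n g S).card := by
    have h2 : ∀ T, nu n g T = ∑ S ∈ verts n g, if (T ⊆ S ∧ ∀ x ∈ S, ∀ y ∈ S, x ∉ T → y ∉ T → x ≠ y → near g S x y) then 1 else 0 := by
      intro T
      unfold nu ov
      rw [Finset.filter_filter, Finset.card_filter]
      exact Finset.sum_congr rfl fun S _ => by congr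
    have h3 : ∀ S, (nubA n g S).card = ∑ T ∈ faces2 n g, if (T ⊆ S ∧ ∀ x ∈ S, ∀ y ∈ S, x ∉ T → y ∉ T → x ≠ y → near g S x y) then 1 else 0 := by
      intro S
      unfold nubA
      rw [Finset.card_filter]
    simp only [h2, h3]
    exact Finset.sum_comm
  rw [h1, Finset.mul_sum]
  refine Finset.sum_le_sum fun S hS => ?_
  exact nub_local (mem_verts.1 hS).1

end MP86a502
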