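import Pool.Agent.Lib.MP_86a502_gt.Base
import Pool.Agent.Lib.MP_86a502_gt.Fbd
import Pool.Agent.Lib.MP_86a502_gt.Nub
import Pool.Agent.Lib.MP_86a502_gt.Cob
import Pool.Agent.Lib.MP_86a502_gt.Ctb
import Pool.Agent.Lib.MP_86a502_gt.Ctd

set_option autoImplicit false
set_option linter.unusedSectionVars false

/-! # Assembly: no compact Coxeter polytope of dimension at least 21 with all Lannér subdiagrams of order at most 3 -/

namespace MP86a502

section
variable {ι : Type} [Fintype ι] [DecidableEq ι] {n : ℕ} {g : ι → ι → ℝ}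

theorem st2_cnt (h : Cox n g) (hs : Small3 g) :
    (St2 n g).card ≤ ∑ S ∈ verts n g, bigP g S := by
  classical
  have h1 := typeI_cnt h
  have h2 := typeII_cnt h hs
  have hsub : St2 n g ⊆
      ((faces2 n g).filter
        (fun T => ∃ i i' j j' a b, Case2 n g T i i' j j' a b ∧ big g a i)) ∪
      ((faces2 n g).filter
        (fun T => ∃ i i' j j' a b, Case2 n g T i i' j j' a b ∧ ¬ big g a i ∧ ¬ big g b j)) := by
    intro T hT
    rw [St2, Finset.mem_filter] at hT
    obtain ⟨hT, i, i', j, j', a, b, c⟩ := hT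
    rw [Finset.mem_union, Finset.mem_filter, Finset.mem_filter]
    by_cases hb : big g a i
    · exact Or.inl ⟨hT, i, i', j, j', a, b, c, hb⟩
    · by_cases hb' : big g b j
      · exact Or.inl ⟨hT, j, j', i, i', b, a, c.swap h.toDiag, hb'⟩
      · exact Or.inr ⟨hT, i, i', j, j', a, b, c, hb, hb'⟩
  have h3 := (Finset.card_le_card hsub).trans (Finset.card_union_le _ _)
  omega

theorem no_small3 (hn : 21 ≤ n) (h : Cox n g) (hs : Small3 g) : False := by
  have h1 := h.count
  have h2 := count_le h hs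
  have h3 := sum_nu h
  have h4 := st2_cnt h hs
  have h5 : ∀ S ∈ verts n g, nearP g S + 2 * bigP g S + 4 ≤ 4 * n := by
    intro S hS
    rw [mem_verts] at hS
    have := fbound h.toDiag hS.2 (by omega)
    have := nearP_le h.toDiag S
    omega
  have h6 : ∑ S ∈ verts n g, (nearP g S + 2 * bigP g S + 4) ≤ (verts n g).card * (4 * n) := by
    refine (Finset.sum_le_sum h5).trans ?_
    rw [Finset.sum_const, smul_eq_mul]
  rw [Finset.sum_add_distrib, Finset.sum_add_distrib, ← Finset.mul_sum, Finset.sum_const,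
    smul_eq_mul] at h6
  have h7 : 2 * (∑ T ∈ faces2 n g, nu n g T + (St2 n g).card) + (verts n g).card * 4 ≤
      (verts n g).card * (4 * n) := by omega
  have h8 : ((verts n g).card : ℝ) * Bn n <
      ((∑ T ∈ faces2 n g, nu n g T + (St2 n g).card : ℕ) : ℝ) := lt_of_lt_of_le h1 h2
  have h9 : (2 : ℝ) * ((∑ T ∈ faces2 n g, nu n g T + (St2 n g).card : ℕ) : ℝ) +
      ((verts n g).card : ℝ) * 4 ≤ ((verts n g).card : ℝ) * (4 * (n : ℝ)) := by
    exact_mod_cast h7
  have hnr : (21 : ℝ) ≤ (n : ℝ) := by exact_mod_cast hn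
  have hB : 2 * (n : ℝ) - 2 ≤ Bn n := by
    unfold Bn
    split_ifs with he
    · have h22 : 22 ≤ n := by
        rcases Nat.lt_or_ge n 22 with hlt | hge
        · have : n = 21 := by omega
          subst this
          exact absurd he (by decide)
        · exact hge
      have : (22 : ℝ) ≤ (n : ℝ) := by exact_mod_cast h22
      nlinarith
    · nlinarith
  have h10 : ((verts n g).card : ℝ) * (2 * (n : ℝ) - 2) ≤ ((verts n g).card : ℝ) * Bn n :=
    mul_le_mul_of_nonneg_left hB (Nat.cast_nonneg _)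
  nlinarith

end

/-- A face is nonempty iff its facets are positive definite. -/
theorem pd_iff {n N : ℕ} {e : Fin N → Fin (n + 1) → ℝ} (h : CCP n N e) (S : Finset (Fin N)) :
    PD (gram e) S ↔ ∃ x : Fin (n + 1) → ℝ, lor x x = -1 ∧ 0 < x 0 ∧
      (∀ i, lor x (e i) ≤ 0) ∧ ∀ i ∈ S, lor x (e i) = 0 := by
  constructor
  · intro hS
    obtain ⟨x, hx, hx0, h1, h2⟩ := face_point h hS
    have hs : 0 < √(-lor x x) := Real.sqrt_pos.2 (by linarith)
    have hss : √(-lor x x) * √(-lor x x) = -lor x x := Real.mul_self_sqrt (by linarith)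
    refine ⟨(√(-lor x x))⁻¹ • x, ?_, ?_, ?_, ?_⟩
    · rw [lor_smul_left, lor_smul_right]
      have : lor x x = -(√(-lor x x) * √(-lor x x)) := by rw [hss]; ring
      field_simp
      nlinarith
    · simp only [Pi.smul_apply, smul_eq_mul]
      exact mul_pos (inv_pos.2 hs) hx0
    · intro i
      rw [lor_smul_left]
      by_cases hi : i ∈ S
      · rw [h1 i hi, mul_zero]
      · exact mul_nonpos_of_nonneg_of_nonpos (inv_pos.2 hs).le (h2 i hi).le
    · intro i hi
      rw [lor_smul_left, h1 i hi, mul_zero]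
  · rintro ⟨x, hx, -, -, h2⟩
    exact pd_of_point h (by rw [hx]; norm_num) h2

theorem missing_face {n N : ℕ} (hn : 21 ≤ n) {e : Fin N → Fin (n + 1) → ℝ} (h : CCP n N e) :
    ∃ S : Finset (Fin N), 4 ≤ S.card ∧
      (¬ ∃ x : Fin (n + 1) → ℝ, lor x x = -1 ∧ 0 < x 0 ∧
        (∀ i, lor x (e i) ≤ 0) ∧ ∀ i ∈ S, lor x (e i) = 0) ∧
      ∀ S' ⊂ S, ∃ x : Fin (n + 1) → ℝ, lor x x = -1 ∧ 0 < x 0 ∧
        (∀ i, lor x (e i) ≤ 0) ∧ ∀ i ∈ S', lor x (e i) = 0 := by
  classical
  have hc := cox_of_ccp h (by omega)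
  by_contra hcon
  refine no_small3 hn hc ?_
  intro S hS
  -- a minimal subset which is not positive definite
  obtain ⟨M, hM, hmin⟩ := Finset.exists_min_image
    (S.powerset.filter (fun M => ¬ PD (gram e) M)) Finset.card
    ⟨S, by simp [hS]⟩
  rw [Finset.mem_filter, Finset.mem_powerset] at hM
  refine ⟨M, hM.1, ?_, hM.2⟩
  by_contra hcard
  refine hcon ⟨M, by omega, ?_, ?_⟩
  · rw [← pd_iff h]
    exact hM.2
  · intro S' hS'
    rw [← pd_iff h]
    by_contra hS''
    have := hmin S' (by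
      rw [Finset.mem_filter, Finset.mem_powerset]
      exact ⟨hS'.1.trans hM.1, hS''⟩)
    have := Finset.card_lt_card hS'
    omega

end MP86a502
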