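import Pool.Agent.Lib.MP_86a502_gt.Kc
import Pool.Agent.Lib.MP_86a502_gt.Fac

set_option autoImplicit false
set_option linter.unusedSectionVars false

/-! # JOB Joi. Joinedness, and no parabolic subdiagrams (80-140 lines)

* `cox_cpt`: let `c ≥ 0` on `S`, not all zero, and `∑_{j∈S} c j g i j ≤ 0` for all `i ∈ S`. Put
  `u = ∑_{j∈S} c j • e j ≠ 0` (`comb_ne`). For `i ∈ S`, `lor u (e i) ≤ 0` by assumption; for `i ∉ S`,
  `lor u (e i) = ∑ c j g j i ≤ 0` by `gram_off`. By `ccp_K`, `lor u u < 0`, and `lor u u` is the double sum.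
* `cox_joined`: suppose `A`, `B` are disjoint, not positive definite, and `g a b = 0` for all `a ∈ A`,
  `b ∈ B`. By `npd_nonneg` there are `c, d ≥ 0`, nonzero on `A`, `B`, with `lor v v ≤ 0`, `lor w w ≤ 0` for
  `v = ∑_{A} c i • e i ≠ 0`, `w = ∑_{B} d i • e i ≠ 0` (`comb_ne`), and `lor v w = 0`. By `lor_iso`,
  `lor v v = 0` and `w = t • v`, `t ≠ 0`. For `k ∈ A`: `lor v (e k) = t⁻¹ lor w (e k) = 0`. For
  `k ∉ A`: `lor v (e k) = ∑_{A} c i g i k ≤ 0`. So by `ccp_K` `lor v v < 0`, contradiction. -/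

namespace MP86a502

variable {n N : ℕ} {e : Fin N → Fin (n + 1) → ℝ}

theorem Joi_lor (c : Fin N → ℝ) (S : Finset (Fin N)) (i : Fin N) :
    lor (∑ j ∈ S, c j • e j) (e i) = ∑ j ∈ S, c j * gram e i j := by
  rw [lor_sum_left]
  refine Finset.sum_congr rfl fun j _ => ?_
  rw [lor_smul_left, gram_comm i j]
  rfl

theorem Joi_off (h : CCP n N e) {S : Finset (Fin N)} {c : Fin N → ℝ} (hc : ∀ i ∈ S, 0 ≤ c i)
    {i : Fin N} (hi : i ∉ S) : lor (∑ j ∈ S, c j • e j) (e i) ≤ 0 := by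
  rw [Joi_lor]
  refine Finset.sum_nonpos fun j hj => mul_nonpos_of_nonneg_of_nonpos (hc j hj) ?_
  apply gram_off h
  rintro rfl
  exact hi hj

theorem cox_cpt (h : CCP n N e) (hn : 1 ≤ n) (S : Finset (Fin N)) (c : Fin N → ℝ)
    (hc : ∀ i ∈ S, 0 ≤ c i) (hc0 : ∃ i ∈ S, c i ≠ 0)
    (hle : ∀ i ∈ S, ∑ j ∈ S, c j * gram e i j ≤ 0) :
    ∑ i ∈ S, ∑ j ∈ S, c i * c j * gram e i j < 0 := by
  have h1 := (ccp_K h hn (comb_ne h hc hc0) (fun i => by
    by_cases hi : i ∈ S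
    · rw [Joi_lor]; exact hle i hi
    · exact Joi_off h hc hi)).1
  rw [lor_sum_sum] at h1
  exact h1

theorem cox_joined (h : CCP n N e) (hn : 1 ≤ n) (A B : Finset (Fin N)) (hA : ¬ PD (gram e) A)
    (hB : ¬ PD (gram e) B) (hAB : Disjoint A B) : ∃ a ∈ A, ∃ b ∈ B, gram e a b ≠ 0 := by
  by_contra hno
  push Not at hno
  have ho : ∀ i j : Fin N, i ≠ j → gram e i j ≤ 0 := fun i j hij => gram_off h hij
  obtain ⟨c, hc, hc0, hcQ⟩ := npd_nonneg ho hA
  obtain ⟨d, hd, hd0, hdQ⟩ := npd_nonneg ho hB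
  have hv := comb_ne h (fun i (_ : i ∈ A) => hc i) hc0
  have hw := comb_ne h (fun i (_ : i ∈ B) => hd i) hd0
  have hvv : lor (∑ i ∈ A, c i • e i) (∑ i ∈ A, c i • e i) ≤ 0 := by
    rw [lor_sum_sum]; exact hcQ
  have hww : lor (∑ i ∈ B, d i • e i) (∑ i ∈ B, d i • e i) ≤ 0 := by
    rw [lor_sum_sum]; exact hdQ
  have hAe : ∀ k ∈ A, lor (∑ i ∈ B, d i • e i) (e k) = 0 := by
    intro k hk
    rw [Joi_lor]
    refine Finset.sum_eq_zero fun j hj => ?_
    rw [hno k hk j hj, mul_zero]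
  have hvw : lor (∑ i ∈ A, c i • e i) (∑ i ∈ B, d i • e i) = 0 := by
    rw [lor_sum_left]
    refine Finset.sum_eq_zero fun k hk => ?_
    rw [lor_smul_left, lor_comm, hAe k hk, mul_zero]
  obtain ⟨h0, t, ht, hwt⟩ := lor_iso hv hw hvv hww hvw
  have hK := (ccp_K h hn hv (fun k => by
    by_cases hk : k ∈ A
    · have h1 := hAe k hk
      rw [hwt, lor_smul_left] at h1
      rcases mul_eq_zero.mp h1 with h2 | h2
      · exact absurd h2 ht
      · exact h2.le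
    · exact Joi_off h (fun i _ => hc i) hk)).1
  rw [h0] at hK
  exact lt_irrefl _ hK

end MP86a502
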