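import Pool.Agent.Lib.MP_86a502_gt.Lor

set_option autoImplicit false
set_option linter.unusedSectionVars false

/-! # JOB Kc. Compactness: the cone over the polytope lies strictly inside the light cone (120-200 lines)

`ccp_K`: every nonzero `x` with `lor x (e i) ≤ 0` for all `i` satisfies `lor x x < 0` and `0 < x 0`.

Proof. Let `p` be the interior point from `h.int`, `P` the compact set of `h.cpt`; the function
`x ↦ x 0` is bounded above on `P` by some `R` (`IsCompact.bddAbove_image`).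

Step 0. `0 < N`: otherwise `P = {x | lor x x = -1, 0 < x 0}` contains, for every `t`, the point with
`x 0 = √(1+t²)`, `x 1 = t`, other coordinates `0` (here `1 ≤ n` is used), so `x 0` is unbounded on `P`.

Step 1. `lor x x < 0`. Suppose `lor x x ≥ 0`. Let `y s = (1-s) • p + s • x`, `f s = lor (y s) (y s)`,
continuous on `[0,1]`, `f 0 = -1`, `f 1 ≥ 0`. Let `s₁` be the infimum of `{s ∈ [0,1] | 0 ≤ f s}`
(closed, nonempty, so `f s₁ ≥ 0`, and `f s < 0` on `[0, s₁)`, so `f s₁ = 0` by continuity, `0 < s₁`).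
`lor (y s) (e i) ≤ 0` for all `s ∈ [0,1]`, `< 0` if `s < 1`.
On `[0,s₁)` the vector `y s` is timelike, so `(y s) 0 ≠ 0`, and by the intermediate value theorem
`(y s) 0 > 0` (it is `> 0` for `s = 0`). Also `z = y s₁ ≠ 0`: if `z = 0` then `s₁ • x = -(1-s₁) • p`,
so (if `s₁ = 1` then `x = 0`, contradiction; if `s₁ < 1` then) `lor x (e 0) > 0`, contradiction
(an index exists by Step 0). By `lor_zero_ne`, `z 0 ≠ 0`, and `z 0 ≥ 0` by continuity, so `z 0 > 0`.
For `s < s₁` the point `(1/√(-f s)) • y s` lies in `P`, so `(y s) 0 ≤ R √(-f s)`. Let `s → s₁`: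
`z 0 ≤ 0`, contradiction.

Step 2. `0 < x 0`. `x 0 ≠ 0` by `lor_zero_ne`. If `x 0 < 0`, then `(y s) 0 = 0` for some
`s ∈ (0,1)`; `y s ≠ 0` as in Step 1 (else `lor x (e 0) > 0`), so Step 1 gives `lor (y s) (y s) < 0`,
which contradicts `(y s) 0 = 0` (`lor_zero_ne`). -/

namespace MP86a502

variable {n N : ℕ} {e : Fin N → Fin (n + 1) → ℝ}

private lemma kc_bdd (h : CCP n N e) : ∃ R : ℝ, ∀ x : Fin (n + 1) → ℝ,
    lor x x = -1 → 0 < x 0 → (∀ i, lor x (e i) ≤ 0) → x 0 ≤ R := by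
  obtain ⟨R, hR⟩ := h.cpt.bddAbove_image (f := fun x : Fin (n + 1) → ℝ => x 0)
    (continuous_apply 0).continuousOn
  refine ⟨R, fun x h1 h2 h3 => ?_⟩
  exact hR ⟨x, ⟨h1, h2, h3⟩, rfl⟩

theorem ccp_pos (h : CCP n N e) (hn : 1 ≤ n) : 0 < N := by
  by_contra hN
  have hN0 : N = 0 := by omega
  subst hN0
  obtain ⟨R, hR⟩ := kc_bdd h
  obtain ⟨m, rfl⟩ : ∃ m, n = m + 1 := ⟨n - 1, by omega⟩
  set x : Fin (m + 1 + 1) → ℝ := Fin.cons (Real.sqrt (1 + R ^ 2)) (Pi.single 0 R) with hx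
  have hx0 : x 0 = Real.sqrt (1 + R ^ 2) := by rw [hx, Fin.cons_zero]
  have hxk : ∀ k : Fin (m + 1), x k.succ = (Pi.single 0 R : Fin (m + 1) → ℝ) k := by
    intro k
    rw [hx, Fin.cons_succ]
  have hlor : lor x x = -1 := by
    unfold lor
    rw [hx0, Real.mul_self_sqrt (by positivity)]
    have : ∑ k : Fin (m + 1), x k.succ * x k.succ = R * R := by
      rw [Finset.sum_eq_single (0 : Fin (m + 1))]
      · rw [hxk, Pi.single_eq_same]
      · intro b _ hb
        rw [hxk, Pi.single_eq_of_ne hb]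
        ring
      · intro hb
        exact absurd (Finset.mem_univ _) hb
    rw [this]
    ring
  have hpos : 0 < x 0 := by
    rw [hx0]
    positivity
  have h1 := hR x hlor hpos (fun i => i.elim0)
  rw [hx0] at h1
  have h2 : R < Real.sqrt (1 + R ^ 2) := by
    apply Real.lt_sqrt_of_sq_lt
    linarith
  linarith

private lemma kc_lor_line (p x : Fin (n + 1) → ℝ) (s : ℝ) (z : Fin (n + 1) → ℝ) :
    lor ((1 - s) • p + s • x) z = (1 - s) * lor p z + s * lor x z := by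
  rw [lor_add_left, lor_smul_left, lor_smul_left]

private lemma kc_line_ne (p x : Fin (n + 1) → ℝ) (hx : x ≠ 0) (z : Fin (n + 1) → ℝ)
    (hp : lor p z < 0) (hxz : lor x z ≤ 0) (s : ℝ) (hs0 : 0 ≤ s) (hs1 : s ≤ 1) :
    (1 - s) • p + s • x ≠ 0 := by
  intro h0
  rcases hs1.eq_or_lt with h1 | h1
  · rw [h1] at h0
    simp only [sub_self, zero_smul, one_smul, zero_add] at h0
    exact hx h0
  · have h2 := kc_lor_line p x s z
    rw [h0, lor_zero_left] at h2
    have h3 : (1 - s) * lor p z < 0 := mul_neg_of_pos_of_neg (by linarith) hp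
    have h4 : s * lor x z ≤ 0 := mul_nonpos_of_nonneg_of_nonpos hs0 hxz
    linarith

private lemma kc_cont (p x : Fin (n + 1) → ℝ) :
    Continuous fun s : ℝ => (1 - s) • p + s • x := by
  fun_prop

private lemma kc_step1 (h : CCP n N e) (hn : 1 ≤ n) {x : Fin (n + 1) → ℝ} (hx : x ≠ 0)
    (hc : ∀ i, lor x (e i) ≤ 0) : lor x x < 0 := by
  by_contra hcon
  push Not at hcon
  have hN := ccp_pos h hn
  obtain ⟨R, hR⟩ := kc_bdd h
  obtain ⟨p, hpp, hp0, hpe⟩ := h.int
  set y : ℝ → Fin (n + 1) → ℝ := fun s => (1 - s) • p + s • x with hy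
  have hyc : Continuous y := kc_cont p x
  have hy0c : Continuous fun s => y s 0 := (continuous_apply 0).comp hyc
  set f : ℝ → ℝ := fun s => lor (y s) (y s) with hf
  have hfc : Continuous f := continuous_lor_self.comp hyc
  have hyne : ∀ s, 0 ≤ s → s ≤ 1 → y s ≠ 0 := fun s h0 h1 =>
    kc_line_ne p x hx (e ⟨0, hN⟩) (hpe _) (hc _) s h0 h1
  have hye : ∀ s, 0 ≤ s → s ≤ 1 → ∀ i, lor (y s) (e i) ≤ 0 := by
    intro s h0 h1 i
    rw [hy]
    simp only
    rw [kc_lor_line]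
    have h3 : (1 - s) * lor p (e i) ≤ 0 :=
      mul_nonpos_of_nonneg_of_nonpos (by linarith) (hpe i).le
    have h4 : s * lor x (e i) ≤ 0 := mul_nonpos_of_nonneg_of_nonpos h0 (hc i)
    linarith
  have hy0 : y 0 = p := by simp [hy]
  have hy1 : y 1 = x := by simp [hy]
  have hf0 : f 0 = -1 := by rw [hf]; simp only; rw [hy0, hpp]
  have hf1 : 0 ≤ f 1 := by rw [hf]; simp only; rw [hy1]; exact hcon
  -- the first time
  have hKc : IsCompact (Set.Icc (0 : ℝ) 1 ∩ f ⁻¹' Set.Ici 0) :=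
    isCompact_Icc.inter_right (isClosed_Ici.preimage hfc)
  have hKne : (Set.Icc (0 : ℝ) 1 ∩ f ⁻¹' Set.Ici 0).Nonempty :=
    ⟨1, ⟨by norm_num, le_rfl⟩, hf1⟩
  obtain ⟨s1, ⟨⟨hs10, hs11⟩, hs1f⟩, hleast⟩ := hKc.exists_isLeast hKne
  have hs1f' : 0 ≤ f s1 := hs1f
  have hneg : ∀ s, 0 ≤ s → s < s1 → f s < 0 := by
    intro s h0 h1
    by_contra hh
    push Not at hh
    have := hleast ⟨⟨h0, by linarith⟩, hh⟩
    linarith
  have hs1pos : 0 < s1 := by
    rcases hs10.eq_or_lt with h1 | h1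
    · rw [← h1, hf0] at hs1f'
      linarith
    · exact h1
  have hfs1 : f s1 = 0 := by
    obtain ⟨s, hs, hfs⟩ := intermediate_value_Icc hs10 hfc.continuousOn
      (show (0 : ℝ) ∈ Set.Icc (f 0) (f s1) from ⟨by rw [hf0]; norm_num, hs1f'⟩)
    have hsK := hleast ⟨⟨hs.1, by linarith [hs.2]⟩, show (0 : ℝ) ≤ f s by rw [hfs]⟩
    have : s = s1 := le_antisymm hs.2 hsK
    rw [← this]
    exact hfs
  have hfle : ∀ s, 0 ≤ s → s ≤ s1 → f s ≤ 0 := by
    intro s h0 h1
    rcases h1.eq_or_lt with h2 | h2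
    · rw [h2, hfs1]
    · exact (hneg s h0 h2).le
  have hyn0 : ∀ s, 0 ≤ s → s ≤ s1 → y s 0 ≠ 0 := fun s h0 h1 =>
    lor_zero_ne (hyne s h0 (by linarith)) (hfle s h0 h1)
  have hypos : ∀ s, 0 ≤ s → s ≤ s1 → 0 < y s 0 := by
    intro s h0 h1
    by_contra hh
    push Not at hh
    obtain ⟨s', hs', hfs'⟩ := intermediate_value_Icc' h0 hy0c.continuousOn
      (show (0 : ℝ) ∈ Set.Icc (y s 0) (y 0 0) from ⟨hh, by rw [hy0]; exact hp0.le⟩)
    exact hyn0 s' hs'.1 (by linarith [hs'.2]) hfs'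
  have hbound : ∀ s, 0 ≤ s → s < s1 → 0 ≤ R * Real.sqrt (-f s) - y s 0 := by
    intro s h0 h1
    have hfs := hneg s h0 h1
    have hsq : 0 < Real.sqrt (-f s) := Real.sqrt_pos.mpr (by linarith)
    have hq := hR ((Real.sqrt (-f s))⁻¹ • y s)
      (by
        rw [lor_smul_left, lor_smul_right, ← mul_assoc, ← mul_inv,
          Real.mul_self_sqrt (by linarith)]
        change (-f s)⁻¹ * f s = -1
        have : f s ≠ 0 := hfs.ne
        field_simp)
      (by
        rw [Pi.smul_apply, smul_eq_mul]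
        exact mul_pos (inv_pos.mpr hsq) (hypos s h0 h1.le))
      (by
        intro i
        rw [lor_smul_left]
        exact mul_nonpos_of_nonneg_of_nonpos (inv_pos.mpr hsq).le (hye s h0 (by linarith) i))
    rw [Pi.smul_apply, smul_eq_mul, inv_mul_le_iff₀ hsq] at hq
    linarith
  have hgc : Continuous fun s => R * Real.sqrt (-f s) - y s 0 := by
    have : Continuous fun s => Real.sqrt (-f s) := Real.continuous_sqrt.comp hfc.neg
    exact (continuous_const.mul this).sub hy0c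
  have hlim : 0 ≤ R * Real.sqrt (-f s1) - y s1 0 := by
    have ht : Filter.Tendsto (fun s => R * Real.sqrt (-f s) - y s 0) (nhdsWithin s1 (Set.Iio s1))
        (nhds (R * Real.sqrt (-f s1) - y s1 0)) :=
      (hgc.tendsto s1).mono_left nhdsWithin_le_nhds
    refine ge_of_tendsto ht ?_
    filter_upwards [Ioo_mem_nhdsLT hs1pos] with s hs
    exact hbound s hs.1.le hs.2
  rw [hfs1, neg_zero, Real.sqrt_zero, mul_zero] at hlim
  have := hypos s1 hs10 le_rfl
  linarith

theorem ccp_K (h : CCP n N e) (hn : 1 ≤ n) {x : Fin (n + 1) → ℝ} (hx : x ≠ 0)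
    (hc : ∀ i, lor x (e i) ≤ 0) : lor x x < 0 ∧ 0 < x 0 := by
  have h1 := kc_step1 h hn hx hc
  refine ⟨h1, ?_⟩
  by_contra hcon
  push Not at hcon
  have hN := ccp_pos h hn
  obtain ⟨p, hpp, hp0, hpe⟩ := h.int
  have hyc : Continuous fun s : ℝ => ((1 - s) • p + s • x) 0 :=
    (continuous_apply 0).comp (kc_cont p x)
  obtain ⟨s, hs, hfs⟩ := intermediate_value_Icc' (zero_le_one' ℝ) hyc.continuousOn
    (show (0 : ℝ) ∈ Set.Icc (((1 - (1 : ℝ)) • p + (1 : ℝ) • x) 0)
      (((1 - (0 : ℝ)) • p + (0 : ℝ) • x) 0) from by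
        constructor
        · simpa using hcon
        · simpa using hp0.le)
  have hne := kc_line_ne p x hx (e ⟨0, hN⟩) (hpe _) (hc _) s hs.1 hs.2
  have h2 := kc_step1 h hn hne (by
    intro i
    rw [kc_lor_line]
    have h3 : (1 - s) * lor p (e i) ≤ 0 :=
      mul_nonpos_of_nonneg_of_nonpos (by linarith [hs.2]) (hpe i).le
    have h4 : s * lor x (e i) ≤ 0 := mul_nonpos_of_nonneg_of_nonpos hs.1 (hc i)
    linarith)
  exact lor_zero_ne hne h2.le hfs

end MP86a502
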