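import Pool.Agent.Lib.MP_86a502_gt.Defs

set_option autoImplicit false
set_option linter.unusedSectionVars false

/-! # JOB Lor. Elementary facts about the Lorentz form (120-200 lines, easy)

Bilinearity is by `simp [lor, Finset.sum_add_distrib, Finset.mul_sum, ...]; ring`.
The other facts come from the Cauchy-Schwarz inequality
`(∑ k, x k.succ * y k.succ)^2 ≤ (∑ k, x k.succ^2) * (∑ k, y k.succ^2)`
(`Finset.sum_mul_sq_le_sq_mul_sq`, or `inner_mul_le_norm_mul_norm`).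
Write `x₀ = x 0`, `|x|² = ∑ k, x k.succ * x k.succ`, so `lor x x = -x₀² + |x|²`.

* `lor_neg`: `lor x x < 0`, `lor y y ≤ 0`, `x₀, y₀ > 0`: `|x| < x₀`, `|y| ≤ y₀`, so
  `∑ x y ≤ |x||y| < x₀ y₀`.
* `lor_orient`: `lor x x < 0`, `x₀ > 0`, `lor y y ≤ 0`, `lor x y < 0` give `y₀ > 0`: otherwise
  `y₀ ≤ 0`; if `y₀ = 0` then `|y| = 0`, so `y = 0`, `lor x y = 0`; if `y₀ < 0` apply `lor_neg` to `-y`.
* `lor_pos`: `lor x x < 0`, `lor x y = 0`, `y ≠ 0` give `lor y y > 0`: `x₀ y₀ = ∑ x y`, so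
  `x₀² y₀² ≤ |x|² |y|² ` and `|x|² < x₀²`; if `|y|² ≤ y₀²` then `y₀ ≠ 0` (else `y = 0`) and
  `x₀² y₀² ≤ |x|² y₀² < x₀² y₀²`, contradiction.
* `lor_iso`: if `x, y ≠ 0`, `lor x x ≤ 0`, `lor y y ≤ 0`, `lor x y = 0` then `lor x x = 0` and `y = t • x`
  with `t ≠ 0`. Proof: `x₀ ≠ 0 ≠ y₀` (a nonzero vector with `lor ≤ 0`). Put `z = y₀ • x - x₀ • y`, so
  `z₀ = 0` and `lor z z = |z|² ≥ 0`; but `lor z z = y₀² lor x x - 2 x₀ y₀ lor x y + x₀² lor y y ≤ 0`. So
  `z = 0` and both `lor x x = 0`, `lor y y = 0`.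
* `lor_nondeg`: test with the standard basis vectors (`Pi.single`). -/

namespace MP86a502

variable {n : ℕ}

theorem lor_comm (x y : Fin (n + 1) → ℝ) : lor x y = lor y x := by
  unfold lor
  rw [mul_comm (x 0) (y 0)]
  congr 1
  exact Finset.sum_congr rfl fun k _ => mul_comm _ _

theorem lor_add_left (x y z : Fin (n + 1) → ℝ) : lor (x + y) z = lor x z + lor y z := by
  unfold lor
  simp only [Pi.add_apply, add_mul, Finset.sum_add_distrib]
  ring

theorem lor_add_right (x y z : Fin (n + 1) → ℝ) : lor x (y + z) = lor x y + lor x z := by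
  rw [lor_comm, lor_add_left, lor_comm y x, lor_comm z x]

theorem lor_smul_left (t : ℝ) (x y : Fin (n + 1) → ℝ) : lor (t • x) y = t * lor x y := by
  unfold lor
  simp only [Pi.smul_apply, smul_eq_mul]
  rw [mul_add, Finset.mul_sum]
  congr 1
  · ring
  · exact Finset.sum_congr rfl fun k _ => by ring

theorem lor_smul_right (t : ℝ) (x y : Fin (n + 1) → ℝ) : lor x (t • y) = t * lor x y := by
  rw [lor_comm, lor_smul_left, lor_comm]

theorem lor_neg_left (x y : Fin (n + 1) → ℝ) : lor (-x) y = -lor x y := by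
  rw [← neg_one_smul ℝ x, lor_smul_left, neg_one_mul]

theorem lor_neg_right (x y : Fin (n + 1) → ℝ) : lor x (-y) = -lor x y := by
  rw [lor_comm, lor_neg_left, lor_comm]

theorem lor_sub_left (x y z : Fin (n + 1) → ℝ) : lor (x - y) z = lor x z - lor y z := by
  rw [sub_eq_add_neg, lor_add_left, lor_neg_left, ← sub_eq_add_neg]

theorem lor_sub_right (x y z : Fin (n + 1) → ℝ) : lor x (y - z) = lor x y - lor x z := by
  rw [sub_eq_add_neg, lor_add_right, lor_neg_right, ← sub_eq_add_neg]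

theorem lor_zero_left (y : Fin (n + 1) → ℝ) : lor 0 y = 0 := by
  simp [lor]

theorem lor_zero_right (y : Fin (n + 1) → ℝ) : lor y 0 = 0 := by
  simp [lor]

theorem lor_sum_left {ι : Type} (S : Finset ι) (f : ι → Fin (n + 1) → ℝ) (y : Fin (n + 1) → ℝ) :
    lor (∑ i ∈ S, f i) y = ∑ i ∈ S, lor (f i) y := by
  classical
  induction S using Finset.induction_on with
  | empty => simp [lor_zero_left]
  | insert a s ha ih =>
    rw [Finset.sum_insert ha, Finset.sum_insert ha, lor_add_left, ih]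

theorem lor_sum_right {ι : Type} (S : Finset ι) (f : ι → Fin (n + 1) → ℝ) (y : Fin (n + 1) → ℝ) :
    lor y (∑ i ∈ S, f i) = ∑ i ∈ S, lor y (f i) := by
  rw [lor_comm, lor_sum_left]
  exact Finset.sum_congr rfl fun i _ => lor_comm _ _

theorem lor_sum_sum {ι : Type} (S : Finset ι) (c d : ι → ℝ) (f : ι → Fin (n + 1) → ℝ) :
    lor (∑ i ∈ S, c i • f i) (∑ j ∈ S, d j • f j) =
      ∑ i ∈ S, ∑ j ∈ S, c i * d j * lor (f i) (f j) := by
  rw [lor_sum_left]
  refine Finset.sum_congr rfl fun i _ => ?_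
  rw [lor_sum_right]
  refine Finset.sum_congr rfl fun j _ => ?_
  rw [lor_smul_left, lor_smul_right]
  ring

theorem continuous_lor_left (y : Fin (n + 1) → ℝ) : Continuous fun x : Fin (n + 1) → ℝ => lor x y := by
  unfold lor
  fun_prop

theorem continuous_lor_self : Continuous fun x : Fin (n + 1) → ℝ => lor x x := by
  unfold lor
  fun_prop

/-- The Cauchy-Schwarz inequality for the space parts. -/
theorem Lor_cs (x y : Fin (n + 1) → ℝ) :
    (∑ k : Fin n, x k.succ * y k.succ) ^ 2 ≤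
      (∑ k : Fin n, x k.succ * x k.succ) * (∑ k : Fin n, y k.succ * y k.succ) := by
  have h := Finset.sum_mul_sq_le_sq_mul_sq Finset.univ (fun k : Fin n => x k.succ)
    (fun k : Fin n => y k.succ)
  simp only [sq] at h ⊢
  exact h

theorem Lor_nn (x : Fin (n + 1) → ℝ) : 0 ≤ ∑ k : Fin n, x k.succ * x k.succ :=
  Finset.sum_nonneg fun _ _ => mul_self_nonneg _

theorem lor_neg {x y : Fin (n + 1) → ℝ} (hx : lor x x < 0) (hx0 : 0 < x 0) (hy : lor y y ≤ 0)
    (hy0 : 0 < y 0) : lor x y < 0 := by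
  have h := Lor_cs x y
  have h1 := Lor_nn x
  have h2 := Lor_nn y
  unfold lor at *
  generalize (∑ k : Fin n, x k.succ * x k.succ) = A at *
  generalize (∑ k : Fin n, y k.succ * y k.succ) = B at *
  generalize (∑ k : Fin n, x k.succ * y k.succ) = C at *
  have hA : A < x 0 * x 0 := by linarith
  have hB : B ≤ y 0 * y 0 := by linarith
  have hy2 : 0 < y 0 * y 0 := mul_pos hy0 hy0
  have h3 : C ^ 2 < (x 0 * y 0) ^ 2 := by
    calc C ^ 2 ≤ A * B := h
      _ ≤ A * (y 0 * y 0) := mul_le_mul_of_nonneg_left hB h1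
      _ < (x 0 * x 0) * (y 0 * y 0) := mul_lt_mul_of_pos_right hA hy2
      _ = (x 0 * y 0) ^ 2 := by ring
  have h4 : C < x 0 * y 0 := lt_of_pow_lt_pow_left₀ 2 (mul_pos hx0 hy0).le h3
  linarith

/-- A nonzero vector with `lor x x ≤ 0` has a nonzero time coordinate. -/
theorem lor_zero_ne {x : Fin (n + 1) → ℝ} (hx : x ≠ 0) (h : lor x x ≤ 0) : x 0 ≠ 0 := by
  intro h0
  apply hx
  unfold lor at h
  rw [h0, mul_zero, neg_zero, zero_add] at h
  have h1 : ∑ k : Fin n, x k.succ * x k.succ = 0 := le_antisymm h (Lor_nn x)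
  have h2 := (Finset.sum_eq_zero_iff_of_nonneg (fun (k : Fin n) _ => mul_self_nonneg (x k.succ))).1 h1
  funext i
  refine Fin.cases ?_ (fun k => ?_) i
  · simpa using h0
  · have := h2 k (Finset.mem_univ k)
    simpa using this

theorem lor_orient {x y : Fin (n + 1) → ℝ} (hx : lor x x < 0) (hx0 : 0 < x 0) (hy : lor y y ≤ 0)
    (hxy : lor x y < 0) : 0 < y 0 := by
  by_contra hc
  have hc' : y 0 ≤ 0 := not_lt.1 hc
  have hyne : y ≠ 0 := by
    rintro rfl
    rw [lor_zero_right] at hxy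
    exact lt_irrefl _ hxy
  have hy0 : y 0 ≠ 0 := lor_zero_ne hyne hy
  have hlt : y 0 < 0 := lt_of_le_of_ne hc' hy0
  have h1 : lor (-y) (-y) ≤ 0 := by
    rw [lor_neg_left, lor_neg_right, neg_neg]; exact hy
  have h2 : 0 < (-y) 0 := by
    rw [Pi.neg_apply]; linarith
  have h3 := lor_neg hx hx0 h1 h2
  rw [lor_neg_right] at h3
  linarith

theorem lor_pos {x y : Fin (n + 1) → ℝ} (hx : lor x x < 0) (hxy : lor x y = 0) (hy : y ≠ 0) :
    0 < lor y y := by
  by_contra hc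
  have hc' : lor y y ≤ 0 := not_lt.1 hc
  have hy0 : y 0 ≠ 0 := lor_zero_ne hy hc'
  have h := Lor_cs x y
  have h1 := Lor_nn x
  have h2 := Lor_nn y
  clear hc
  unfold lor at *
  generalize (∑ k : Fin n, x k.succ * x k.succ) = A at *
  generalize (∑ k : Fin n, y k.succ * y k.succ) = B at *
  generalize (∑ k : Fin n, x k.succ * y k.succ) = C at *
  have hA : A < x 0 * x 0 := by linarith
  have hB : B ≤ y 0 * y 0 := by linarith
  have hC : C = x 0 * y 0 := by linarith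
  have hy2 : 0 < y 0 * y 0 := mul_self_pos.2 hy0
  have h3 : C ^ 2 < (x 0 * y 0) ^ 2 := by
    calc C ^ 2 ≤ A * B := h
      _ ≤ A * (y 0 * y 0) := mul_le_mul_of_nonneg_left hB h1
      _ < (x 0 * x 0) * (y 0 * y 0) := mul_lt_mul_of_pos_right hA hy2
      _ = (x 0 * y 0) ^ 2 := by ring
  rw [hC] at h3
  exact lt_irrefl _ h3

theorem lor_iso {x y : Fin (n + 1) → ℝ} (hx0 : x ≠ 0) (hy0 : y ≠ 0) (hx : lor x x ≤ 0)
    (hy : lor y y ≤ 0) (hxy : lor x y = 0) : lor x x = 0 ∧ ∃ t : ℝ, t ≠ 0 ∧ y = t • x := by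
  have hxt : x 0 ≠ 0 := lor_zero_ne hx0 hx
  have hyt : y 0 ≠ 0 := lor_zero_ne hy0 hy
  set z : Fin (n + 1) → ℝ := y 0 • x - x 0 • y with hz
  have hz0 : z 0 = 0 := by
    rw [hz, Pi.sub_apply, Pi.smul_apply, Pi.smul_apply, smul_eq_mul, smul_eq_mul]
    ring
  have hzz : lor z z = y 0 ^ 2 * lor x x + x 0 ^ 2 * lor y y := by
    rw [hz]
    simp only [lor_sub_left, lor_sub_right, lor_smul_left, lor_smul_right]
    rw [lor_comm y x, hxy]
    ring
  have hle : lor z z ≤ 0 := by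
    rw [hzz]
    have e1 : y 0 ^ 2 * lor x x ≤ 0 := mul_nonpos_of_nonneg_of_nonpos (sq_nonneg _) hx
    have e2 : x 0 ^ 2 * lor y y ≤ 0 := mul_nonpos_of_nonneg_of_nonpos (sq_nonneg _) hy
    linarith
  have hzz0 : z = 0 := by
    by_contra hne
    exact lor_zero_ne hne hle hz0
  constructor
  · rw [hzz0, lor_zero_left] at hzz
    have e1 : y 0 ^ 2 * lor x x ≤ 0 := mul_nonpos_of_nonneg_of_nonpos (sq_nonneg _) hx
    have e2 : x 0 ^ 2 * lor y y ≤ 0 := mul_nonpos_of_nonneg_of_nonpos (sq_nonneg _) hy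
    have e3 : y 0 ^ 2 * lor x x = 0 := by linarith
    rcases mul_eq_zero.1 e3 with h | h
    · exact absurd (pow_eq_zero_iff (two_ne_zero)|>.1 h) hyt
    · exact h
  · refine ⟨y 0 / x 0, div_ne_zero hyt hxt, ?_⟩
    have h1 : y 0 • x = x 0 • y := sub_eq_zero.1 (hz ▸ hzz0)
    funext i
    have h2 := congrFun h1 i
    simp only [Pi.smul_apply, smul_eq_mul] at h2 ⊢
    field_simp
    linarith

theorem lor_nondeg {x : Fin (n + 1) → ℝ} (h : ∀ y, lor x y = 0) : x = 0 := by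
  by_contra hx
  have h1 : lor x x = 0 := h x
  have hx0 : x 0 ≠ 0 := lor_zero_ne hx h1.le
  have h2 := h (Pi.single 0 1)
  unfold lor at h2
  rw [Pi.single_eq_same, mul_one] at h2
  have h3 : ∑ k : Fin n, x k.succ * (Pi.single (0 : Fin (n + 1)) (1 : ℝ) : Fin (n + 1) → ℝ) k.succ = 0 := by
    refine Finset.sum_eq_zero fun k _ => ?_
    rw [Pi.single_eq_of_ne (Fin.succ_ne_zero k), mul_zero]
  rw [h3, add_zero] at h2
  exact hx0 (neg_eq_zero.1 h2)

end MP86a502
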