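import Pool.Agent.Lib.MP_86a502_gt.Lmx

set_option autoImplicit false
set_option linter.unusedSectionVars false

/-! # JOB Mor. `sum_ov_card`, `choose_bound` (60-100 lines; steps (3), (4) below; `lm_count` is in `Mob.lean`)

`h` and `-h` satisfy `LM`, `h` is injective on the vertices, every edge has two end points.

Let `f₀ = (verts n g).card`, `f₂ = (faces2 n g).card`. For `S ∈ verts` let `D S` be the set of `i ∈ S` whose
neighbour `S_i = insert u (S.erase i)` (`nbr_exists`) has `h S_i < h S` and `d S = (D S).card ≤ n`.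

(1) `∑_S C(d S, 2) ≤ f₂`: a pair `{i, j} ⊆ D S` gives `T = S \ {i, j} ∈ faces2` at which `S` is a local maximum
   (the neighbours of `S` in `ov T` are exactly `S_i` and `S_j`), so `S` is the only vertex of `T` with this property
   (`LM`; two such vertices `S ≠ S'` would satisfy `h S < h S' < h S`): the map `(S, {i,j}) ↦ T` is injective.
(2) `∑_S C(n - d S, 2) ≤ f₂`: the same with `-h` (if `i ∉ D S` then `h S_i > h S` by injectivity).
(3) double counting: `∑_{T ∈ faces2} (ov T).card = f₀ * C(n, 2)`: for `S ∈ verts` the `T ∈ faces2` with `T ⊆ S` are exactly the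
   `S \ {i, j}` (`pd_subset`), in bijection with `S.powersetCard (n-2)`.
(4) for every `d ≤ n`: `C(d,2) + C(n-d,2) ≥ A` with `A = n(n-2)/4` for even, `A = (n-1)²/4` for odd `n`
   (`4 (C(d,2) + C(n-d,2)) = 2d² + 2(n-d)² - 2n = n² + (2d-n)² - 2n`, and `(2d-n)² ≥ 1` if `n` is odd); for `d = n` strict
   inequality (`n ≥ 2`).
(5) the vertex with the largest `h` has `d = n` (verts is nonempty: `hne`). So `2 f₂ > A f₀`, and
   `∑_T (5 - k_T) = 5 f₂ - f₀ n(n-1)/2 > (5A/2 - n(n-1)/2) f₀ = Bn n * f₀`. -/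

namespace MP86a502

variable {ι : Type} [Fintype ι] [DecidableEq ι] {n : ℕ} {g : ι → ι → ℝ}

theorem sum_ov_card (hn : 2 ≤ n) :
    ∑ T ∈ faces2 n g, (ov n g T).card = (verts n g).card * n.choose 2 := by
  classical
  have h1 : ∑ T ∈ faces2 n g, (ov n g T).card =
      ∑ S ∈ verts n g, ((faces2 n g).filter (fun T => T ⊆ S)).card := by
    have h := Finset.sum_card_bipartiteAbove_eq_sum_card_bipartiteBelow
      (s := faces2 n g) (t := verts n g) (fun T S : Finset ι => T ⊆ S)
    unfold Finset.bipartiteAbove Finset.bipartiteBelow at h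
    rw [← h]
    refine Finset.sum_congr rfl fun T _ => ?_
    congr 1
  rw [h1]
  have h2 : ∀ S ∈ verts n g, ((faces2 n g).filter (fun T => T ⊆ S)).card = n.choose 2 := by
    intro S hS
    rw [mem_verts] at hS
    have h3 : (faces2 n g).filter (fun T => T ⊆ S) = S.powersetCard (n - 2) := by
      ext T
      rw [Finset.mem_filter, mem_faces2, Finset.mem_powersetCard]
      constructor
      · rintro ⟨⟨h4, _⟩, h5⟩
        exact ⟨h5, by omega⟩
      · rintro ⟨h5, h4⟩
        exact ⟨⟨by omega, pd_subset hS.2 h5⟩, h5⟩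
    rw [h3, Finset.card_powersetCard, hS.1, Nat.choose_symm hn]
  rw [Finset.sum_congr rfl h2, Finset.sum_const, smul_eq_mul]

theorem choose_bound (n d : ℕ) (hd : d ≤ n) :
    (if Even n then (n : ℝ) * (n - 2) / 4 else ((n : ℝ) - 1) ^ 2 / 4) ≤
      (d.choose 2 : ℝ) + ((n - d).choose 2 : ℝ) := by
  rw [Nat.cast_choose_two, Nat.cast_choose_two, Nat.cast_sub hd]
  split_ifs with h
  · nlinarith [sq_nonneg (2 * (d : ℝ) - n)]
  · have h1 : (1 : ℤ) ≤ (2 * (d : ℤ) - n) ^ 2 := by
      have h2 : (2 * (d : ℤ) - n) ≠ 0 := by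
        intro h3
        apply h
        rw [Nat.even_iff]
        omega
      have := sq_nonneg (2 * (d : ℤ) - n)
      have h4 : (2 * (d : ℤ) - n) ^ 2 ≠ 0 := pow_ne_zero 2 h2
      omega
    have h5 : (1 : ℝ) ≤ (2 * (d : ℝ) - n) ^ 2 := by exact_mod_cast h1
    nlinarith

end MP86a502
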