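import Pool.Agent.Lib.MP_86a502_gt.Ang

set_option autoImplicit false
set_option linter.unusedSectionVars false

/-! # JOB Pol. `quad_ov`, `quad_card`, `quad_row`, `quad_col`, `tri_ov`, `tri_npd` (130-200 lines; the rest of the header is for `Pob.lean`)

`h : Cox n g`. Let `T ∈ faces2`. A side is `a ∉ T` with `insert a T` positive definite; by `h.edge` (applied to
`insert a T`) it has exactly two partners `b` with `insert b (insert a T) ∈ verts`. So the vertices over `T` are the edges
of a 2-regular simple graph on the sides; it is connected by `h.conn`.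

* `quad_ov`: for a `Quad`, the four sets are closed under neighbours: e.g. a neighbour `S' ∈ ov T` of
  `insert i (insert j T)` contains `insert i T` or `insert j T` (it meets it in `n - 1` elements including `T`), and the partners of
  `i` are exactly `j, j'`, the partners of `j` are exactly `i, i'`. By `h.conn` they are all of `ov T`; they are four different sets.
* `quad_row`: `insert i' (insert i T)` is not positive definite since the partners of `i` are exactly `j, j'`.
* `tri_ov`: the same for a triangle; `tri_npd`: the set has `n + 1` elements (`h.card_le`).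
* `ov_card_ge`: extend `T` to a vertex `S = insert x (insert y T)` (`h.ext`); `x` has another partner `y'`, `y` has another partner
  `x'`; the vertices `{x,y}, {x,y'}, {x',y}` over `T` are different.
* `tri_of_card`, `quad_of_card`: with the notation above, if `x' = y'` the three vertices `{x,y}, {x,x'}, {x',y}` are closed under
  neighbours, so they are all and the number is three. If `x' ≠ y'` then the other partner `w` of `x'` (besides `y`; `w ≠ x` since the
  partners of `x` are `y, y'`) gives a fourth vertex `{x', w}`, and the other partner `w'` of `y'` gives a vertex `{y', w'}` different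
  from the first three (`w' ≠ y` since the partners of `y` are `x, x'`). So the number is at least four, and if it is four,
  `{x', w} = {y', w'}`, `w = y'`: `Quad n g T x x' y y'`. -/

namespace MP86a502

variable {ι : Type} [Fintype ι] [DecidableEq ι] {n : ℕ} {g : ι → ι → ℝ}

theorem Pol_exists {T S : Finset ι} (hT : T.card + 2 = n) (hS : S ∈ ov n g T) :
    ∃ x y, x ∉ T ∧ y ∉ T ∧ x ≠ y ∧ S = insert x (insert y T) := by
  obtain ⟨⟨h1, h2⟩, h3⟩ := mem_ov.1 hS
  have h4 : (S \ T).card = 2 := by
    rw [Finset.card_sdiff_of_subset h3]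
    omega
  obtain ⟨x, y, hxy, h5⟩ := Finset.card_eq_two.1 h4
  have hx : x ∈ S \ T := by
    rw [h5]
    simp
  have hy : y ∈ S \ T := by
    rw [h5]
    simp
  rw [Finset.mem_sdiff] at hx hy
  refine ⟨x, y, hx.2, hy.2, hxy, ?_⟩
  ext z
  have h6 := Finset.ext_iff.1 h5 z
  simp only [Finset.mem_sdiff, Finset.mem_insert, Finset.mem_singleton] at h6 ⊢
  by_cases hz : z ∈ T
  · simp [hz, h3 hz]
  · simp only [hz, not_false_eq_true, and_true, or_false] at h6 ⊢
    exact h6

theorem Pol_mem {T : Finset ι} {x y : ι} (hT : T.card + 2 = n) (hx : x ∉ T) (hy : y ∉ T)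
    (hxy : x ≠ y) (hp : PD g (insert x (insert y T))) : insert x (insert y T) ∈ ov n g T := by
  rw [mem_ov]
  refine ⟨⟨?_, hp⟩, fun z hz => Finset.mem_insert_of_mem (Finset.mem_insert_of_mem hz)⟩
  rw [Finset.card_insert_of_notMem (by simp [hxy, hx]), Finset.card_insert_of_notMem hy]
  omega

theorem Pol_pd_insert {T : Finset ι} {x y : ι} (p : PD g (insert x (insert y T))) :
    PD g (insert x T) :=
  pd_subset p (Finset.insert_subset_insert _ (Finset.subset_insert _ _))

theorem Pol_partner (h : Cox n g) {T : Finset ι} (hT : T.card + 2 = n) {x y y' w : ι}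
    (hx : x ∉ T) (hy : y ∉ T) (hy' : y' ∉ T) (hw : w ∉ T) (xy : x ≠ y) (xy' : x ≠ y')
    (xw : x ≠ w) (yy' : y ≠ y') (p : PD g (insert x (insert y T)))
    (p' : PD g (insert x (insert y' T))) (pw : PD g (insert x (insert w T))) :
    w = y ∨ w = y' := by
  obtain ⟨u, v, _, huv⟩ := h.edge (insert x T) (Pol_pd_insert p)
    (by rw [Finset.card_insert_of_notMem hx]; omega)
  have k : ∀ z, z ∉ T → x ≠ z → PD g (insert x (insert z T)) → (z = u ∨ z = v) := by
    intro z hz xz pz
    apply (huv z).1
    refine ⟨?_, ?_⟩
    · rw [Finset.mem_insert]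
      rintro (h1 | h1)
      · exact xz h1.symm
      · exact hz h1
    · rw [Finset.insert_comm]
      exact pz
  rcases k y hy xy p with h1 | h1 <;> rcases k y' hy' xy' p' with h2 | h2 <;>
    rcases k w hw xw pw with h3 | h3
  · exact absurd (h1.trans h2.symm) yy'
  · exact absurd (h1.trans h2.symm) yy'
  · exact Or.inl (h3.trans h1.symm)
  · exact Or.inr (h3.trans h2.symm)
  · exact Or.inr (h3.trans h2.symm)
  · exact Or.inl (h3.trans h1.symm)
  · exact absurd (h1.trans h2.symm) yy'
  · exact absurd (h1.trans h2.symm) yy'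

theorem Pol_other (h : Cox n g) {T : Finset ι} (hT : T.card + 2 = n) {x y : ι}
    (hx : x ∉ T) (hy : y ∉ T) (xy : x ≠ y) (p : PD g (insert x (insert y T))) :
    ∃ y', y' ∉ T ∧ x ≠ y' ∧ y ≠ y' ∧ PD g (insert x (insert y' T)) := by
  obtain ⟨u, v, huv0, huv⟩ := h.edge (insert x T) (Pol_pd_insert p)
    (by rw [Finset.card_insert_of_notMem hx]; omega)
  have k : ∀ z, (z = u ∨ z = v) → z ∉ T ∧ x ≠ z ∧ PD g (insert x (insert z T)) := by
    intro z hz
    obtain ⟨h1, h2⟩ := (huv z).2 hz
    rw [Finset.mem_insert, not_or] at h1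
    rw [Finset.insert_comm] at h2
    exact ⟨h1.2, fun h3 => h1.1 h3.symm, h2⟩
  by_cases hyu : y = u
  · obtain ⟨h1, h2, h3⟩ := k v (Or.inr rfl)
    exact ⟨v, h1, h2, by rw [hyu]; exact huv0, h3⟩
  · obtain ⟨h1, h2, h3⟩ := k u (Or.inl rfl)
    exact ⟨u, h1, h2, hyu, h3⟩

theorem Pol_conn (h : Cox n g) {T : Finset ι} (hT : T.card + 2 = n) (hp : PD g T)
    (C : Finset (Finset ι)) (hC : C ⊆ ov n g T) (hne : C.Nonempty)
    (hcl : ∀ x y w, x ∉ T → y ∉ T → w ∉ T → x ≠ y → x ≠ w → insert x (insert y T) ∈ C →
      PD g (insert x (insert w T)) → insert x (insert w T) ∈ C) : ov n g T = C := by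
  refine (h.conn T (mem_faces2.2 ⟨hT, hp⟩) C hC hne ?_).symm
  intro S hS S' hS' hcard
  obtain ⟨x, y, hx, hy, hxy, rfl⟩ := Pol_exists hT (hC hS)
  obtain ⟨a, b, ha, hb, hab, rfl⟩ := Pol_exists hT hS'
  have hpd : PD g (insert a (insert b T)) := (mem_ov.1 hS').1.2
  have hpd' : PD g (insert b (insert a T)) := by
    rw [Finset.insert_comm]
    exact hpd
  have hS2 : insert y (insert x T) ∈ C := by
    rw [Finset.insert_comm]
    exact hS
  by_cases e1 : a = x
  · subst e1
    exact hcl a y b hx hy hb hxy hab hS hpd
  by_cases e2 : a = y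
  · subst e2
    exact hcl a x b hy hx hb hxy.symm hab hS2 hpd
  by_cases e3 : b = x
  · subst e3
    rw [Finset.insert_comm]
    exact hcl b y a hx hy ha hxy hab.symm hS hpd'
  by_cases e4 : b = y
  · subst e4
    rw [Finset.insert_comm]
    exact hcl b x a hy hx ha hxy.symm hab.symm hS2 hpd'
  exfalso
  have hsub : insert x (insert y T) ∩ insert a (insert b T) ⊆ T := by
    intro z hz
    rw [Finset.mem_inter, Finset.mem_insert, Finset.mem_insert, Finset.mem_insert,
      Finset.mem_insert] at hz
    obtain ⟨h1, h2⟩ := hz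
    rcases h2 with h2 | h2 | h2
    · subst h2
      rcases h1 with h1 | h1 | h1
      · exact absurd h1 e1
      · exact absurd h1 e2
      · exact h1
    · subst h2
      rcases h1 with h1 | h1 | h1
      · exact absurd h1 e3
      · exact absurd h1 e4
      · exact h1
    · exact h2
  have := Finset.card_le_card hsub
  omega

/-- elements of a vertex -/
theorem Pol_eq {T : Finset ι} {x y i j : ι} (hx : x ∉ T)
    (he : insert x (insert y T) = insert i (insert j T)) : x = i ∨ x = j := by
  have h1 : x ∈ insert i (insert j T) := by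
    rw [← he]
    exact Finset.mem_insert_self _ _
  rw [Finset.mem_insert, Finset.mem_insert] at h1
  rcases h1 with h1 | h1 | h1
  · exact Or.inl h1
  · exact Or.inr h1
  · exact absurd h1 hx

theorem Pol_ne {T : Finset ι} {x y i j : ι} (hx : x ∉ T) (h1 : x ≠ i) (h2 : x ≠ j) :
    insert x (insert y T) ≠ insert i (insert j T) := fun he =>
  (Pol_eq hx he).elim h1 h2

theorem Pol_ne' {T : Finset ι} {x y i j : ι} (hy : y ∉ T) (h1 : y ≠ i) (h2 : y ≠ j) :
    insert x (insert y T) ≠ insert i (insert j T) := by
  rw [Finset.insert_comm]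
  exact Pol_ne hy h1 h2

theorem quad_ov (h : Cox n g) {T : Finset ι} {i i' j j' : ι} (q : Quad n g T i i' j j') :
    ov n g T = {insert i (insert j T), insert i (insert j' T), insert i' (insert j T),
      insert i' (insert j' T)} := by
  have hT := q.face
  have hji : PD g (insert j (insert i T)) := by rw [Finset.insert_comm]; exact q.v1
  have hji' : PD g (insert j (insert i' T)) := by rw [Finset.insert_comm]; exact q.v3
  have hj'i : PD g (insert j' (insert i T)) := by rw [Finset.insert_comm]; exact q.v2
  have hj'i' : PD g (insert j' (insert i' T)) := by rw [Finset.insert_comm]; exact q.v4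
  apply Pol_conn h hT q.pd
  · intro S hS
    simp only [Finset.mem_insert, Finset.mem_singleton] at hS
    rcases hS with rfl | rfl | rfl | rfl
    · exact Pol_mem hT q.hi q.hj q.ij q.v1
    · exact Pol_mem hT q.hi q.hj' q.ij' q.v2
    · exact Pol_mem hT q.hi' q.hj q.i'j q.v3
    · exact Pol_mem hT q.hi' q.hj' q.i'j' q.v4
  · exact Finset.insert_nonempty _ _
  · intro x y w hx hy hw xy xw hS hp
    have key : x = i ∨ x = i' ∨ x = j ∨ x = j' := by
      simp only [Finset.mem_insert, Finset.mem_singleton] at hS
      rcases hS with hS | hS | hS | hS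
      · rcases Pol_eq hx hS with h1 | h1
        · exact Or.inl h1
        · exact Or.inr (Or.inr (Or.inl h1))
      · rcases Pol_eq hx hS with h1 | h1
        · exact Or.inl h1
        · exact Or.inr (Or.inr (Or.inr h1))
      · rcases Pol_eq hx hS with h1 | h1
        · exact Or.inr (Or.inl h1)
        · exact Or.inr (Or.inr (Or.inl h1))
      · rcases Pol_eq hx hS with h1 | h1
        · exact Or.inr (Or.inl h1)
        · exact Or.inr (Or.inr (Or.inr h1))
    simp only [Finset.mem_insert, Finset.mem_singleton]
    rcases key with rfl | rfl | rfl | rfl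
    · rcases Pol_partner h hT hx q.hj q.hj' hw q.ij q.ij' xw q.jj' q.v1 q.v2 hp with rfl | rfl
      · exact Or.inl rfl
      · exact Or.inr (Or.inl rfl)
    · rcases Pol_partner h hT hx q.hj q.hj' hw q.i'j q.i'j' xw q.jj' q.v3 q.v4 hp with rfl | rfl
      · exact Or.inr (Or.inr (Or.inl rfl))
      · exact Or.inr (Or.inr (Or.inr rfl))
    · rcases Pol_partner h hT hx q.hi q.hi' hw q.ij.symm q.i'j.symm xw q.ii' hji hji' hp
        with rfl | rfl
      · exact Or.inl (Finset.insert_comm _ _ _)
      · exact Or.inr (Or.inr (Or.inl (Finset.insert_comm _ _ _)))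
    · rcases Pol_partner h hT hx q.hi q.hi' hw q.ij'.symm q.i'j'.symm xw q.ii' hj'i hj'i' hp
        with rfl | rfl
      · exact Or.inr (Or.inl (Finset.insert_comm _ _ _))
      · exact Or.inr (Or.inr (Or.inr (Finset.insert_comm _ _ _)))

theorem quad_card (h : Cox n g) {T : Finset ι} {i i' j j' : ι} (q : Quad n g T i i' j j') :
    (ov n g T).card = 4 := by
  have d12 : insert i (insert j T) ≠ insert i (insert j' T) := Pol_ne' q.hj q.ij.symm q.jj'
  have d13 : insert i (insert j T) ≠ insert i' (insert j T) := Pol_ne q.hi q.ii' q.ij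
  have d14 : insert i (insert j T) ≠ insert i' (insert j' T) := Pol_ne q.hi q.ii' q.ij'
  have d23 : insert i (insert j' T) ≠ insert i' (insert j T) := Pol_ne q.hi q.ii' q.ij
  have d24 : insert i (insert j' T) ≠ insert i' (insert j' T) := Pol_ne q.hi q.ii' q.ij'
  have d34 : insert i' (insert j T) ≠ insert i' (insert j' T) := Pol_ne' q.hj q.i'j.symm q.jj'
  rw [quad_ov h q, Finset.card_insert_of_notMem, Finset.card_insert_of_notMem,
    Finset.card_insert_of_notMem, Finset.card_singleton]
  · rw [Finset.mem_singleton]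
    exact d34
  · rw [Finset.mem_insert, Finset.mem_singleton, not_or]
    exact ⟨d23, d24⟩
  · rw [Finset.mem_insert, Finset.mem_insert, Finset.mem_singleton, not_or, not_or]
    exact ⟨d12, d13, d14⟩

theorem quad_row (h : Cox n g) {T : Finset ι} {i i' j j' : ι} (q : Quad n g T i i' j j') :
    ¬ PD g (insert i (insert i' T)) := by
  intro hp
  rcases Pol_partner h q.face q.hi q.hj q.hj' q.hi' q.ij q.ij' q.ii' q.jj' q.v1 q.v2 hp with
    h1 | h1
  · exact q.i'j h1
  · exact q.i'j' h1

theorem quad_col (h : Cox n g) {T : Finset ι} {i i' j j' : ι} (q : Quad n g T i i' j j') :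
    ¬ PD g (insert j (insert j' T)) := by
  intro hp
  have hji : PD g (insert j (insert i T)) := by rw [Finset.insert_comm]; exact q.v1
  have hji' : PD g (insert j (insert i' T)) := by rw [Finset.insert_comm]; exact q.v3
  rcases Pol_partner h q.face q.hj q.hi q.hi' q.hj' q.ij.symm q.i'j.symm q.jj' q.ii' hji hji' hp
    with h1 | h1
  · exact q.ij' h1.symm
  · exact q.i'j' h1.symm

theorem tri_ov (h : Cox n g) {T : Finset ι} {a b c : ι} (q : Tri n g T a b c) :
    ov n g T = {insert a (insert b T), insert b (insert c T), insert a (insert c T)} := by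
  have hT := q.face
  have hba : PD g (insert b (insert a T)) := by rw [Finset.insert_comm]; exact q.v1
  have hcb : PD g (insert c (insert b T)) := by rw [Finset.insert_comm]; exact q.v2
  have hca : PD g (insert c (insert a T)) := by rw [Finset.insert_comm]; exact q.v3
  apply Pol_conn h hT q.pd
  · intro S hS
    simp only [Finset.mem_insert, Finset.mem_singleton] at hS
    rcases hS with rfl | rfl | rfl
    · exact Pol_mem hT q.ha q.hb q.ab q.v1
    · exact Pol_mem hT q.hb q.hc q.bc q.v2
    · exact Pol_mem hT q.ha q.hc q.ac q.v3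
  · exact Finset.insert_nonempty _ _
  · intro x y w hx hy hw xy xw hS hp
    have key : x = a ∨ x = b ∨ x = c := by
      simp only [Finset.mem_insert, Finset.mem_singleton] at hS
      rcases hS with hS | hS | hS
      · rcases Pol_eq hx hS with h1 | h1
        · exact Or.inl h1
        · exact Or.inr (Or.inl h1)
      · rcases Pol_eq hx hS with h1 | h1
        · exact Or.inr (Or.inl h1)
        · exact Or.inr (Or.inr h1)
      · rcases Pol_eq hx hS with h1 | h1
        · exact Or.inl h1
        · exact Or.inr (Or.inr h1)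
    simp only [Finset.mem_insert, Finset.mem_singleton]
    rcases key with rfl | rfl | rfl
    · rcases Pol_partner h hT hx q.hb q.hc hw q.ab q.ac xw q.bc q.v1 q.v3 hp with rfl | rfl
      · exact Or.inl rfl
      · exact Or.inr (Or.inr rfl)
    · rcases Pol_partner h hT hx q.ha q.hc hw q.ab.symm q.bc xw q.ac hba q.v2 hp with rfl | rfl
      · exact Or.inl (Finset.insert_comm _ _ _)
      · exact Or.inr (Or.inl rfl)
    · rcases Pol_partner h hT hx q.ha q.hb hw q.ac.symm q.bc.symm xw q.ab hca hcb hp with
        rfl | rfl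
      · exact Or.inr (Or.inr (Finset.insert_comm _ _ _))
      · exact Or.inr (Or.inl (Finset.insert_comm _ _ _))

theorem tri_npd (h : Cox n g) {T : Finset ι} {a b c : ι} (q : Tri n g T a b c) :
    ¬ PD g (insert a (insert b (insert c T))) := by
  intro hp
  have h1 := h.card_le _ hp
  have h2 := q.face
  rw [Finset.card_insert_of_notMem (by simp [q.ab, q.ac, q.ha]),
    Finset.card_insert_of_notMem (by simp [q.bc, q.hb]), Finset.card_insert_of_notMem q.hc] at h1
  omega

end MP86a502
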