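import Pool.Agent.Lib.MP_86a502_gt.Ang

set_option autoImplicit false
set_option linter.unusedSectionVars false

/-! # JOB Sml. Small sets that are not positive definite (150-250 lines, easy)

Every one is `npd_of_le` with an explicit vector `c` with nonnegative values: expand the double sum over the
explicit set, use `g x x = 1`, `g x y ≤ 0` for the other pairs (`Diag.nonpos`), `g x y ≤ -1/2` for adjacent pairs
(`Diag.half`) and `g x y ≤ -809/1000` for `big` pairs. Suggested general lemma: for `c ≥ 0` and `S = {x₁..x_k}`,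
`∑∑ c i c j g i j ≤ ∑ c i² - ∑_{listed edges} 2 c i c j γ`. The vectors:

* `s_cyc3`: `(1,1,1)`: `3 - 3 = 0`.
* `s_cyc4`: `(1,1,1,1)`: `4 - 4 = 0`.
* `s_d4`: center `2`, four leaves `1`: `8 - 8 = 0`.
* `s_d5`: `z, w ↦ 2`, leaves `1`: `8 + 4 - (4 + 4·2) = 0`.
* `s_bb1` (`big i a`, `a ~ b`, `a ~ c`): `i ↦ 8/5, a ↦ 2, b, c ↦ 1`:
  `64/25 + 4 + 2 - (4·(8/5)·0.809 + 2·2) < 0`.
* `s_bb2` (`big i a`, `a ~ b`, `b ~ c`, `b ~ d`): `i ↦ 8/5, a, b ↦ 2, c, d ↦ 1`:
  `64/25 + 4 + 4 + 2 - (4·(8/5)·0.809 + 4 + 2·2) < 0`.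
* `s_353` (`p ~ q`, `big q r`, `r ~ s`): `(1,2,2,1)`: `10 - (2 + 8·0.809 + 2) < 0`.
* `s_5333` (`big p q`, `q ~ r ~ s ~ t`): `(3,4,3,2,1)`: `39 - (24·0.809 + 12 + 6 + 2) < 0`. -/

namespace MP86a502

variable {ι : Type} [DecidableEq ι] {g : ι → ι → ℝ}

theorem Sml_gen {k : ℕ} (f : Fin k → ι) (hf : Function.Injective f) (w : Fin k → ℝ)
    (hw : ∃ i, w i ≠ 0) (h : ∑ i, ∑ j, w i * w j * g (f i) (f j) ≤ 0) :
    ¬ PD g (Finset.univ.image f) := by
  classical
  set c : ι → ℝ := fun x => ∑ i, if f i = x then w i else 0 with hc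
  have hcf : ∀ i, c (f i) = w i := by
    intro i
    simp only [hc, hf.eq_iff]
    simp
  obtain ⟨i₀, hi₀⟩ := hw
  refine npd_of_le c ⟨f i₀, Finset.mem_image_of_mem f (Finset.mem_univ i₀), by rw [hcf]; exact hi₀⟩ ?_
  rw [Finset.sum_image (fun a _ b _ hab => hf hab)]
  refine le_trans (le_of_eq ?_) h
  refine Finset.sum_congr rfl fun i _ => ?_
  rw [Finset.sum_image (fun a _ b _ hab => hf hab)]
  refine Finset.sum_congr rfl fun j _ => ?_
  rw [hcf, hcf]

theorem Sml_inj3 {a b c : ι} (h : [a, b, c].Nodup) : Function.Injective ![a, b, c] := by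
  simp only [List.nodup_cons, List.mem_cons, List.not_mem_nil, or_false, not_or,
    not_false_eq_true, List.nodup_nil, and_true] at h
  intro i j hij
  fin_cases i <;> fin_cases j <;> simp_all [eq_comm]

theorem Sml_inj4 {a b c d : ι} (h : [a, b, c, d].Nodup) : Function.Injective ![a, b, c, d] := by
  simp only [List.nodup_cons, List.mem_cons, List.not_mem_nil, or_false, not_or,
    not_false_eq_true, List.nodup_nil, and_true] at h
  intro i j hij
  fin_cases i <;> fin_cases j <;> simp_all [eq_comm]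

theorem Sml_inj5 {a b c d e : ι} (h : [a, b, c, d, e].Nodup) :
    Function.Injective ![a, b, c, d, e] := by
  simp only [List.nodup_cons, List.mem_cons, List.not_mem_nil, or_false, not_or,
    not_false_eq_true, List.nodup_nil, and_true] at h
  intro i j hij
  fin_cases i <;> fin_cases j <;> simp_all [eq_comm]

theorem Sml_inj6 {a b c d e f : ι} (h : [a, b, c, d, e, f].Nodup) :
    Function.Injective ![a, b, c, d, e, f] := by
  simp only [List.nodup_cons, List.mem_cons, List.not_mem_nil, or_false, not_or,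
    not_false_eq_true, List.nodup_nil, and_true] at h
  intro i j hij
  fin_cases i <;> fin_cases j <;> simp_all [eq_comm]

theorem Sml_im3 (a b c : ι) : Finset.univ.image ![a, b, c] = {a, b, c} := by
  ext x; simp [Fin.exists_fin_succ, eq_comm]

theorem Sml_im4 (a b c d : ι) : Finset.univ.image ![a, b, c, d] = {a, b, c, d} := by
  ext x; simp [Fin.exists_fin_succ, eq_comm]

theorem Sml_im5 (a b c d e : ι) : Finset.univ.image ![a, b, c, d, e] = {a, b, c, d, e} := by
  ext x; simp [Fin.exists_fin_succ, eq_comm]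

theorem Sml_im6 (a b c d e f : ι) :
    Finset.univ.image ![a, b, c, d, e, f] = {a, b, c, d, e, f} := by
  ext x; simp [Fin.exists_fin_succ, eq_comm]

theorem s_cyc3 (h : Diag g) {p q r : ι} (hpq : adj g p q) (hqr : adj g q r) (hpr : adj g p r) :
    ¬ PD g {p, q, r} := by
  have hd : [p, q, r].Nodup := by simp [hpq.1, hqr.1, hpr.1]
  rw [← Sml_im3]
  refine Sml_gen _ (Sml_inj3 hd) ![1, 1, 1] ⟨0, by norm_num⟩ ?_
  have e1 := h.half hpq.1 hpq.2
  have e2 := h.half hqr.1 hqr.2
  have e3 := h.half hpr.1 hpr.2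
  simp [Fin.sum_univ_three, h.diag, h.symm q p, h.symm r p, h.symm r q]
  linarith

theorem s_cyc4 (h : Diag g) {p q r s : ι} (hpq : adj g p q) (hqr : adj g q r) (hrs : adj g r s)
    (hsp : adj g s p) (hpr : p ≠ r) (hqs : q ≠ s) : ¬ PD g {p, q, r, s} := by
  have hd : [p, q, r, s].Nodup := by simp [hpq.1, hqr.1, hrs.1, hsp.1.symm, hpr, hqs]
  rw [← Sml_im4]
  refine Sml_gen _ (Sml_inj4 hd) ![1, 1, 1, 1] ⟨0, by norm_num⟩ ?_
  have e1 := h.half hpq.1 hpq.2
  have e2 := h.half hqr.1 hqr.2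
  have e3 := h.half hrs.1 hrs.2
  have e4 := h.half hsp.1 hsp.2
  have e5 := h.nonpos hpr
  have e6 := h.nonpos hqs
  rw [h.symm s p] at e4
  simp [Fin.sum_univ_four, h.diag, h.symm q p, h.symm r p, h.symm r q, h.symm s p, h.symm s q,
    h.symm s r]
  linarith

theorem s_d4 (h : Diag g) {z p q r s : ι} (hp : adj g z p) (hq : adj g z q) (hr : adj g z r)
    (hs : adj g z s) (hpq : p ≠ q) (hpr : p ≠ r) (hps : p ≠ s) (hqr : q ≠ r) (hqs : q ≠ s)
    (hrs : r ≠ s) : ¬ PD g {z, p, q, r, s} := by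
  have hd : [z, p, q, r, s].Nodup := by
    simp [hp.1, hq.1, hr.1, hs.1, hpq, hpr, hps, hqr, hqs, hrs]
  rw [← Sml_im5]
  refine Sml_gen _ (Sml_inj5 hd) ![2, 1, 1, 1, 1] ⟨0, by norm_num⟩ ?_
  have e1 := h.half hp.1 hp.2
  have e2 := h.half hq.1 hq.2
  have e3 := h.half hr.1 hr.2
  have e4 := h.half hs.1 hs.2
  have f1 := h.nonpos hpq
  have f2 := h.nonpos hpr
  have f3 := h.nonpos hps
  have f4 := h.nonpos hqr
  have f5 := h.nonpos hqs
  have f6 := h.nonpos hrs
  simp [Fin.sum_univ_five, h.diag, h.symm p z, h.symm q z, h.symm r z, h.symm s z, h.symm q p,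
    h.symm r p, h.symm r q, h.symm s p, h.symm s q, h.symm s r]
  linarith

theorem s_d5 (h : Diag g) {z w p q r s : ι} (hzw : adj g z w) (hp : adj g z p) (hq : adj g z q)
    (hr : adj g w r) (hs : adj g w s) (hd : [z, w, p, q, r, s].Nodup) :
    ¬ PD g {z, w, p, q, r, s} := by
  rw [← Sml_im6]
  refine Sml_gen _ (Sml_inj6 hd) ![2, 2, 1, 1, 1, 1] ⟨0, by norm_num⟩ ?_
  simp only [List.nodup_cons, List.mem_cons, List.not_mem_nil, or_false, not_or,
    not_false_eq_true, List.nodup_nil, and_true] at hd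
  obtain ⟨⟨zw, zp, zq, zr, zs⟩, ⟨wp, wq, wr, ws⟩, ⟨pq, pr, ps⟩, ⟨qr, qs⟩, rs⟩ := hd
  have e1 := h.half hzw.1 hzw.2
  have e2 := h.half hp.1 hp.2
  have e3 := h.half hq.1 hq.2
  have e4 := h.half hr.1 hr.2
  have e5 := h.half hs.1 hs.2
  have f1 := h.nonpos zr
  have f2 := h.nonpos zs
  have f3 := h.nonpos wp
  have f4 := h.nonpos wq
  have f5 := h.nonpos pq
  have f6 := h.nonpos pr
  have f7 := h.nonpos ps
  have f8 := h.nonpos qr
  have f9 := h.nonpos qs
  have f10 := h.nonpos rs
  simp [Fin.sum_univ_six, h.diag, h.symm w z, h.symm p z, h.symm q z, h.symm r z, h.symm s z,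
    h.symm p w, h.symm q w, h.symm r w, h.symm s w, h.symm q p,
    h.symm r p, h.symm r q, h.symm s p, h.symm s q, h.symm s r]
  linarith

theorem s_bb1 (h : Diag g) {i a b c : ι} (hia : big g i a) (hab : adj g a b) (hac : adj g a c)
    (hd : [i, a, b, c].Nodup) : ¬ PD g {i, a, b, c} := by
  rw [← Sml_im4]
  refine Sml_gen _ (Sml_inj4 hd) ![8 / 5, 2, 1, 1] ⟨0, by norm_num⟩ ?_
  simp only [List.nodup_cons, List.mem_cons, List.not_mem_nil, or_false, not_or,
    not_false_eq_true, List.nodup_nil, and_true] at hd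
  obtain ⟨⟨ia, ib, ic⟩, ⟨ab, ac⟩, bc⟩ := hd
  have e1 := h.big_le hia
  have e2 := h.half hab.1 hab.2
  have e3 := h.half hac.1 hac.2
  have f1 := h.nonpos ib
  have f2 := h.nonpos ic
  have f3 := h.nonpos bc
  simp [Fin.sum_univ_four, h.diag, h.symm a i, h.symm b i, h.symm c i, h.symm b a, h.symm c a,
    h.symm c b]
  linarith

theorem s_bb2 (h : Diag g) {i a b c d : ι} (hia : big g i a) (hab : adj g a b) (hbc : adj g b c)
    (hbd : adj g b d) (hd : [i, a, b, c, d].Nodup) : ¬ PD g {i, a, b, c, d} := by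
  rw [← Sml_im5]
  refine Sml_gen _ (Sml_inj5 hd) ![8 / 5, 2, 2, 1, 1] ⟨0, by norm_num⟩ ?_
  simp only [List.nodup_cons, List.mem_cons, List.not_mem_nil, or_false, not_or,
    not_false_eq_true, List.nodup_nil, and_true] at hd
  obtain ⟨⟨ia, ib, ic, id⟩, ⟨ab, ac, ad⟩, ⟨bc, bd⟩, cd⟩ := hd
  have e1 := h.big_le hia
  have e2 := h.half hab.1 hab.2
  have e3 := h.half hbc.1 hbc.2
  have e4 := h.half hbd.1 hbd.2
  have f1 := h.nonpos ib
  have f2 := h.nonpos ic
  have f3 := h.nonpos id
  have f4 := h.nonpos ac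
  have f5 := h.nonpos ad
  have f6 := h.nonpos cd
  simp [Fin.sum_univ_five, h.diag, h.symm a i, h.symm b i, h.symm c i, h.symm d i, h.symm b a,
    h.symm c a, h.symm d a, h.symm c b, h.symm d b, h.symm d c]
  linarith

theorem s_353 (h : Diag g) {p q r s : ι} (hpq : adj g p q) (hqr : big g q r) (hrs : adj g r s)
    (hd : [p, q, r, s].Nodup) : ¬ PD g {p, q, r, s} := by
  rw [← Sml_im4]
  refine Sml_gen _ (Sml_inj4 hd) ![1, 2, 2, 1] ⟨0, by norm_num⟩ ?_
  simp only [List.nodup_cons, List.mem_cons, List.not_mem_nil, or_false, not_or,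
    not_false_eq_true, List.nodup_nil, and_true] at hd
  obtain ⟨⟨pq, pr, ps⟩, ⟨qr, qs⟩, rs⟩ := hd
  have e1 := h.half hpq.1 hpq.2
  have e2 := h.big_le hqr
  have e3 := h.half hrs.1 hrs.2
  have f1 := h.nonpos pr
  have f2 := h.nonpos ps
  have f3 := h.nonpos qs
  simp [Fin.sum_univ_four, h.diag, h.symm q p, h.symm r p, h.symm s p, h.symm r q, h.symm s q,
    h.symm s r]
  linarith

theorem s_5333 (h : Diag g) {p q r s t : ι} (hpq : big g p q) (hqr : adj g q r) (hrs : adj g r s)
    (hst : adj g s t) (hd : [p, q, r, s, t].Nodup) : ¬ PD g {p, q, r, s, t} := by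
  rw [← Sml_im5]
  refine Sml_gen _ (Sml_inj5 hd) ![3, 4, 3, 2, 1] ⟨0, by norm_num⟩ ?_
  simp only [List.nodup_cons, List.mem_cons, List.not_mem_nil, or_false, not_or,
    not_false_eq_true, List.nodup_nil, and_true] at hd
  obtain ⟨⟨pq, pr, ps, pt⟩, ⟨qr, qs, qt⟩, ⟨rs, rt⟩, st⟩ := hd
  have e1 := h.big_le hpq
  have e2 := h.half hqr.1 hqr.2
  have e3 := h.half hrs.1 hrs.2
  have e4 := h.half hst.1 hst.2
  have f1 := h.nonpos pr
  have f2 := h.nonpos ps
  have f3 := h.nonpos pt
  have f4 := h.nonpos qs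
  have f5 := h.nonpos qt
  have f6 := h.nonpos rt
  simp [Fin.sum_univ_five, h.diag, h.symm q p, h.symm r p, h.symm s p, h.symm t p, h.symm r q,
    h.symm s q, h.symm t q, h.symm s r, h.symm t r, h.symm t s]
  linarith

/-- A triple in which at most one pair is adjacent and all pairs are positive definite, is positive definite;
so a non positive definite triple with positive definite pairs has at least two adjacent pairs. -/
theorem s_conn3 (h : Diag g) {a b c : ι} (hab : a ≠ b) (hac : a ≠ c) (hbc : b ≠ c)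
    (pab : PD g {a, b}) (pac : PD g {a, c}) (pbc : PD g {b, c}) (hn : ¬ PD g {a, b, c}) :
    (g a b ≠ 0 ∧ g a c ≠ 0) ∨ (g a b ≠ 0 ∧ g b c ≠ 0) ∨ (g a c ≠ 0 ∧ g b c ≠ 0) := by
  by_contra hcon
  simp only [not_or, not_and, not_not] at hcon
  obtain ⟨h1, h2, h3⟩ := hcon
  have hs := h.symm
  have sing : ∀ i, PD g {i} := fun i => pd_single (h.diag i)
  by_cases c1 : g a b = 0
  · by_cases c2 : g a c = 0
    · -- a is orthogonal to b, c
      refine hn ?_
      have e : ({a, b, c} : Finset ι) = {a} ∪ {b, c} := by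
        ext x; simp only [Finset.mem_insert, Finset.mem_singleton, Finset.mem_union]
      rw [e]
      refine pd_union hs ?_ (sing a) pbc ?_
      · simp [hab, hac]
      · intro x hx y hy
        rw [Finset.mem_singleton] at hx
        subst hx
        rcases Finset.mem_insert.mp hy with rfl | hy
        · exact c1
        · rw [Finset.mem_singleton] at hy; subst hy; exact c2
    · -- then g b c = 0: b is orthogonal to a, c
      have c3 : g b c = 0 := h3 c2
      refine hn ?_
      have e : ({a, b, c} : Finset ι) = {b} ∪ {a, c} := by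
        ext x; simp only [Finset.mem_insert, Finset.mem_singleton, Finset.mem_union]; tauto
      rw [e]
      refine pd_union hs ?_ (sing b) pac ?_
      · simp [hab.symm, hbc]
      · intro x hx y hy
        rw [Finset.mem_singleton] at hx
        subst hx
        rcases Finset.mem_insert.mp hy with rfl | hy
        · rw [hs]; exact c1
        · rw [Finset.mem_singleton] at hy; subst hy; exact c3
  · have c2 : g a c = 0 := h1 c1
    have c3 : g b c = 0 := h2 c1
    refine hn ?_
    have e : ({a, b, c} : Finset ι) = {a, b} ∪ {c} := by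
      ext x; simp only [Finset.mem_insert, Finset.mem_singleton, Finset.mem_union]; tauto
    rw [e]
    refine pd_union hs ?_ pab (sing c) ?_
    · simp [hac.symm, hbc.symm]
    · intro x hx y hy
      rw [Finset.mem_singleton] at hy
      subst hy
      rcases Finset.mem_insert.mp hx with rfl | hx
      · exact c2
      · rw [Finset.mem_singleton] at hx; subst hx; exact c3

end MP86a502
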