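import Pool.Agent.Lib.MP_86a502_gt.Sym
import Pool.Agent.Lib.MP_86a502_gt.Pol
import Pool.Agent.Lib.MP_86a502_gt.Sml

set_option autoImplicit false
set_option linter.unusedSectionVars false

/-! # JOB Str. Structure of faces when all minimal non positive definite sets have at most 3 elements (200-280 lines)

`hs : Small3 g`.

* `small_row`: for a `Quad`, `insert i (insert i' T)` is not `PD` (`quad_row`), so it contains `S'` with at most 3 elements, not `PD`.
  `i ∈ S'` (otherwise `S' ⊆ insert i' T`, which is `PD` as a subset of `q.v3`), `i' ∈ S'`. So `S' = {i, i'}` or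
  `S' = {a, i, i'}` with `a ∈ T`; (a one element set is `PD`).
* `tri_two`: for a `Tri`: `insert a (insert b (insert c T))` is not `PD` (`tri_npd`); `S'` must contain `a`, `b`, `c` (otherwise it is
  contained in a vertex), so `S' = {a, b, c}`; the pairs are `PD` (subsets of vertices); `s_conn3`.
* `star_struct`: first: `{i, i'}` is `PD`. Suppose not. By `small_row` for the columns, either `{j, j'}` is not `PD`, or (if it is `PD`)
  `{b, j, j'}` is not `PD` with `b ∈ T`. `h.joined {i, i'} {j, j'}` resp. `{i, i'}, {b, j, j'}` (disjoint) gives `x ∈ {i, i'}`, `y`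
  with `g x y ≠ 0`. If `y ∈ {j, j'}` the pair `x, y` is near, contradiction with `n1..n4`. If `y = b`: by `s_conn3` `b` is
  adjacent to `j` or to `j'` (all pairs of `{b, j, j'}` are `PD`), say to `z`; then `x` and `z` have the common neighbour `b ∈ T`, so they are near.
  Similarly `{j, j'}` is `PD` (`Star.swap`). So `small_row` gives `a` and `b`.
  For any such `a, b`: `a ≠ b`, otherwise `a` is adjacent to some `x ∈ {i, i'}` and some `z ∈ {j, j'}` (`s_conn3`), which
  are near, contradiction. The sets `{a, i, i'}`, `{b, j, j'}` are disjoint; `h.joined` gives adjacent `p, q`;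
  `(p, q) ∈ {i, i'} × {j, j'}` is impossible; `p ∈ {i, i'}`, `q = b`: `b` is adjacent to some `z ∈ {j, j'}`, so `p, z` near;
  `p = a`, `q ∈ {j, j'}`: symmetric. So `p = a`, `q = b`.
* `star_pd3`: suppose `insert i (insert i' (insert j (T.erase a)))` is not `PD`, `S'` the small subset. `i ∈ S'` (else
  `S' ⊆ insert i' (insert j T)`), `i' ∈ S'` similarly. So `S' = {i, i'}`, excluded by `hr`, or `S' = {t, i, i'}` with `t ∈ T.erase a`,
  excluded by `hu`, or `S' = {j, i, i'}`: but `g i j = 0 = g i' j` by `n1`, `n3`, so it is `PD` by `pd_union`. -/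

namespace MP86a502

variable {ι : Type} [Fintype ι] [DecidableEq ι] {n : ℕ} {g : ι → ι → ℝ} {T : Finset ι}
  {i i' j j' a b c : ι}

private theorem Str_three {S : Finset ι} {x y : ι} (hx : x ∈ S) (hy : y ∈ S) (hxy : x ≠ y)
    (hc : S.card ≤ 3) : S = {x, y} ∨ ∃ a, a ∈ S ∧ a ≠ x ∧ a ≠ y ∧ S = {a, x, y} := by
  by_cases h : ∃ a ∈ S, a ≠ x ∧ a ≠ y
  · obtain ⟨a, ha, hax, hay⟩ := h
    refine Or.inr ⟨a, ha, hax, hay, ?_⟩
    symm
    apply Finset.eq_of_subset_of_card_le
    · intro z hz
      simp only [Finset.mem_insert, Finset.mem_singleton] at hz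
      rcases hz with rfl | rfl | rfl <;> assumption
    · rw [Finset.card_eq_three.2 ⟨a, x, y, hax, hay, hxy, rfl⟩]
      exact hc
  · left
    ext z
    simp only [Finset.mem_insert, Finset.mem_singleton]
    constructor
    · intro hz
      by_contra hne
      push Not at hne
      exact h ⟨z, hz, hne.1, hne.2⟩
    · rintro (rfl | rfl) <;> assumption

theorem small_row (h : Cox n g) (hs : Small3 g) (q : Quad n g T i i' j j') :
    ¬ PD g {i, i'} ∨ ∃ a ∈ T, ¬ PD g {a, i, i'} := by
  obtain ⟨S, hS, hc, hn⟩ := hs _ (quad_row h q)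
  have hi : i ∈ S := by
    by_contra hi
    refine hn (pd_subset q.v3 fun z hz => ?_)
    have := hS hz
    simp only [Finset.mem_insert] at this ⊢
    rcases this with rfl | h1 | h1
    · exact absurd hz hi
    · exact Or.inl h1
    · exact Or.inr (Or.inr h1)
  have hi' : i' ∈ S := by
    by_contra hi'
    refine hn (pd_subset q.v1 fun z hz => ?_)
    have := hS hz
    simp only [Finset.mem_insert] at this ⊢
    rcases this with h1 | rfl | h1
    · exact Or.inl h1
    · exact absurd hz hi'
    · exact Or.inr (Or.inr h1)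
  rcases Str_three hi hi' q.ii' hc with h1 | ⟨a, haS, hai, hai', h1⟩
  · left
    rw [← h1]
    exact hn
  · right
    refine ⟨a, ?_, ?_⟩
    · have := hS haS
      simp only [Finset.mem_insert] at this
      rcases this with h2 | h2 | h2
      · exact absurd h2 hai
      · exact absurd h2 hai'
      · exact h2
    · rw [← h1]
      exact hn

theorem tri_two (h : Cox n g) (hs : Small3 g) (q : Tri n g T a b c) :
    (g a b ≠ 0 ∧ g a c ≠ 0) ∨ (g a b ≠ 0 ∧ g b c ≠ 0) ∨ (g a c ≠ 0 ∧ g b c ≠ 0) := by
  obtain ⟨S, hS, hcd, hn⟩ := hs _ (tri_npd h q)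
  have ha : a ∈ S := by
    by_contra ha
    refine hn (pd_subset q.v2 fun z hz => ?_)
    have := hS hz
    simp only [Finset.mem_insert] at this ⊢
    rcases this with rfl | h1 | h1 | h1
    · exact absurd hz ha
    · exact Or.inl h1
    · exact Or.inr (Or.inl h1)
    · exact Or.inr (Or.inr h1)
  have hb : b ∈ S := by
    by_contra hb
    refine hn (pd_subset q.v3 fun z hz => ?_)
    have := hS hz
    simp only [Finset.mem_insert] at this ⊢
    rcases this with h1 | rfl | h1 | h1
    · exact Or.inl h1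
    · exact absurd hz hb
    · exact Or.inr (Or.inl h1)
    · exact Or.inr (Or.inr h1)
  have hc : c ∈ S := by
    by_contra hc
    refine hn (pd_subset q.v1 fun z hz => ?_)
    have := hS hz
    simp only [Finset.mem_insert] at this ⊢
    rcases this with h1 | h1 | rfl | h1
    · exact Or.inl h1
    · exact Or.inr (Or.inl h1)
    · exact absurd hz hc
    · exact Or.inr (Or.inr h1)
  have hSe : S = {a, b, c} := by
    rcases Str_three hb hc q.bc hcd with h1 | ⟨x, hx, hxb, hxc, h1⟩
    · rw [h1] at ha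
      simp only [Finset.mem_insert, Finset.mem_singleton] at ha
      rcases ha with h2 | h2
      · exact absurd h2 q.ab
      · exact absurd h2 q.ac
    · rw [h1] at ha
      simp only [Finset.mem_insert, Finset.mem_singleton] at ha
      rcases ha with rfl | h2 | h2
      · exact h1
      · exact absurd h2 q.ab
      · exact absurd h2 q.ac
  have pab : PD g {a, b} := pd_subset q.v1 fun z hz => by
    simp only [Finset.mem_insert, Finset.mem_singleton] at hz ⊢
    rcases hz with h1 | h1
    · exact Or.inl h1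
    · exact Or.inr (Or.inl h1)
  have pac : PD g {a, c} := pd_subset q.v3 fun z hz => by
    simp only [Finset.mem_insert, Finset.mem_singleton] at hz ⊢
    rcases hz with h1 | h1
    · exact Or.inl h1
    · exact Or.inr (Or.inl h1)
  have pbc : PD g {b, c} := pd_subset q.v2 fun z hz => by
    simp only [Finset.mem_insert, Finset.mem_singleton] at hz ⊢
    rcases hz with h1 | h1
    · exact Or.inl h1
    · exact Or.inr (Or.inl h1)
  exact s_conn3 h.toDiag q.ab q.ac q.bc pab pac pbc (by rw [← hSe]; exact hn)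

private theorem Str_near {S : Finset ι} {x y : ι} (hxy : x ≠ y) (hn : ¬ near g S x y) :
    g x y = 0 ∧ ∀ z ∈ S, adj g x z → ¬ adj g z y := by
  constructor
  · by_contra h0
    exact hn ⟨hxy, Or.inl h0⟩
  · intro z hz h1 h2
    exact hn ⟨hxy, Or.inr ⟨z, hz, h1, h2⟩⟩

/-- In a `Star` the two opposite pairs of sides are orthogonal. -/
theorem Star.orth (q : Star n g T i i' j j') :
    g i j = 0 ∧ g i j' = 0 ∧ g i' j = 0 ∧ g i' j' = 0 :=
  ⟨(Str_near q.ij q.n1).1, (Str_near q.ij' q.n2).1, (Str_near q.i'j q.n3).1,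
    (Str_near q.i'j' q.n4).1⟩

/-- no adjacency and no common neighbour in `T` between the two pairs -/
private theorem Str_nn (q : Star n g T i i' j j') {x y : ι} (hx : x = i ∨ x = i')
    (hy : y = j ∨ y = j') : g x y = 0 ∧ ∀ z ∈ T, g x z ≠ 0 → g z y ≠ 0 → False := by
  have key : ∀ {S : Finset ι} {x y : ι}, x ≠ y → ¬ near g S x y → T ⊆ S → x ∉ T → y ∉ T →
      g x y = 0 ∧ ∀ z ∈ T, g x z ≠ 0 → g z y ≠ 0 → False := by
    intro S x y hxy hn hTS hxT hyT
    obtain ⟨h1, h2⟩ := Str_near hxy hn
    refine ⟨h1, fun z hz h3 h4 => h2 z (hTS hz) ⟨?_, h3⟩ ⟨?_, h4⟩⟩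
    · rintro rfl
      exact hxT hz
    · rintro rfl
      exact hyT hz
  have hsub : ∀ x y : ι, T ⊆ insert x (insert y T) := fun x y =>
    (Finset.subset_insert y T).trans (Finset.subset_insert x _)
  rcases hx with rfl | rfl <;> rcases hy with rfl | rfl
  · exact key q.ij q.n1 (hsub _ _) q.hi q.hj
  · exact key q.ij' q.n2 (hsub _ _) q.hi q.hj'
  · exact key q.i'j q.n3 (hsub _ _) q.hi' q.hj
  · exact key q.i'j' q.n4 (hsub _ _) q.hi' q.hj'

private theorem Str_pairs (q : Quad n g T i i' j j') {t : ι} (ht : t ∈ T) :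
    PD g {t, i} ∧ PD g {t, i'} ∧ PD g {t, j} ∧ PD g {t, j'} := by
  refine ⟨pd_subset q.v1 fun z hz => ?_, pd_subset q.v3 fun z hz => ?_,
    pd_subset q.v1 fun z hz => ?_, pd_subset q.v2 fun z hz => ?_⟩ <;>
  simp only [Finset.mem_insert, Finset.mem_singleton] at hz ⊢ <;>
  rcases hz with rfl | rfl <;> tauto

private theorem Str_adj (h : Cox n g) (q : Quad n g T i i' j j') {t : ι} (ht : t ∈ T)
    (hp : PD g {i, i'}) (hn : ¬ PD g {t, i, i'}) : g t i ≠ 0 ∨ g t i' ≠ 0 := by
  obtain ⟨h1, h2, -, -⟩ := Str_pairs q ht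
  have hti : t ≠ i := by
    rintro rfl
    exact q.hi ht
  have hti' : t ≠ i' := by
    rintro rfl
    exact q.hi' ht
  rcases s_conn3 h.toDiag hti hti' q.ii' h1 h2 hp hn with h3 | h3 | h3
  · exact Or.inl h3.1
  · exact Or.inl h3.1
  · exact Or.inr h3.1

private theorem Str_P (h : Cox n g) (hs : Small3 g) (q : Star n g T i i' j j') :
    PD g {i, i'} := by
  by_contra hn
  have hij : ∀ x ∈ ({i, i'} : Finset ι), x = i ∨ x = i' := fun x hx => by
    simpa only [Finset.mem_insert, Finset.mem_singleton] using hx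
  have hno : ∀ x ∈ ({i, i'} : Finset ι), x ≠ j ∧ x ≠ j' ∧ x ∉ T := by
    intro x hx
    rcases hij x hx with rfl | rfl
    · exact ⟨q.ij, q.ij', q.hi⟩
    · exact ⟨q.i'j, q.i'j', q.hi'⟩
  by_cases hp : PD g {j, j'}
  · rcases small_row h hs q.toQuad.swap with h1 | ⟨b, hb, h1⟩
    · exact h1 hp
    · have hd : Disjoint ({i, i'} : Finset ι) {b, j, j'} := by
        rw [Finset.disjoint_left]
        intro x hx hx2
        obtain ⟨h2, h3, h4⟩ := hno x hx
        simp only [Finset.mem_insert, Finset.mem_singleton] at hx2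
        rcases hx2 with rfl | h5 | h5
        · exact h4 hb
        · exact h2 h5
        · exact h3 h5
      obtain ⟨x, hx, y, hy, hxy⟩ := h.joined _ _ hn h1 hd
      have hx' := hij x hx
      simp only [Finset.mem_insert, Finset.mem_singleton] at hy
      rcases hy with rfl | hy
      · rcases Str_adj h q.toQuad.swap hb hp h1 with h6 | h6
        · exact (Str_nn q hx' (Or.inl rfl)).2 _ hb hxy h6
        · exact (Str_nn q hx' (Or.inr rfl)).2 _ hb hxy h6
      · exact hxy (Str_nn q hx' hy).1
  · have hd : Disjoint ({i, i'} : Finset ι) {j, j'} := by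
      rw [Finset.disjoint_left]
      intro x hx hx2
      obtain ⟨h2, h3, h4⟩ := hno x hx
      simp only [Finset.mem_insert, Finset.mem_singleton] at hx2
      rcases hx2 with h5 | h5
      · exact h2 h5
      · exact h3 h5
    obtain ⟨x, hx, y, hy, hxy⟩ := h.joined _ _ hn hp hd
    simp only [Finset.mem_insert, Finset.mem_singleton] at hy
    exact hxy (Str_nn q (hij x hx) hy).1

theorem star_struct (h : Cox n g) (hs : Small3 g) (q : Star n g T i i' j j') :
    PD g {i, i'} ∧ PD g {j, j'} ∧ (∃ a ∈ T, ¬ PD g {a, i, i'}) ∧ (∃ b ∈ T, ¬ PD g {b, j, j'}) ∧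
      ∀ a ∈ T, ∀ b ∈ T, ¬ PD g {a, i, i'} → ¬ PD g {b, j, j'} → a ≠ b ∧ g a b ≠ 0 := by
  have hp := Str_P h hs q
  have hp' := Str_P h hs (Star.swap h.toDiag q)
  refine ⟨hp, hp', (small_row h hs q.toQuad).resolve_left (not_not.2 hp),
    (small_row h hs q.toQuad.swap).resolve_left (not_not.2 hp'), fun a ha b hb hna hnb => ?_⟩
  have ha1 : ∃ x, (x = i ∨ x = i') ∧ g x a ≠ 0 := by
    rcases Str_adj h q.toQuad ha hp hna with h1 | h1
    · exact ⟨i, Or.inl rfl, by rw [h.symm]; exact h1⟩
    · exact ⟨i', Or.inr rfl, by rw [h.symm]; exact h1⟩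
  have hb1 : ∃ y, (y = j ∨ y = j') ∧ g b y ≠ 0 := by
    rcases Str_adj h q.toQuad.swap hb hp' hnb with h1 | h1
    · exact ⟨j, Or.inl rfl, h1⟩
    · exact ⟨j', Or.inr rfl, h1⟩
  obtain ⟨x, hx, hxa⟩ := ha1
  obtain ⟨y, hy, hby⟩ := hb1
  have hne : a ≠ b := by
    rintro rfl
    exact (Str_nn q hx hy).2 _ ha hxa hby
  refine ⟨hne, ?_⟩
  have hd : Disjoint ({a, i, i'} : Finset ι) {b, j, j'} := by
    rw [Finset.disjoint_left]
    intro z hz hz2
    simp only [Finset.mem_insert, Finset.mem_singleton] at hz hz2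
    rcases hz with rfl | rfl | rfl <;> rcases hz2 with h1 | h1 | h1
    · exact hne h1
    · exact q.hj (h1 ▸ ha)
    · exact q.hj' (h1 ▸ ha)
    · exact q.hi (h1 ▸ hb)
    · exact q.ij h1
    · exact q.ij' h1
    · exact q.hi' (h1 ▸ hb)
    · exact q.i'j h1
    · exact q.i'j' h1
  obtain ⟨u, hu, v, hv, huv⟩ := h.joined _ _ hna hnb hd
  simp only [Finset.mem_insert, Finset.mem_singleton] at hu hv
  rcases hu with rfl | hu
  · rcases hv with rfl | hv
    · exact huv
    · exact ((Str_nn q hx hv).2 _ ha hxa huv).elim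
  · rcases hv with rfl | hv
    · exact ((Str_nn q hu hy).2 _ hb huv hby).elim
    · exact (huv (Str_nn q hu hv).1).elim

theorem star_pd3 (h : Cox n g) (hs : Small3 g) (q : Star n g T i i' j j') (ha : a ∈ T)
    (hu : ∀ t ∈ T, ¬ PD g {t, i, i'} → t = a) (hr : PD g {i, i'}) :
    PD g (insert i (insert i' (insert j (T.erase a)))) := by
  by_contra hc
  obtain ⟨S, hS, hcd, hn⟩ := hs _ hc
  have hi : i ∈ S := by
    by_contra hi
    refine hn (pd_subset q.v3 fun z hz => ?_)
    have := hS hz
    simp only [Finset.mem_insert, Finset.mem_erase] at this ⊢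
    rcases this with rfl | h1 | h1 | h1
    · exact absurd hz hi
    · exact Or.inl h1
    · exact Or.inr (Or.inl h1)
    · exact Or.inr (Or.inr h1.2)
  have hi' : i' ∈ S := by
    by_contra hi'
    refine hn (pd_subset q.v1 fun z hz => ?_)
    have := hS hz
    simp only [Finset.mem_insert, Finset.mem_erase] at this ⊢
    rcases this with h1 | rfl | h1 | h1
    · exact Or.inl h1
    · exact absurd hz hi'
    · exact Or.inr (Or.inl h1)
    · exact Or.inr (Or.inr h1.2)
  rcases Str_three hi hi' q.ii' hcd with h1 | ⟨t, htS, hti, hti', h1⟩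
  · rw [h1] at hn
    exact hn hr
  · rw [h1] at hn
    have := hS htS
    simp only [Finset.mem_insert, Finset.mem_erase] at this
    rcases this with h2 | h2 | rfl | h2
    · exact hti h2
    · exact hti' h2
    · obtain ⟨o1, o2, o3, o4⟩ := q.orth
      refine hn ?_
      have hU := pd_union (g := g) (A := {t}) (B := {i, i'}) h.symm
        (by
          rw [Finset.disjoint_singleton_left]
          simp only [Finset.mem_insert, Finset.mem_singleton]
          rintro (h3 | h3)
          · exact hti h3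
          · exact hti' h3) (pd_single (h.diag t)) hr (by
          intro x hx y hy
          simp only [Finset.mem_insert, Finset.mem_singleton] at hx hy
          rw [hx]
          rcases hy with rfl | rfl
          · rw [h.symm]; exact o1
          · rw [h.symm]; exact o3)
      rwa [← Finset.insert_eq] at hU
    · exact h2.1 (hu t h2.2 hn)

end MP86a502
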