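import Pool.Agent.Lib.MP_86a502_gt.Ang

set_option autoImplicit false
set_option linter.unusedSectionVars false

/-! # JOB Sym. Symmetries of `Quad`, `Star`, `Case2` (60-120 lines, easy)

Only `Finset.insert_comm` (or `Finset.Insert.comm`), `Ne.symm`, `Diag.near_comm`, `h.symm`, and
`Finset.pair_comm` for `{i, i'}`. -/

namespace MP86a502

variable {ι : Type} [Fintype ι] [DecidableEq ι] {n : ℕ} {g : ι → ι → ℝ} {T : Finset ι}
  {i i' j j' a b : ι}

theorem Quad.swap (q : Quad n g T i i' j j') : Quad n g T j j' i i' where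
  face := q.face
  pd := q.pd
  hi := q.hj
  hi' := q.hj'
  hj := q.hi
  hj' := q.hi'
  ii' := q.jj'
  jj' := q.ii'
  ij := q.ij.symm
  ij' := q.i'j.symm
  i'j := q.ij'.symm
  i'j' := q.i'j'.symm
  v1 := by rw [Finset.insert_comm]; exact q.v1
  v2 := by rw [Finset.insert_comm]; exact q.v3
  v3 := by rw [Finset.insert_comm]; exact q.v2
  v4 := by rw [Finset.insert_comm]; exact q.v4

theorem Quad.flip (q : Quad n g T i i' j j') : Quad n g T i' i j j' where
  face := q.face
  pd := q.pd
  hi := q.hi'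
  hi' := q.hi
  hj := q.hj
  hj' := q.hj'
  ii' := q.ii'.symm
  jj' := q.jj'
  ij := q.i'j
  ij' := q.i'j'
  i'j := q.ij
  i'j' := q.ij'
  v1 := q.v3
  v2 := q.v4
  v3 := q.v1
  v4 := q.v2

theorem Quad.flip' (q : Quad n g T i i' j j') : Quad n g T i i' j' j where
  face := q.face
  pd := q.pd
  hi := q.hi
  hi' := q.hi'
  hj := q.hj'
  hj' := q.hj
  ii' := q.ii'
  jj' := q.jj'.symm
  ij := q.ij'
  ij' := q.ij
  i'j := q.i'j'
  i'j' := q.i'j
  v1 := q.v2
  v2 := q.v1
  v3 := q.v4
  v4 := q.v3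

theorem Star.swap (h : Diag g) (q : Star n g T i i' j j') : Star n g T j j' i i' where
  toQuad := q.toQuad.swap
  n1 := by rw [Finset.insert_comm, h.near_comm]; exact q.n1
  n2 := by rw [Finset.insert_comm, h.near_comm]; exact q.n3
  n3 := by rw [Finset.insert_comm, h.near_comm]; exact q.n2
  n4 := by rw [Finset.insert_comm, h.near_comm]; exact q.n4

theorem Star.flip (q : Star n g T i i' j j') : Star n g T i' i j j' where
  toQuad := q.toQuad.flip
  n1 := q.n3
  n2 := q.n4
  n3 := q.n1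
  n4 := q.n2

theorem Star.flip' (q : Star n g T i i' j j') : Star n g T i i' j' j where
  toQuad := q.toQuad.flip'
  n1 := q.n2
  n2 := q.n1
  n3 := q.n4
  n4 := q.n3

theorem Case2.swap (h : Diag g) (q : Case2 n g T i i' j j' a b) : Case2 n g T j j' i i' b a where
  toStar := q.toStar.swap h
  ha := q.hb
  hb := q.ha
  hab := q.hab.symm
  nA := q.nB
  nB := q.nA
  uA := q.uB
  uB := q.uA
  pr := q.pc
  pc := q.pr
  ai := q.bj
  ai' := q.bj'
  rr := q.cc
  bj := q.ai
  bj' := q.ai'
  cc := q.rr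
  ab := by rw [h.symm]; exact q.ab

end MP86a502
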