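import Pool.Agent.Lib.MP_86a502_gt.Tre

set_option autoImplicit false
set_option linter.unusedSectionVars false

/-! # JOB Trb. `con_bound` (150-220 lines). The proof is in the header of `Tre.lean` (you may use its theorems). -/

namespace MP86a502

variable {ι : Type} [DecidableEq ι] {g : ι → ι → ℝ}

private theorem trb_deg2 {S : Finset ι} {v a b : ι} (ha : a ∈ S) (hb : b ∈ S) (hab : a ≠ b)
    (h1 : adj g v a) (h2 : adj g v b) : 2 ≤ deg g S v := by
  classical
  unfold deg
  rw [← Finset.card_pair hab]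
  refine Finset.card_le_card fun x hx => ?_
  rw [Finset.mem_insert, Finset.mem_singleton] at hx
  rw [Finset.mem_filter]
  rcases hx with rfl | rfl
  · exact ⟨ha, h1⟩
  · exact ⟨hb, h2⟩

private theorem trb_deg3 {S : Finset ι} {v a b c : ι} (ha : a ∈ S) (hb : b ∈ S) (hc : c ∈ S)
    (hab : a ≠ b) (hac : a ≠ c) (hbc : b ≠ c)
    (h1 : adj g v a) (h2 : adj g v b) (h3 : adj g v c) : 3 ≤ deg g S v := by
  classical
  unfold deg
  have h : ({a, b, c} : Finset ι).card = 3 := Finset.card_eq_three.2 ⟨a, b, c, hab, hac, hbc, rfl⟩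
  rw [← h]
  refine Finset.card_le_card fun x hx => ?_
  rw [Finset.mem_insert, Finset.mem_insert, Finset.mem_singleton] at hx
  rw [Finset.mem_filter]
  rcases hx with rfl | rfl | rfl
  · exact ⟨ha, h1⟩
  · exact ⟨hb, h2⟩
  · exact ⟨hc, h3⟩

private theorem trb_deg1 {S : Finset ι} {v a : ι} (ha : a ∈ S) (h1 : adj g v a) : 1 ≤ deg g S v := by
  classical
  unfold deg
  exact Finset.card_pos.2 ⟨a, Finset.mem_filter.2 ⟨ha, h1⟩⟩

open scoped Classical in
private theorem trb_deg_sum (S : Finset ι) (v : ι) :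
    (deg g S v : ℝ) = ∑ w ∈ S, if adj g v w then (1 : ℝ) else 0 := by
  unfold deg
  rw [Finset.sum_boole]

open scoped Classical in
private theorem trb_big_sum (S : Finset ι) :
    (bigP g S : ℝ) = ∑ v ∈ S, ∑ w ∈ S, if big g v w then (1 : ℝ) else 0 := by
  unfold bigP
  rw [← Finset.sum_product', Finset.sum_boole]

/-- The sum of the degrees is even. -/
private theorem trb_even (h : Diag g) (S : Finset ι) : Even (∑ v ∈ S, deg g S v) := by
  classical
  have h1 : ∑ v ∈ S, deg g S v = ((S ×ˢ S).filter (fun p => adj g p.1 p.2)).card := by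
    rw [Finset.card_filter, Finset.sum_product]
    refine Finset.sum_congr rfl fun v _ => ?_
    unfold deg
    rw [Finset.card_filter]
  rw [h1, ← ZMod.natCast_eq_zero_iff_even]
  have h2 : ∑ _p ∈ (S ×ˢ S).filter (fun p => adj g p.1 p.2), (1 : ZMod 2) = 0 := by
    refine Finset.sum_involution (fun p _ => (p.2, p.1)) ?_ ?_ ?_ ?_
    · intro a _
      decide
    · intro a ha _ hc
      have := (Finset.mem_filter.1 ha).2.1
      exact this (Prod.ext_iff.1 hc).2
    · intro a ha
      rw [Finset.mem_filter, Finset.mem_product] at ha ⊢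
      exact ⟨⟨ha.1.2, ha.1.1⟩, h.adj_comm.1 ha.2⟩
    · intro a _
      rfl
  rw [Finset.sum_const, nsmul_eq_mul, mul_one] at h2
  exact h2

/-- two leaves are not adjacent -/
private theorem trb_leaf (h : Diag g) {K : Finset ι} (hc : Con g K) (h3 : 3 ≤ K.card) {u v : ι}
    (hu : u ∈ K) (hv : v ∈ K) (hadj : adj g u v) : ¬ (deg g K u = 1 ∧ deg g K v = 1) := by
  rintro ⟨hdu, hdv⟩
  obtain ⟨a, ha, b, hb, hba, hab⟩ := hc {u, v} (by
    intro x hx
    rw [Finset.mem_insert, Finset.mem_singleton] at hx
    rcases hx with rfl | rfl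
    · exact hu
    · exact hv) ⟨u, by simp⟩ (by
    intro hh
    have h1 := Finset.card_le_two (a := u) (b := v)
    rw [hh] at h1
    omega)
  rw [Finset.mem_insert, Finset.mem_singleton, not_or] at hba
  rw [Finset.mem_insert, Finset.mem_singleton] at ha
  rcases ha with rfl | rfl
  · have := trb_deg2 hv hb (Ne.symm hba.2) hadj hab
    omega
  · have := trb_deg2 hu hb (Ne.symm hba.1) (h.adj_comm.1 hadj) hab
    omega

/-- The inequality from the vector with `1` at the leaves and `2` elsewhere. -/
private theorem trb_ineq (h : Diag g) {K : Finset ι} (hK : PD g K) (hne : K.Nonempty)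
    (hc : Con g K) (h3 : 3 ≤ K.card) :
    2 * (∑ v ∈ K, (deg g K v : ℝ)) + ((K.filter (fun v => deg g K v = 1)).card : ℝ) +
      618 / 1000 * (bigP g K : ℝ) < 4 * (K.card : ℝ) := by
  classical
  set lf : ι → ℝ := fun v => if deg g K v = 1 then 1 else 0 with hlf
  set c : ι → ℝ := fun v => 2 - lf v with hcdef
  have hlf01 : ∀ v, lf v = 0 ∨ lf v = 1 := by
    intro v
    simp only [hlf]
    split_ifs
    · exact Or.inr rfl
    · exact Or.inl rfl
  have hpos := hK c ⟨hne.choose, hne.choose_spec, by
    rcases hlf01 hne.choose with h1 | h1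
    · simp only [hcdef, h1]; norm_num
    · simp only [hcdef, h1]; norm_num⟩
  have hterm : ∀ i ∈ K, ∀ j ∈ K, c i * c j * g i j ≤ (if i = j then (4 - 3 * lf i) else 0) -
      (if adj g i j then (2 - lf i - lf j : ℝ) else 0) - 618 / 1000 * (if big g i j then (1 : ℝ) else 0) := by
    intro i hi j hj
    by_cases hij : i = j
    · subst hij
      have h1 : ¬ adj g i i := fun h2 => h2.1 rfl
      have h2 : ¬ big g i i := fun h2 => h2.1 rfl
      rw [if_pos rfl, if_neg h1, if_neg h2, h.diag]
      rcases hlf01 i with h3 | h3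
      · simp only [hcdef, h3]; norm_num
      · simp only [hcdef, h3]; norm_num
    · rw [if_neg hij]
      by_cases hadj : adj g i j
      · have h1 : ¬ (lf i = 1 ∧ lf j = 1) := by
          rintro ⟨h1, h2⟩
          refine trb_leaf h hc h3 hi hj hadj ⟨?_, ?_⟩
          · by_contra h4
            simp only [hlf] at h1
            rw [if_neg h4] at h1
            norm_num at h1
          · by_contra h4
            simp only [hlf] at h2
            rw [if_neg h4] at h2
            norm_num at h2
        have h2 := h.half hij hadj.2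
        rw [if_pos hadj]
        have hcc : c i * c j = 4 - 2 * lf i - 2 * lf j ∧ 2 ≤ c i * c j := by
          rcases hlf01 i with h3 | h3 <;> rcases hlf01 j with h4 | h4
          · simp only [hcdef, h3, h4]; norm_num
          · simp only [hcdef, h3, h4]; norm_num
          · simp only [hcdef, h3, h4]; norm_num
          · exact absurd ⟨h3, h4⟩ h1
        by_cases hbig : big g i j
        · have h3 := h.big_le hbig
          rw [if_pos hbig]
          nlinarith [hcc.1, hcc.2]
        · rw [if_neg hbig]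
          nlinarith [hcc.1, hcc.2]
      · have h0 : g i j = 0 := by
          by_contra h4
          exact hadj ⟨hij, h4⟩
        have h2 : ¬ big g i j := fun h2 => hadj (big_adj h2)
        rw [if_neg hadj, if_neg h2, h0]
        norm_num
  have hsum := Finset.sum_le_sum fun i hi => Finset.sum_le_sum fun j hj => hterm i hi j hj
  have hA : ∑ i ∈ K, ∑ j ∈ K, (if i = j then (4 - 3 * lf i) else 0) =
      4 * (K.card : ℝ) - 3 * ((K.filter (fun v => deg g K v = 1)).card : ℝ) := by
    have h1 : ∀ i ∈ K, ∑ j ∈ K, (if i = j then (4 - 3 * lf i) else 0) = 4 - 3 * lf i := by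
      intro i hi
      rw [Finset.sum_ite_eq, if_pos hi]
    rw [Finset.sum_congr rfl h1, Finset.sum_sub_distrib, ← Finset.mul_sum, Finset.sum_const, nsmul_eq_mul]
    simp only [hlf]
    rw [Finset.sum_boole]
    ring
  have hlfd : ∀ i ∈ K, lf i * (deg g K i : ℝ) = lf i := by
    intro i _
    simp only [hlf]
    split_ifs with h1
    · rw [h1]; norm_num
    · norm_num
  have hB : ∑ i ∈ K, ∑ j ∈ K, (if adj g i j then (2 - lf i - lf j : ℝ) else 0) =
      2 * (∑ v ∈ K, (deg g K v : ℝ)) - 2 * ((K.filter (fun v => deg g K v = 1)).card : ℝ) := by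
    have h1 : ∀ i ∈ K, ∀ j ∈ K, (if adj g i j then (2 - lf i - lf j : ℝ) else 0) =
        (2 - lf i) * (if adj g i j then (1 : ℝ) else 0) - lf j * (if adj g j i then (1 : ℝ) else 0) := by
      intro i _ j _
      by_cases h2 : adj g i j
      · rw [if_pos h2, if_pos h2, if_pos (h.adj_comm.1 h2)]
        ring
      · rw [if_neg h2, if_neg h2, if_neg (fun h3 => h2 (h.adj_comm.1 h3))]
        ring
    rw [Finset.sum_congr rfl fun i hi => Finset.sum_congr rfl fun j hj => h1 i hi j hj]
    have h2 : ∑ i ∈ K, ∑ j ∈ K, ((2 - lf i) * (if adj g i j then (1 : ℝ) else 0) -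
        lf j * (if adj g j i then (1 : ℝ) else 0)) =
        ∑ i ∈ K, (2 - lf i) * (deg g K i : ℝ) - ∑ j ∈ K, lf j * (deg g K j : ℝ) := by
      simp only [Finset.sum_sub_distrib]
      congr 1
      · refine Finset.sum_congr rfl fun i _ => ?_
        rw [← Finset.mul_sum, ← trb_deg_sum]
      · rw [Finset.sum_comm]
        refine Finset.sum_congr rfl fun i _ => ?_
        rw [← Finset.mul_sum, ← trb_deg_sum]
    rw [h2, Finset.sum_congr rfl hlfd]
    have h3 : ∑ i ∈ K, (2 - lf i) * (deg g K i : ℝ) = ∑ i ∈ K, (2 * (deg g K i : ℝ) - lf i) := by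
      refine Finset.sum_congr rfl fun i hi => ?_
      rw [sub_mul, hlfd i hi]
    rw [h3, Finset.sum_sub_distrib, ← Finset.mul_sum]
    simp only [hlf]
    rw [Finset.sum_boole]
    ring
  have hC : ∑ i ∈ K, ∑ j ∈ K, 618 / 1000 * (if big g i j then (1 : ℝ) else 0) =
      618 / 1000 * (bigP g K : ℝ) := by
    rw [trb_big_sum]
    simp only [← Finset.mul_sum]
  simp only [Finset.sum_sub_distrib] at hsum
  rw [hA, hB, hC] at hsum
  linarith

/-- In a large connected set there is no big pair. -/
private theorem trb_nobig1 (h : Diag g) {K : Finset ι} (hK : PD g K)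
    (hc : Con g K) (h5 : 5 ≤ K.card) (hd : ∀ v ∈ K, deg g K v ≤ 2) {u v : ι} (hu : u ∈ K)
    (hv : v ∈ K) (hb : big g u v) (hex : ∀ u' ∈ K, adj g u u' → u' = v) : False := by
  have huv : u ≠ v := hb.1
  have hvu : adj g v u := h.adj_comm.1 (big_adj hb)
  have hcard : ∀ A : Finset ι, A.card ≤ 4 → A ≠ K := by
    intro A hA hh
    rw [hh] at hA
    omega
  -- third vertex
  obtain ⟨a, ha, w, hw, hwa, haw⟩ := hc {u, v} (by
    intro x hx
    simp only [Finset.mem_insert, Finset.mem_singleton] at hx
    rcases hx with rfl | rfl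
    · exact hu
    · exact hv) ⟨u, by simp⟩ (hcard _ (Finset.card_le_two.trans (by norm_num)))
  simp only [Finset.mem_insert, Finset.mem_singleton, not_or] at ha hwa
  have hvw : adj g v w := by
    rcases ha with rfl | rfl
    · exact absurd (hex w hw haw) hwa.2
    · exact haw
  clear ha haw
  -- fourth vertex
  obtain ⟨a, ha, x, hx, hxa, hax⟩ := hc {u, v, w} (by
    intro x hx
    simp only [Finset.mem_insert, Finset.mem_singleton] at hx
    rcases hx with rfl | rfl | rfl
    · exact hu
    · exact hv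
    · exact hw) ⟨u, by simp⟩ (hcard _ (Finset.card_le_three.trans (by norm_num)))
  simp only [Finset.mem_insert, Finset.mem_singleton, not_or] at ha hxa
  have hwx : adj g w x := by
    rcases ha with rfl | rfl | rfl
    · exact absurd (hex x hx hax) hxa.2.1
    · have := trb_deg3 hu hw hx (Ne.symm hwa.1) (Ne.symm hxa.1) (Ne.symm hxa.2.2) hvu hvw hax
      have := hd a hv
      omega
    · exact hax
  clear ha hax
  -- fifth vertex
  obtain ⟨a, ha, y, hy, hya, hay⟩ := hc {u, v, w, x} (by
    intro z hz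
    simp only [Finset.mem_insert, Finset.mem_singleton] at hz
    rcases hz with rfl | rfl | rfl | rfl
    · exact hu
    · exact hv
    · exact hw
    · exact hx) ⟨u, by simp⟩ (hcard _ Finset.card_le_four)
  simp only [Finset.mem_insert, Finset.mem_singleton, not_or] at ha hya
  have hxy : adj g x y := by
    rcases ha with rfl | rfl | rfl | rfl
    · exact absurd (hex y hy hay) hya.2.1
    · have := trb_deg3 hu hw hy (Ne.symm hwa.1) (Ne.symm hya.1) (Ne.symm hya.2.2.1) hvu hvw hay
      have := hd a hv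
      omega
    · have := trb_deg3 hv hx hy (Ne.symm hxa.2.1) (Ne.symm hya.2.1) (Ne.symm hya.2.2.2)
        (h.adj_comm.1 hvw) hwx hay
      have := hd a hw
      omega
    · exact hay
  refine s_5333 h hb hvw hwx hxy ?_ (pd_subset hK ?_)
  · simp only [List.nodup_cons, List.mem_cons, List.not_mem_nil, or_false, not_or,
      not_false_eq_true, List.nodup_nil, and_true]
    exact ⟨⟨huv, Ne.symm hwa.1, Ne.symm hxa.1, Ne.symm hya.1⟩,
      ⟨Ne.symm hwa.2, Ne.symm hxa.2.1, Ne.symm hya.2.1⟩, ⟨Ne.symm hxa.2.2, Ne.symm hya.2.2.1⟩,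
      Ne.symm hya.2.2.2⟩
  · intro z hz
    simp only [Finset.mem_insert, Finset.mem_singleton] at hz
    rcases hz with rfl | rfl | rfl | rfl | rfl
    · exact hu
    · exact hv
    · exact hw
    · exact hx
    · exact hy

private theorem trb_nobig (h : Diag g) {K : Finset ι} (hK : PD g K)
    (hc : Con g K) (h5 : 5 ≤ K.card) (hd : ∀ v ∈ K, deg g K v ≤ 2) {u v : ι} (hu : u ∈ K)
    (hv : v ∈ K) (hb : big g u v) : False := by
  by_cases h1 : ∀ u' ∈ K, adj g u u' → u' = v
  · exact trb_nobig1 h hK hc h5 hd hu hv hb h1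
  by_cases h2 : ∀ v' ∈ K, adj g v v' → v' = u
  · exact trb_nobig1 h hK hc h5 hd hv hu (h.big_comm.1 hb) h2
  push Not at h1 h2
  obtain ⟨u', hu', hau, hne⟩ := h1
  obtain ⟨v', hv', hav, hne'⟩ := h2
  have huv' : u' ≠ v' := by
    rintro rfl
    refine s_cyc3 h (big_adj hb) hav hau (pd_subset hK ?_)
    intro z hz
    simp only [Finset.mem_insert, Finset.mem_singleton] at hz
    rcases hz with rfl | rfl | rfl
    · exact hu
    · exact hv
    · exact hu'
  refine s_353 h (h.adj_comm.1 hau) hb hav ?_ (pd_subset hK ?_)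
  · simp only [List.nodup_cons, List.mem_cons, List.not_mem_nil, or_false, not_or,
      not_false_eq_true, List.nodup_nil, and_true]
    exact ⟨⟨Ne.symm hau.1, hne, huv'⟩, ⟨hb.1, Ne.symm hne'⟩, hav.1⟩
  · intro z hz
    simp only [Finset.mem_insert, Finset.mem_singleton] at hz
    rcases hz with rfl | rfl | rfl | rfl
    · exact hu'
    · exact hu
    · exact hv
    · exact hv'

private theorem trb_bigle (S : Finset ι) (hS : 0 < bigP g S) : ∃ u ∈ S, ∃ v ∈ S, big g u v := by
  classical
  unfold bigP at hS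
  obtain ⟨p, hp⟩ := Finset.card_pos.1 hS
  rw [Finset.mem_filter, Finset.mem_product] at hp
  exact ⟨p.1, hp.1.1, p.2, hp.1.2, hp.2⟩

theorem con_bound (h : Diag g) {K : Finset ι} (hK : PD g K) (hne : K.Nonempty) (hc : Con g K) :
    ∑ v ∈ K, (deg g K v) ^ 2 + 2 * bigP g K + 2 ≤ 4 * K.card ∧
      (5 ≤ K.card → ∑ v ∈ K, (deg g K v) ^ 2 + 2 * bigP g K + 4 ≤ 4 * K.card) := by
  classical
  have hdeg1 := con_deg h hc hne
  have hdeg2 := pd_deg h hK hne
  have hbe := bigP_even h K
  have hde := trb_even h K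
  have hk1 := Finset.card_pos.2 hne
  have hdeg2' : ∑ v ∈ K, deg g K v < 2 * K.card := by
    have h1 : (0 : ℝ) ≤ bigP g K := Nat.cast_nonneg _
    have h2 : ((∑ v ∈ K, deg g K v : ℕ) : ℝ) < ((2 * K.card : ℕ) : ℝ) := by
      push_cast
      linarith
    exact_mod_cast h2
  have hD : ∑ v ∈ K, deg g K v + 2 = 2 * K.card := by
    obtain ⟨r, hr⟩ := hde
    omega
  by_cases h3 : 3 ≤ K.card
  · -- the general case
    have hin := trb_ineq h hK hne hc h3
    set ℓ := (K.filter (fun v => deg g K v = 1)).card with hℓ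
    have hDr : ∑ v ∈ K, (deg g K v : ℝ) = 2 * (K.card : ℝ) - 2 := by
      have : ((∑ v ∈ K, deg g K v + 2 : ℕ) : ℝ) = ((2 * K.card : ℕ) : ℝ) := by rw [hD]
      push_cast at this
      linarith
    have hin' : (ℓ : ℝ) + 618 / 1000 * (bigP g K : ℝ) < 4 := by
      rw [hDr] at hin
      linarith
    have hd1 : ∀ v ∈ K, 1 ≤ deg g K v := by
      intro v hv
      obtain ⟨a, ha, b, hb, _, hab⟩ := hc {v} (Finset.singleton_subset_iff.2 hv)
        (Finset.singleton_nonempty v) (by
          intro hh
          have h1 := Finset.card_singleton v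
          rw [hh] at h1
          omega)
      rw [Finset.mem_singleton] at ha
      subst ha
      exact trb_deg1 hb hab
    -- the defects
    set t : ι → ℤ := fun v => (deg g K v : ℤ) - 2 + (if deg g K v = 1 then 1 else 0) with ht
    have ht0 : ∀ v ∈ K, 0 ≤ t v := by
      intro v hv
      have h1 := hd1 v hv
      simp only [ht]
      split_ifs with h2
      · rw [h2]; norm_num
      · omega
    have hDz : ∑ v ∈ K, (deg g K v : ℤ) = 2 * (K.card : ℤ) - 2 := by
      have : ((∑ v ∈ K, deg g K v + 2 : ℕ) : ℤ) = ((2 * K.card : ℕ) : ℤ) := by rw [hD]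
      push_cast at this
      linarith
    have hlz : ∑ v ∈ K, (if deg g K v = 1 then (1 : ℤ) else 0) = (ℓ : ℤ) := by
      rw [Finset.sum_boole]
    have hts : ∑ v ∈ K, t v = (ℓ : ℤ) - 2 := by
      simp only [ht]
      rw [Finset.sum_add_distrib, Finset.sum_sub_distrib, hlz, hDz, Finset.sum_const, nsmul_eq_mul]
      ring
    have hl2 : (2 : ℤ) ≤ ℓ := by
      have := Finset.sum_nonneg ht0
      rw [hts] at this
      linarith
    have htle : ∀ v ∈ K, t v ≤ (ℓ : ℤ) - 2 := by
      intro v hv
      rw [← hts]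
      exact Finset.single_le_sum ht0 hv
    have hl3 : ℓ ≤ 3 := by
      have h1 : (0 : ℝ) ≤ bigP g K := Nat.cast_nonneg _
      have h2 : (ℓ : ℝ) < 4 := by linarith
      have h3 : ℓ < 4 := by exact_mod_cast h2
      omega
    have hlb : ℓ + bigP g K ≤ 4 := by
      by_contra h1
      obtain ⟨r, hr⟩ := hbe
      have h4 : (5 : ℝ) ≤ (ℓ : ℝ) + (bigP g K : ℝ) := by
        have : 5 ≤ ℓ + bigP g K := by omega
        exact_mod_cast this
      have h5 : (ℓ : ℝ) ≤ 3 := by exact_mod_cast hl3
      have h6 : (2 : ℝ) ≤ ℓ := by exact_mod_cast hl2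
      have h7 : 2 ≤ r := by
        by_contra h8
        have h9 : ℓ = 3 ∧ bigP g K = 2 := by omega
        rw [h9.1, h9.2] at hin'
        norm_num at hin'
      have h8 : (4 : ℝ) ≤ (bigP g K : ℝ) := by
        have : 4 ≤ bigP g K := by omega
        exact_mod_cast this
      linarith
    have hsq : ∑ v ∈ K, (deg g K v : ℤ) ^ 2 ≤ 4 * (K.card : ℤ) + 2 * (ℓ : ℤ) - 10 := by
      have h1 : ∀ v ∈ K, (deg g K v : ℤ) ^ 2 ≤ 4 * (deg g K v : ℤ) - 4 +
          (if deg g K v = 1 then 1 else 0) + t v := by
        intro v hv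
        have h2 := ht0 v hv
        have h4 : t v ≤ 1 := by
          have := htle v hv
          have : (ℓ : ℤ) ≤ 3 := by exact_mod_cast hl3
          linarith
        by_cases h5 : deg g K v = 1
        · rw [if_pos h5]
          simp only [ht]
          rw [if_pos h5, h5]
          norm_num
        · rw [if_neg h5]
          simp only [ht] at h2 h4 ⊢
          rw [if_neg h5] at h2 h4 ⊢
          nlinarith
      refine (Finset.sum_le_sum h1).trans ?_
      rw [Finset.sum_add_distrib, Finset.sum_add_distrib, Finset.sum_sub_distrib, hts, hlz,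
        ← Finset.mul_sum, hDz, Finset.sum_const, nsmul_eq_mul]
      linarith
    have hsq' : ∑ v ∈ K, (deg g K v) ^ 2 + 10 ≤ 4 * K.card + 2 * ℓ := by
      have h1 : ((∑ v ∈ K, (deg g K v) ^ 2 + 10 : ℕ) : ℤ) ≤ ((4 * K.card + 2 * ℓ : ℕ) : ℤ) := by
        push_cast
        linarith
      exact_mod_cast h1
    refine ⟨by omega, fun h5 => ?_⟩
    have hb0 : bigP g K = 0 := by
      by_contra h1
      obtain ⟨r, hr⟩ := hbe
      obtain ⟨u, hu, v, hv, hb⟩ := trb_bigle K (Nat.pos_of_ne_zero h1)
      have hl : ℓ = 2 := by omega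
      refine trb_nobig h hK hc h5 ?_ hu hv hb
      intro w hw
      have h4 := htle w hw
      rw [hl] at h4
      simp only [ht] at h4
      split_ifs at h4 with h6
      · omega
      · push_cast at h4
        omega
    omega
  · -- one or two elements
    refine ⟨?_, fun h5 => absurd h5 (by omega)⟩
    have hb2 : 618 / 1000 * (bigP g K : ℝ) < 2 := by
      have : ((∑ v ∈ K, deg g K v + 2 : ℕ) : ℝ) = ((2 * K.card : ℕ) : ℝ) := by rw [hD]
      push_cast at this
      linarith
    have hb3 : bigP g K ≤ 2 := by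
      by_contra h1
      obtain ⟨r, hr⟩ := hbe
      have h4 : (4 : ℝ) ≤ (bigP g K : ℝ) := by
        have : 4 ≤ bigP g K := by omega
        exact_mod_cast this
      linarith
    have hdl : ∀ v ∈ K, deg g K v ≤ K.card - 1 := by
      intro v hv
      unfold deg
      rw [← Finset.card_erase_of_mem hv]
      refine Finset.card_le_card fun x hx => ?_
      rw [Finset.mem_filter] at hx
      exact Finset.mem_erase.2 ⟨Ne.symm hx.2.1, hx.1⟩
    have hb1 : K.card = 1 → bigP g K = 0 := by
      intro h1
      by_contra h2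
      obtain ⟨u, hu, v, hv, hb⟩ := trb_bigle K (Nat.pos_of_ne_zero h2)
      obtain ⟨a, ha⟩ := Finset.card_eq_one.1 h1
      rw [ha, Finset.mem_singleton] at hu hv
      exact hb.1 (hu.trans hv.symm)
    have hsq : ∑ v ∈ K, (deg g K v) ^ 2 ≤ ∑ v ∈ K, deg g K v := by
      refine Finset.sum_le_sum fun v hv => ?_
      have h1 := hdl v hv
      have h2 : deg g K v ≤ 1 := by omega
      interval_cases deg g K v <;> norm_num
    rcases (by omega : K.card = 1 ∨ K.card = 2) with h1 | h1
    · have := hb1 h1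
      omega
    · omega

end MP86a502
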