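import Pool.Agent.Lib.MP_86a502_gt.Sml

set_option autoImplicit false
set_option linter.unusedSectionVars false

/-! # JOB Tre. `con_deg`, `pd_deg`, `bigP_even` (100-150 lines; `con_bound` is in `Trb.lean`)

`Con g K`: every proper nonempty subset of `K` has an edge to its complement in `K`.
Write `d v = deg g K v`, `k = K.card`.

* `con_deg`: `Con g K`, `K` nonempty `→ 2 * k ≤ ∑_{v∈K} d v + 2`. Growing: for every `1 ≤ j ≤ k` there is `A ⊆ K`,
  `A.card = j`, `2 * j ≤ ∑_{v∈A} deg g A v + 2`; if `A ≠ K` take the edge `a ∈ A`, `b ∈ K \ A` and `insert b A`: `a` gains a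
  neighbour and `b` has at least one.
* `pd_deg`: `PD g K`, `K` nonempty: apply `PD` to `c = 1`: `0 < k + ∑_{ordered pairs u≠v} g u v
  ≤ k - (1/2) ∑ d - (309/1000) * bigP`. So `∑ d + 0.618 * bigP < 2 k`.
* `bigP_even`: the set of ordered `big` pairs is symmetric and has no diagonal element.
* `con_bound`: for connected `K`:
  - `k = 1`: everything is `0`. `k = 2`: degrees `1, 1`, `bigP ≤ 2`.
  - `k ≥ 3`: by the first two facts `∑ d = 2k - 2` (both sides are integers). All `d v ≥ 1` (`Con` for `{v}`). Let `ℓ` be the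
    number of leaves (`d v = 1`), `c v = 1` for leaves and `2` otherwise. Two leaves are not adjacent (otherwise `{u, v}` has no edge
    to the outside). `∑ c² = 4k - 3ℓ`. For adjacent `u, v`: `c u c v = 4 - 2[u leaf] - 2[v leaf]`, so the sum over ordered
    adjacent pairs is `4 ∑ d - 4 ℓ = 8k - 8 - 4ℓ`. With `c u c v ≥ 2` on big pairs:
    `0 < Q(c) ≤ 4k - 3ℓ - (1/2)(8k - 8 - 4ℓ) - (309/1000) * 2 * bigP = 4 - ℓ - 0.618 * bigP`.
    Since `∑ (d v - 2) = -2`: `ℓ = 2 + ∑_{d v ≥ 3} (d v - 2) ≥ 2`. So `ℓ ∈ {2, 3}`, and if `bigP > 0` (then `≥ 2`) `ℓ = 2`, and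
    `bigP < 4`, so `bigP = 2` (even). If `ℓ = 3` exactly one `d v` is `3`, the other non-leaves have `d = 2`; if `ℓ = 2` all
    non-leaves have `d = 2`. `∑ d² = 4k - 10 + 2ℓ`. So `∑ d² + 2 bigP + 2 ≤ 4k`, and `∑ d² + 2 bigP + 4 ≤ 4k` if
    `bigP = 0`.
  - if `k ≥ 5` then `bigP = 0`: suppose `big u v`; all degrees are `≤ 2` (`ℓ = 2`). If `u` has a neighbour
    `u' ≠ v` and `v` has a neighbour `v' ≠ u` then `u' ≠ v'` (`s_cyc3`) and `s_353` gives a contradiction. Otherwise
    (by symmetry) the only neighbour of `u` is `v`. `Con` for `{u, v}`: there is `w` outside, adjacent to `v`.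
    `Con` for `{u, v, w}`: there is `x` outside, not adjacent to `u`, nor to `v` (degree `≤ 2`), so adjacent to `w`. `Con` for
    `{u, v, w, x}`: there is `y` outside, adjacent to `x` only by the same reason. `s_5333` gives a contradiction. -/

namespace MP86a502

variable {ι : Type} [DecidableEq ι] {g : ι → ι → ℝ}

/-- connected, in terms of cuts -/
def Con (g : ι → ι → ℝ) (K : Finset ι) : Prop :=
  ∀ A ⊆ K, A.Nonempty → A ≠ K → ∃ a ∈ A, ∃ b ∈ K, b ∉ A ∧ adj g a b

private theorem Tre_deg_mono {A B : Finset ι} (hAB : A ⊆ B) (v : ι) : deg g A v ≤ deg g B v := by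
  classical
  unfold deg
  exact Finset.card_le_card (Finset.filter_subset_filter _ hAB)

private theorem Tre_deg_lt {A B : Finset ι} (hAB : A ⊆ B) {v b : ι} (hb : b ∈ B) (hbA : b ∉ A)
    (hvb : adj g v b) : deg g A v + 1 ≤ deg g B v := by
  classical
  unfold deg
  apply Finset.card_lt_card
  rw [Finset.ssubset_iff_of_subset (Finset.filter_subset_filter _ hAB)]
  refine ⟨b, Finset.mem_filter.2 ⟨hb, hvb⟩, fun h => hbA (Finset.mem_filter.1 h).1⟩

private theorem Tre_grow (h : Diag g) {K : Finset ι} (hK : Con g K) (hne : K.Nonempty) :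
    ∀ j, j + 1 ≤ K.card → ∃ A ⊆ K, A.card = j + 1 ∧ 2 * (j + 1) ≤ ∑ v ∈ A, deg g A v + 2 := by
  intro j
  induction j with
  | zero =>
    intro _
    obtain ⟨x, hx⟩ := hne
    exact ⟨{x}, Finset.singleton_subset_iff.2 hx, Finset.card_singleton x, by omega⟩
  | succ j ih =>
    intro hj
    obtain ⟨A, hA, hc, hs⟩ := ih (by omega)
    have hAK : A ≠ K := by
      intro h1
      rw [h1] at hc
      omega
    have hAne : A.Nonempty := by
      rw [← Finset.card_pos]
      omega
    obtain ⟨a, ha, b, hb, hbA, hab⟩ := hK A hA hAne hAK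
    refine ⟨insert b A, Finset.insert_subset hb hA, ?_, ?_⟩
    · rw [Finset.card_insert_of_notMem hbA, hc]
    · rw [Finset.sum_insert hbA]
      have h1 : 1 ≤ deg g (insert b A) b := by
        have h2 := Tre_deg_lt (g := g) (A := ∅) (B := insert b A) (v := b) (b := a)
          (Finset.empty_subset _) (Finset.mem_insert_of_mem ha) (Finset.notMem_empty a)
          (h.adj_comm.1 hab)
        omega
      have h3 : ∑ v ∈ A, deg g A v + 1 ≤ ∑ v ∈ A, deg g (insert b A) v := by
        rw [← Finset.add_sum_erase A _ ha, ← Finset.add_sum_erase A (fun v => deg g (insert b A) v) ha]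
        have h4 := Tre_deg_lt (g := g) (Finset.subset_insert b A) (Finset.mem_insert_self b A) hbA hab
        have h5 : ∑ v ∈ A.erase a, deg g A v ≤ ∑ v ∈ A.erase a, deg g (insert b A) v :=
          Finset.sum_le_sum fun v _ => Tre_deg_mono (Finset.subset_insert b A) v
        omega
      omega

theorem con_deg (h : Diag g) {K : Finset ι} (hK : Con g K) (hne : K.Nonempty) :
    2 * K.card ≤ ∑ v ∈ K, deg g K v + 2 := by
  have h1 : 1 ≤ K.card := Finset.card_pos.2 hne
  obtain ⟨A, hA, hc, hs⟩ := Tre_grow h hK hne (K.card - 1) (by omega)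
  have h2 : A = K := Finset.eq_of_subset_of_card_le hA (by omega)
  rw [h2] at hs
  omega

theorem pd_deg (h : Diag g) {K : Finset ι} (hK : PD g K) (hne : K.Nonempty) :
    (∑ v ∈ K, (deg g K v : ℝ)) + 618 / 1000 * (bigP g K : ℝ) < 2 * (K.card : ℝ) := by
  classical
  obtain ⟨x, hx⟩ := hne
  have h0 := hK (fun _ => 1) ⟨x, hx, one_ne_zero⟩
  have hb : ∀ i j : ι, (1 : ℝ) * 1 * g i j ≤ (if i = j then (1 : ℝ) else 0) -
      1 / 2 * (if adj g i j then (1 : ℝ) else 0) - 309 / 1000 * (if big g i j then (1 : ℝ) else 0) := by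
    intro i j
    rw [one_mul, one_mul]
    by_cases hij : i = j
    · subst hij
      rw [if_pos rfl, if_neg (fun h1 => h1.1 rfl), if_neg (fun h1 => h1.1 rfl), h.diag]
      norm_num
    · rw [if_neg hij]
      by_cases hbig : big g i j
      · rw [if_pos hbig, if_pos (big_adj hbig)]
        have := h.big_le hbig
        linarith
      · rw [if_neg hbig]
        by_cases hadj : adj g i j
        · rw [if_pos hadj]
          have := h.half hij hadj.2
          linarith
        · rw [if_neg hadj]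
          have := h.nonpos hij
          linarith
  have h1 : ∑ i ∈ K, ∑ j ∈ K, (1 : ℝ) * 1 * g i j ≤ ∑ i ∈ K, ∑ j ∈ K, ((if i = j then (1 : ℝ) else 0) -
      1 / 2 * (if adj g i j then (1 : ℝ) else 0) - 309 / 1000 * (if big g i j then (1 : ℝ) else 0)) :=
    Finset.sum_le_sum fun i _ => Finset.sum_le_sum fun j _ => hb i j
  have h2 : ∑ i ∈ K, ∑ j ∈ K, ((if i = j then (1 : ℝ) else 0) -
      1 / 2 * (if adj g i j then (1 : ℝ) else 0) - 309 / 1000 * (if big g i j then (1 : ℝ) else 0)) =
      (K.card : ℝ) - 1 / 2 * (∑ v ∈ K, (deg g K v : ℝ)) - 309 / 1000 * (bigP g K : ℝ) := by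
    simp only [Finset.sum_sub_distrib]
    congr 1
    · congr 1
      · have : ∀ i ∈ K, ∑ j ∈ K, (if i = j then (1 : ℝ) else 0) = 1 := by
          intro i hi
          rw [Finset.sum_ite_eq, if_pos hi]
        rw [Finset.sum_congr rfl this, Finset.sum_const, nsmul_eq_mul, mul_one]
      · rw [Finset.mul_sum]
        refine Finset.sum_congr rfl fun i _ => ?_
        rw [← Finset.mul_sum]
        congr 1
        unfold deg
        rw [Finset.card_filter]
        push_cast
        rfl
    · unfold bigP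
      rw [Finset.card_filter, Finset.sum_product]
      push_cast
      rw [Finset.mul_sum]
      refine Finset.sum_congr rfl fun i _ => ?_
      rw [Finset.mul_sum]
  rw [h2] at h1
  have h3 := lt_of_lt_of_le h0 h1
  linarith

theorem bigP_even (h : Diag g) (K : Finset ι) : Even (bigP g K) := by
  classical
  unfold bigP
  have h1 : ∑ p ∈ (K ×ˢ K).filter (fun p => big g p.1 p.2), (1 : ZMod 2) = 0 := by
    refine Finset.sum_involution (fun p _ => (p.2, p.1)) ?_ ?_ ?_ ?_
    · intro p _
      decide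
    · intro p hp _ he
      rw [Finset.mem_filter] at hp
      have h2 : p.2 = p.1 := congrArg Prod.fst he
      exact hp.2.1 h2.symm
    · intro p hp
      rw [Finset.mem_filter, Finset.mem_product] at hp ⊢
      exact ⟨⟨hp.1.2, hp.1.1⟩, h.big_comm.1 hp.2⟩
    · intro p _
      rfl
  rw [Finset.sum_const, nsmul_eq_mul, mul_one] at h1
  exact (ZMod.natCast_eq_zero_iff_even).1 h1

end MP86a502
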