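import Pool.Agent.Lib.MP_86a502_gt.Kc
import Pool.Agent.Lib.MP_86a502_gt.Fac

set_option autoImplicit false
set_option linter.unusedSectionVars false

/-! # JOB Vpt. `vpt_spec`, `vpt_unique`, `vpt_inj` (100-150 lines; `generic`, `local_max` are in `Vpb.lean`)

`vpt e S` is the vertex of `S`: the vector with `v 0 = 1` orthogonal to the `e i`, `i ∈ S`.

* `vpt_spec`: for `S ∈ verts n (gram e)`: `v = vpt e S` has `v 0 = 1`, `lor v v < 0`, `lor v (e i) = 0` for `i ∈ S`,
  `lor v (e i) < 0` for `i ∉ S`. Proof: normalise `face_point`: `v₁ = (x 0)⁻¹ • x`. The choice may be another vector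
  `v₂` with `v₂ 0 = 1`, `v₂ ⟂ e i`; but `z = lor v₁ v₁ • v₂ - lor v₁ v₂ • v₁` is orthogonal to `v₁` and to the
  `e i`, `i ∈ S`; if `z ≠ 0` then `v₁, z, e i (i ∈ S)` are `n + 2` linearly independent vectors (pair a zero combination
  with `v₁`, with `z` (`lor z z > 0` by `lor_pos`), then use `PD`), contradiction. So `z = 0`, and the coordinate `0` gives
  `lor v₁ v₁ = lor v₁ v₂`, `v₂ = v₁`.
* `vpt_unique`: any `x` orthogonal to all `e i`, `i ∈ S`, is `x 0 • vpt e S` (same argument).
* `vpt_inj`: different vertices have different points (`S` is the set of `i` with `lor v (e i) = 0`).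
* `generic`: there is `w : Fin (n+1) → ℝ` such that `h S = ∑ k, w k * vpt e S k` is injective on `verts`:
  a finite union of proper subspaces `{w | ∑ k, w k * (v - v') k = 0}` is not everything
  (`Subspace.biUnion_ne_univ_of_top_nmem`), or take `w k = t ^ k` with `t` not a root of finitely many nonzero polynomials.
* `local_max`: let `w` be any vector, `h S = ∑ k, w k * vpt e S k`, `T` a 2-face, `S ∈ ov T`, and `h S' < h S` for both
  neighbours `S' ∈ ov T` (`(S ∩ S').card + 1 = n`). Then `h S' < h S` for all `S' ∈ ov T`, `S' ≠ S`.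
  Proof: `S \ T = {i, j}`. By `hedge` (the conclusion of `cox_edge`, given as hypothesis) for `S \ {i}` and `S \ {j}` there
  are the neighbours `S₁ = insert i' (S \ {i})` and `S₂ = insert j' (S \ {j})`, both in `ov T`. Let `v, v₁, v₂` be their
  points. `lor v₁ (e i) < 0 = lor v₁ (e j)`, `lor v₂ (e j) < 0 = lor v₂ (e i)` (`i ∉ S₁`, `j ∉ S₂`).
  Let `S' ∈ ov T`, `x = vpt e S'`. Put `β = lor x (e i)/lor v₁ (e i) ≥ 0`, `γ = lor x (e j)/lor v₂ (e j) ≥ 0`
  and `y = x - β v₁ - γ v₂`: it is orthogonal to all `e k`, `k ∈ S`, so by `vpt_unique` `y = α v`, `α = y 0 = 1 - β - γ`.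
  So `h S' = (1-β-γ) h S + β h S₁ + γ h S₂ ≤ h S`, with equality only if `β = γ = 0`, that is `x = v`, `S' = S`. -/

namespace MP86a502

variable {n N : ℕ} {e : Fin N → Fin (n + 1) → ℝ}

open scoped Classical in
/-- The point of a vertex. -/
noncomputable def vpt (e : Fin N → Fin (n + 1) → ℝ) (S : Finset (Fin N)) : Fin (n + 1) → ℝ :=
  if h : ∃ v : Fin (n + 1) → ℝ, v 0 = 1 ∧ ∀ i ∈ S, lor v (e i) = 0 then h.choose else 0

private theorem vpt_aux {S : Finset (Fin N)} (hc : S.card = n) (hS : PD (gram e) S)
    {v : Fin (n + 1) → ℝ} (hv : lor v v < 0) (hvS : ∀ i ∈ S, lor v (e i) = 0)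
    {x : Fin (n + 1) → ℝ} (hx : ∀ i ∈ S, lor x (e i) = 0) : ∃ t : ℝ, x = t • v := by
  classical
  obtain ⟨z, hz⟩ : ∃ z, z = lor v v • x - lor v x • v := ⟨_, rfl⟩
  have hvz : lor v z = 0 := by
    rw [hz, lor_sub_right, lor_smul_right, lor_smul_right]
    ring
  have hzS : ∀ i ∈ S, lor z (e i) = 0 := by
    intro i hi
    rw [hz, lor_sub_left, lor_smul_left, lor_smul_left, hvS i hi, hx i hi]
    ring
  by_cases hz0 : z = 0
  · refine ⟨lor v x / lor v v, ?_⟩
    have h1 : lor v v • x = lor v x • v := by
      rw [hz0] at hz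
      exact (sub_eq_zero.mp hz.symm)
    rw [div_eq_inv_mul, mul_smul, ← h1, smul_smul, inv_mul_cancel₀ hv.ne, one_smul]
  · exfalso
    have hzz : 0 < lor z z := lor_pos hv hvz hz0
    let f : Option (Option {i // i ∈ S}) → (Fin (n + 1) → ℝ) := fun o =>
      match o with
      | none => v
      | some none => z
      | some (some i) => e i.1
    have hli : LinearIndependent ℝ f := by
      rw [Fintype.linearIndependent_iff]
      intro g hg
      rw [Fintype.sum_option, Fintype.sum_option] at hg
      have hg' : g none • v + (g (some none) • z +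
          ∑ i : {i // i ∈ S}, g (some (some i)) • e i.1) = 0 := hg
      have h1 : g none = 0 := by
        have h2 := congrArg (fun y => lor v y) hg'
        simp only [lor_add_right, lor_smul_right, lor_sum_right, lor_zero_right, hvz] at h2
        have h3 : ∑ i : {i // i ∈ S}, g (some (some i)) * lor v (e i.1) = 0 := by
          apply Finset.sum_eq_zero
          intro i _
          rw [hvS i.1 i.2, mul_zero]
        rw [h3] at h2
        have h4 : g none * lor v v = 0 := by linarith
        rcases mul_eq_zero.mp h4 with h | h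
        · exact h
        · exact absurd h hv.ne
      have h1' : g (some none) = 0 := by
        have h2 := congrArg (fun y => lor z y) hg'
        simp only [lor_add_right, lor_smul_right, lor_sum_right, lor_zero_right,
          lor_comm z v, hvz] at h2
        have h3 : ∑ i : {i // i ∈ S}, g (some (some i)) * lor z (e i.1) = 0 := by
          apply Finset.sum_eq_zero
          intro i _
          rw [hzS i.1 i.2, mul_zero]
        rw [h3] at h2
        have h4 : g (some none) * lor z z = 0 := by linarith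
        rcases mul_eq_zero.mp h4 with h | h
        · exact h
        · exact absurd h hzz.ne'
      rw [h1, h1', zero_smul, zero_smul, zero_add, zero_add] at hg'
      let c : Fin N → ℝ := fun i => if h : i ∈ S then g (some (some ⟨i, h⟩)) else 0
      have hcc : ∀ i : {i // i ∈ S}, c i.1 = g (some (some i)) := by
        intro i
        simp only [c, i.2, dif_pos]
      have hsum : ∑ i ∈ S, c i • e i = 0 := by
        rw [← Finset.sum_coe_sort S (fun i => c i • e i), ← hg']
        apply Finset.sum_congr rfl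
        intro i _
        rw [hcc i]
      have hQ : ∑ i ∈ S, ∑ j ∈ S, c i * c j * gram e i j = 0 := by
        have h2 := lor_sum_sum S c c e
        rw [hsum, lor_zero_left] at h2
        exact h2.symm
      have hall : ∀ i ∈ S, c i = 0 := by
        by_contra hcon
        push Not at hcon
        have h2 := hS c hcon
        rw [hQ] at h2
        exact lt_irrefl _ h2
      intro o
      rcases o with _ | _ | i
      · exact h1
      · exact h1'
      · rw [← hcc i]
        exact hall i.1 i.2
    have hcard := hli.fintype_card_le_finrank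
    rw [Fintype.card_option, Fintype.card_option, Fintype.card_coe, Module.finrank_fin_fun, hc]
      at hcard
    omega

theorem vpt_spec (h : CCP n N e) {S : Finset (Fin N)} (hS : S ∈ verts n (gram e)) :
    vpt e S 0 = 1 ∧ lor (vpt e S) (vpt e S) < 0 ∧ (∀ i ∈ S, lor (vpt e S) (e i) = 0) ∧
      ∀ i, i ∉ S → lor (vpt e S) (e i) < 0 := by
  obtain ⟨hc, hP⟩ := mem_verts.mp hS
  obtain ⟨x, hx, hx0, hxS, hxS'⟩ := face_point h hP
  have hex : ∃ v : Fin (n + 1) → ℝ, v 0 = 1 ∧ ∀ i ∈ S, lor v (e i) = 0 := by
    refine ⟨(x 0)⁻¹ • x, ?_, ?_⟩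
    · rw [Pi.smul_apply, smul_eq_mul, inv_mul_cancel₀ hx0.ne']
    · intro i hi
      rw [lor_smul_left, hxS i hi, mul_zero]
  have hv : vpt e S = hex.choose := by
    unfold vpt
    rw [dif_pos hex]
  have hspec := hex.choose_spec
  rw [← hv] at hspec
  obtain ⟨t, ht⟩ := vpt_aux hc hP hx hxS hspec.2
  have ht0 : 0 < t := by
    have h1 := hspec.1
    rw [ht, Pi.smul_apply, smul_eq_mul] at h1
    by_contra hcon
    push Not at hcon
    nlinarith
  refine ⟨hspec.1, ?_, hspec.2, ?_⟩
  · rw [ht, lor_smul_left, lor_smul_right]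
    have := mul_pos ht0 ht0
    nlinarith
  · intro i hi
    rw [ht, lor_smul_left]
    exact mul_neg_of_pos_of_neg ht0 (hxS' i hi)

theorem vpt_unique (h : CCP n N e) {S : Finset (Fin N)} (hS : S ∈ verts n (gram e))
    {x : Fin (n + 1) → ℝ} (hx : ∀ i ∈ S, lor x (e i) = 0) : x = x 0 • vpt e S := by
  obtain ⟨hc, hP⟩ := mem_verts.mp hS
  obtain ⟨h1, h2, h3, _⟩ := vpt_spec h hS
  obtain ⟨t, ht⟩ := vpt_aux hc hP h2 h3 hx
  have h4 : x 0 = t := by
    rw [ht, Pi.smul_apply, smul_eq_mul, h1, mul_one]
  rw [h4]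
  exact ht

theorem vpt_inj (h : CCP n N e) {S S' : Finset (Fin N)} (hS : S ∈ verts n (gram e))
    (hS' : S' ∈ verts n (gram e)) (hv : vpt e S = vpt e S') : S = S' := by
  obtain ⟨_, _, h3, h4⟩ := vpt_spec h hS
  obtain ⟨_, _, h3', h4'⟩ := vpt_spec h hS'
  rw [← hv] at h3' h4'
  ext i
  constructor
  · intro hi
    by_contra hn
    have := h4' i hn
    rw [h3 i hi] at this
    exact lt_irrefl _ this
  · intro hi
    by_contra hn
    have := h4 i hn
    rw [h3' i hi] at this
    exact lt_irrefl _ this

end MP86a502
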