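import Pool.Agent.Lib.MP_86a502_gt.Kc
import Pool.Agent.Lib.MP_86a502_gt.Fac

set_option autoImplicit false
set_option linter.unusedSectionVars false

/-! # JOB Wal. `orth_exists`, `cox_card_le`, `wall` (130-200 lines; `cox_ext`, `cox_edge` are in `Wab.lean`)

* `orth_exists`: if `lor x x < 0` and `T.card + 1 ≤ n` there is `y ≠ 0` with `lor x y = 0` and
  `lor y (e i) = 0` for `i ∈ T`. Dimension count: the linear map `V → ℝ × (T → ℝ)`,
  `y ↦ (lor x y, fun i => lor y (e i))` cannot be injective, `finrank V = n + 1 > 1 + T.card`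
  (`LinearMap.exists_ne_zero_of_...`, `LinearMap.ker_ne_bot_of_finrank_lt`, or build it with `LinearMap.pi`).
* `cox_card_le`: if `S` is positive definite then `S.card ≤ n`: the `e i`, `i ∈ S`, together with a face point
  `x` (`face_point`) are linearly independent: if `t • x + ∑ c i • e i = 0`, apply `lor x`: `t lor x x = 0`, so
  `t = 0`; then `Q(c) = 0`, so `c = 0`. Hence `S.card + 1 ≤ n + 1`.
* `wall`: let `x` be a face point of `T` (`lor x x < 0`, `0 < x 0`, `= 0` on `T`, `< 0` off `T`), `y ≠ 0`,
  `lor x y = 0`, `y ⟂ e i` for `i ∈ T`. Then there are `t > 0` and `u ∉ T` with `0 < lor y (e u)`,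
  `lor (x + t • y) (e u) = 0`, `lor (x + t • y) (e i) ≤ 0` for all `i`, and moreover every `v ∉ T` with
  `lor (x + t • y) (e v) = 0` makes, together with `u`, `insert v (insert u T)` positive definite; and `t` is
  minimal: `t * lor y (e v) ≤ -lor x (e v)` for all `v`.
  Proof: there is `v` with `lor y (e v) > 0`: otherwise `lor (x + s • y) (e i) ≤ 0` for all `i`, `s ≥ 0`, and by
  `ccp_K` (the vector is nonzero since `lor x (x + s y) = lor x x < 0`) `lor (x+s y)(x+s y) = lor x x + s² lor y y < 0`
  for all `s ≥ 0`, impossible because `lor y y > 0` (`lor_pos`). Such `v` are not in `T`. Take the `v = u` that minimises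
  `t v = -lor x (e v) / lor y (e v) > 0` among those with `lor y (e v) > 0` (`Finset.exists_min_image`). The last
  assertion: `x + t • y` is timelike by `ccp_K`, now use `pd_of_point`.
* `cox_ext`: if `T` is positive definite and `T.card < n` then `T ⊂ insert u T` positive definite by `face_point`,
  `orth_exists`, `wall`; induct on `n - T.card`.
* `cox_edge`: `T.card + 1 = n`, `T` positive definite. Take `x`, `y` as above; apply `wall` to `y` and to `-y`: `u`, `t`
  and `u'`, `t'`. `u ≠ u'` since `lor y (e u) > 0 > lor y (e u')`. Both `insert u T`, `insert u' T` are positive definite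
  (`pd_of_point`). Conversely let `w ∉ T` and `insert w T` be positive definite. Let `z` be a face point of it
  (`z ⟂ e i` for `i ∈ insert w T`, `lor z (e i) ≤ 0` for all `i`, `z` timelike, `0 < z 0`). `z` is a combination of
  `x, y`: the space orthogonal to `T` has dimension two: precisely `z' = z - α • x - β • y` with
  `α = lor z x / lor x x`, `β = lor z y / lor y y` is orthogonal to `x`, `y` and the `e i`, `i ∈ T`; if `z' ≠ 0` then
  `x, y, z', e i (i ∈ T)` are `n + 2` linearly independent vectors (a zero combination: pair with `x`, `y`, `z'`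
  (`lor z' z' > 0`), then use `PD`) in dimension `n + 1`, contradiction. So `z = α x + β y`. `α > 0` as
  `lor x z = α lor x x < 0` (`lor_neg`). With `s = β/α`: `lor (x + s • y) (e w) = 0`, `lor (x + s • y)(e i) ≤ 0` for
  all `i`. `s ≠ 0` since `lor x (e w) < 0`. If `s > 0`: `lor (x+s y)(e u) ≤ 0` gives `s ≤ t`, and
  `lor y (e w) > 0`, `s = -lor x (e w)/lor y (e w) ≥ t`; so `s = t`, and `lor (x + t y)(e w) = 0`, so if `w ≠ u`,
  `insert w (insert u T)` is positive definite with `n + 1` elements, contradicting `cox_card_le`. Similarly `s < 0`. -/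

namespace MP86a502

variable {n N : ℕ} {e : Fin N → Fin (n + 1) → ℝ}

theorem orth_exists (e : Fin N → Fin (n + 1) → ℝ) {T : Finset (Fin N)} (hT : T.card + 1 ≤ n)
    (x : Fin (n + 1) → ℝ) :
    ∃ y : Fin (n + 1) → ℝ, y ≠ 0 ∧ lor x y = 0 ∧ ∀ i ∈ T, lor y (e i) = 0 := by
  let L : (Fin (n + 1) → ℝ) →ₗ[ℝ] (Option T → ℝ) :=
    { toFun := fun y o => match o with
        | none => lor x y
        | some i => lor y (e i.1)
      map_add' := by
        intro y z
        funext o
        rcases o with _ | i
        · exact lor_add_right _ _ _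
        · exact lor_add_left _ _ _
      map_smul' := by
        intro r y
        funext o
        rcases o with _ | i
        · exact lor_smul_right _ _ _
        · exact lor_smul_left _ _ _ }
  have hker : LinearMap.ker L ≠ ⊥ := by
    apply LinearMap.ker_ne_bot_of_finrank_lt
    rw [Module.finrank_fintype_fun_eq_card, Module.finrank_fintype_fun_eq_card,
      Fintype.card_option, Fintype.card_coe, Fintype.card_fin]
    omega
  obtain ⟨y, hy, hy0⟩ := Submodule.exists_mem_ne_zero_of_ne_bot hker
  rw [LinearMap.mem_ker] at hy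
  refine ⟨y, hy0, congrFun hy none, fun i hi => congrFun hy (some ⟨i, hi⟩)⟩

theorem cox_card_le (h : CCP n N e) (S : Finset (Fin N)) (hS : PD (gram e) S) : S.card ≤ n := by
  obtain ⟨x, hx, _, hxS, _⟩ := face_point h hS
  let v : Option S → Fin (n + 1) → ℝ := fun o => match o with
    | none => x
    | some i => e i.1
  have hli : LinearIndependent ℝ v := by
    rw [Fintype.linearIndependent_iff]
    intro c hc
    rw [Fintype.sum_option] at hc
    have hc' : c none • x + ∑ i : S, c (some i) • e i.1 = 0 := hc
    have h1 : c none = 0 := by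
      have h2 : lor x (c none • x + ∑ i : S, c (some i) • e i.1) = 0 := by
        rw [hc', lor_zero_right]
      rw [lor_add_right, lor_smul_right, lor_sum_right, Finset.sum_eq_zero, add_zero] at h2
      · rcases mul_eq_zero.mp h2 with h3 | h3
        · exact h3
        · exact absurd h3 hx.ne
      · intro i _
        rw [lor_smul_right, hxS i.1 i.2, mul_zero]
    have h2 : ∑ i : S, c (some i) • e i.1 = 0 := by
      rw [h1, zero_smul, zero_add] at hc'
      exact hc'
    have h3 : ∀ i : S, c (some i) = 0 := by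
      by_contra hne
      push Not at hne
      obtain ⟨i0, hi0⟩ := hne
      let d : Fin N → ℝ := fun i => if hi : i ∈ S then c (some ⟨i, hi⟩) else 0
      have hd : ∀ i : S, d i.1 = c (some i) := by
        intro i
        simp only [d]
        rw [dif_pos i.2]
      have h4 := hS d ⟨i0.1, i0.2, by rw [hd]; exact hi0⟩
      have h5 : ∑ i ∈ S, d i • e i = 0 := by
        rw [← Finset.sum_coe_sort S, ← h2]
        refine Finset.sum_congr rfl fun i _ => ?_
        rw [hd]
      have h6 : lor (∑ i ∈ S, d i • e i) (∑ i ∈ S, d i • e i) = 0 := by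
        rw [h5, lor_zero_left]
      rw [lor_sum_sum] at h6
      have h7 : 0 < ∑ i ∈ S, ∑ j ∈ S, d i * d j * lor (e i) (e j) := h4
      rw [h6] at h7
      exact lt_irrefl _ h7
    intro o
    rcases o with _ | i
    · exact h1
    · exact h3 i
  have h2 := hli.fintype_card_le_finrank
  rw [Module.finrank_fintype_fun_eq_card, Fintype.card_option, Fintype.card_coe,
    Fintype.card_fin] at h2
  omega

theorem Wal_ne {x y : Fin (n + 1) → ℝ} (hx : lor x x < 0) (hxy : lor x y = 0) (s : ℝ) :
    x + s • y ≠ 0 := by
  intro h0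
  have h1 : lor x (x + s • y) = 0 := by rw [h0, lor_zero_right]
  rw [lor_add_right, lor_smul_right, hxy, mul_zero, add_zero] at h1
  exact hx.ne h1

theorem Wal_lor (x y z : Fin (n + 1) → ℝ) (s : ℝ) :
    lor (x + s • y) z = lor x z + s * lor y z := by
  rw [lor_add_left, lor_smul_left]

theorem wall (h : CCP n N e) (hn : 1 ≤ n) {T : Finset (Fin N)} {x y : Fin (n + 1) → ℝ}
    (hx : lor x x < 0) (hx0 : 0 < x 0) (hT : ∀ i ∈ T, lor x (e i) = 0)
    (hT' : ∀ i, i ∉ T → lor x (e i) < 0) (hy : y ≠ 0) (hxy : lor x y = 0)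
    (hyT : ∀ i ∈ T, lor y (e i) = 0) :
    ∃ t : ℝ, 0 < t ∧ ∃ u, u ∉ T ∧ 0 < lor y (e u) ∧ lor (x + t • y) (e u) = 0 ∧
      (∀ i, lor (x + t • y) (e i) ≤ 0) ∧
      (∀ v, lor (x + t • y) (e v) = 0 → PD (gram e) (insert v (insert u T))) := by
  classical
  have hyy : 0 < lor y y := lor_pos hx hxy hy
  have hxle : ∀ i, lor x (e i) ≤ 0 := by
    intro i
    by_cases hi : i ∈ T
    · exact (hT i hi).le
    · exact (hT' i hi).le
  have hex : ∃ v, 0 < lor y (e v) := by
    by_contra hno
    push Not at hno
    obtain ⟨s, hs0, hs⟩ : ∃ s : ℝ, 0 ≤ s ∧ 0 ≤ lor x x + s * s * lor y y := by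
      refine ⟨1 + (-(lor x x)) / lor y y, ?_, ?_⟩
      · have : 0 ≤ (-(lor x x)) / lor y y := div_nonneg (by linarith) hyy.le
        linarith
      · set a : ℝ := (-(lor x x)) / lor y y with ha
        have ha0 : 0 ≤ a := div_nonneg (by linarith) hyy.le
        have ha1 : a * lor y y = -(lor x x) := by
          rw [ha]; field_simp
        have h1 : a ≤ (1 + a) * (1 + a) := by nlinarith
        have h2 : a * lor y y ≤ (1 + a) * (1 + a) * lor y y :=
          mul_le_mul_of_nonneg_right h1 hyy.le
        linarith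
    have hK := (ccp_K h hn (Wal_ne hx hxy s) (fun i => by
      rw [Wal_lor]
      have := mul_nonpos_of_nonneg_of_nonpos hs0 (hno i)
      linarith [hxle i])).1
    rw [Wal_lor, lor_add_right, lor_smul_right, lor_add_right, lor_smul_right, lor_comm y x,
      hxy] at hK
    nlinarith
  obtain ⟨v0, hv0⟩ := hex
  obtain ⟨u, hu, hmin⟩ := Finset.exists_min_image
    (Finset.univ.filter fun v : Fin N => 0 < lor y (e v))
    (fun v => -(lor x (e v)) / lor y (e v)) ⟨v0, by simp [hv0]⟩
  rw [Finset.mem_filter] at hu
  have hyu : 0 < lor y (e u) := hu.2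
  have huT : u ∉ T := by
    intro hu'
    rw [hyT u hu'] at hyu
    exact lt_irrefl _ hyu
  have ht0 : 0 < -(lor x (e u)) / lor y (e u) := div_pos (by linarith [hT' u huT]) hyu
  set t : ℝ := -(lor x (e u)) / lor y (e u) with ht
  have htu : t * lor y (e u) = -(lor x (e u)) := by
    rw [ht]; field_simp
  have h0 : lor (x + t • y) (e u) = 0 := by
    rw [Wal_lor, htu]; ring
  have hle : ∀ i, lor (x + t • y) (e i) ≤ 0 := by
    intro i
    rw [Wal_lor]
    by_cases hi : 0 < lor y (e i)
    · have h1 := hmin i (by simp [hi])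
      have h2 : t ≤ -(lor x (e i)) / lor y (e i) := h1
      rw [le_div_iff₀ hi] at h2
      linarith
    · have h1 : lor y (e i) ≤ 0 := not_lt.mp hi
      have h2 := mul_nonpos_of_nonneg_of_nonpos ht0.le h1
      linarith [hxle i]
  have htl : lor (x + t • y) (x + t • y) < 0 := (ccp_K h hn (Wal_ne hx hxy t) hle).1
  refine ⟨t, ht0, u, huT, hyu, h0, hle, fun v hv => ?_⟩
  apply pd_of_point h htl
  intro i hi
  rcases Finset.mem_insert.mp hi with rfl | hi
  · exact hv
  · rcases Finset.mem_insert.mp hi with rfl | hi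
    · exact h0
    · rw [Wal_lor, hT i hi, hyT i hi]; ring

end MP86a502
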